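import Mathlib.Computability.PartrecCode

/-!
# Auxiliary lemmas on primitive recursive list operations
-/

namespace Pool.Agent.SJT

variable {α β γ σ : Type*} [Primcodable α] [Primcodable β] [Primcodable γ] [Primcodable σ]

theorem primrec_filter {f : α → List β} {p : α → β → Bool} (hf : Primrec f) (hp : Primrec₂ p) :
    Primrec fun a => (f a).filter (p a) := by
  have h : Primrec fun a => (f a).filterMap fun b => bif p a b then some b else none :=
    Primrec.listFilterMap hf (Primrec.cond hp (Primrec.option_some.comp Primrec.snd)
      (Primrec.const none))
  refine h.of_eq fun a => ?_
  induction f a with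
  | nil => rfl
  | cons x l ih =>
    rw [List.filterMap_cons, List.filter_cons, ih]
    cases p a x <;> simp

theorem primrec_all {f : α → List β} {p : α → β → Bool} (hf : Primrec f) (hp : Primrec₂ p) :
    Primrec fun a => (f a).all (p a) := by
  have h : Primrec fun a => (f a).foldr (fun b r => p a b && r) true := by
    refine Primrec.list_foldr (h := fun a q => p a q.1 && q.2) hf (Primrec.const true) ?_
    exact Primrec.and.comp (hp.comp Primrec.fst (Primrec.fst.comp Primrec.snd))
      (Primrec.snd.comp Primrec.snd)
  refine h.of_eq fun a => ?_
  induction f a with
  | nil => rfl
  | cons x l ih => rw [List.foldr_cons, ih, List.all_cons]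

theorem primrec_any {f : α → List β} {p : α → β → Bool} (hf : Primrec f) (hp : Primrec₂ p) :
    Primrec fun a => (f a).any (p a) := by
  have h : Primrec fun a => (f a).foldr (fun b r => p a b || r) false := by
    refine Primrec.list_foldr (h := fun a q => p a q.1 || q.2) hf (Primrec.const false) ?_
    exact Primrec.or.comp (hp.comp Primrec.fst (Primrec.fst.comp Primrec.snd))
      (Primrec.snd.comp Primrec.snd)
  refine h.of_eq fun a => ?_
  induction f a with
  | nil => rfl
  | cons x l ih => rw [List.foldr_cons, ih, List.any_cons]

/-- The list of the values of a computable function on an initial segment is computable. -/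
theorem computable_map_range {k : α → ℕ} {f : α → ℕ → σ} (hk : Computable k)
    (hf : Computable₂ f) : Computable fun a => (List.range (k a)).map (f a) := by
  have h : Computable fun a => (Nat.rec [] (fun n ih => ih ++ [f a n]) (k a) : List σ) := by
    refine Computable.nat_rec (h := fun a (q : ℕ × List σ) => q.2 ++ [f a q.1]) hk
      (Computable.const []) ?_
    refine Computable.list_append.comp (Computable.snd.comp Computable.snd) ?_
    refine Computable.list_cons.comp ?_ (Computable.const [])
    exact hf.comp Computable.fst (Computable.fst.comp Computable.snd)
  refine h.of_eq fun a => ?_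
  induction k a with
  | zero => rfl
  | succ n ih => simp only [ih, List.range_succ, List.map_append, List.map_cons, List.map_nil]

omit [Primcodable α] in
theorem head?_filterMap_range {F : ℕ → Option α} {n : ℕ} {p : α} :
    ((List.range n).filterMap F).head? = some p ↔
      ∃ u < n, F u = some p ∧ ∀ u' < u, F u' = none := by
  induction n with
  | zero => simp
  | succ n ih =>
    rw [List.range_succ, List.filterMap_append, List.head?_append]
    cases hc : ((List.range n).filterMap F).head? with
    | some q =>
      rw [hc] at ih
      simp only [Option.some_or]
      rw [ih]
      constructor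
      · rintro ⟨u, hu, h1⟩; exact ⟨u, by omega, h1⟩
      · rintro ⟨u, hu, h1, h2⟩
        rcases Nat.lt_succ_iff_lt_or_eq.1 hu with hu | hu
        · exact ⟨u, hu, h1, h2⟩
        · exfalso
          subst hu
          have : (List.range u).filterMap F = [] := by
            rw [List.filterMap_eq_nil_iff]
            intro a ha
            exact h2 a (List.mem_range.1 ha)
          rw [this] at hc
          simp at hc
    | none =>
      have hnil : (List.range n).filterMap F = [] := List.head?_eq_none_iff.1 hc
      rw [List.filterMap_eq_nil_iff] at hnil
      simp only [Option.none_or]
      constructor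
      · intro h1
        refine ⟨n, by omega, ?_, fun u' hu' => hnil u' (List.mem_range.2 hu')⟩
        cases hF : F n with
        | none => simp [hF] at h1
        | some q => simpa [hF] using h1
      · rintro ⟨u, hu, h1, h2⟩
        rcases Nat.lt_succ_iff_lt_or_eq.1 hu with hu | hu
        · rw [hnil u (List.mem_range.2 hu)] at h1; cases h1
        · subst hu; simp [h1]

omit [Primcodable α] in
theorem head?_filterMap_range_none {F : ℕ → Option α} {n : ℕ} :
    ((List.range n).filterMap F).head? = none ↔ ∀ u < n, F u = none := by
  rw [List.head?_eq_none_iff, List.filterMap_eq_nil_iff]
  simp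

end Pool.Agent.SJT
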