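import Pool.Agent.Lib.MP_377195_lc.Run
import Pool.Agent.Lib.MP_377195_lc.PrimAux

/-!
# Approximations to a function recursive in a c.e. set
-/

namespace Pool.Agent.SJT

open Encodable
open Nat.Partrec (Code)
open Nat.Partrec.Code

theorem exists_code_re {E : Set ℕ} (hE : REPred fun x => x ∈ E) :
    ∃ c : Code, ∀ x, x ∈ E ↔ ∃ k, (evaln k c x).isSome = true := by
  obtain ⟨c, hc⟩ := exists_code.1 hE
  refine ⟨c, fun x => ?_⟩
  have h1 : x ∈ E ↔ ∃ y, y ∈ eval c x := by
    rw [hc]
    simp
  rw [h1]
  constructor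
  · rintro ⟨y, hy⟩
    obtain ⟨k, hk⟩ := evaln_complete.1 hy
    exact ⟨k, by rw [Option.mem_def.1 hk]; rfl⟩
  · rintro ⟨k, hk⟩
    obtain ⟨y, hy⟩ := Option.isSome_iff_exists.1 hk
    exact ⟨y, evaln_complete.2 ⟨k, hy⟩⟩

/-- The enumeration of the domain of a code: stage `t = ⟨x, s⟩` enumerates `x` if the computation
on `x` first halts after `s + 1` steps. -/
def enumG (c : Code) (t : ℕ) : Option ℕ :=
  bif (evaln (t.unpair.2 + 1) c t.unpair.1).isSome && !(evaln t.unpair.2 c t.unpair.1).isSome then
    some t.unpair.1 else none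

theorem enumG_eq_some {c : Code} {t x : ℕ} : enumG c t = some x ↔
    t.unpair.1 = x ∧ (evaln (t.unpair.2 + 1) c x).isSome = true ∧
      (evaln t.unpair.2 c x).isSome = false := by
  unfold enumG
  cases h1 : (evaln (t.unpair.2 + 1) c t.unpair.1).isSome <;>
  cases h2 : (evaln t.unpair.2 c t.unpair.1).isSome
  · simp only [Bool.false_and, cond_false, reduceCtorEq, false_iff, not_and]
    intro h; subst h; simp [h1]
  · simp only [Bool.false_and, cond_false, reduceCtorEq, false_iff, not_and]
    intro h; subst h; simp [h1]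
  · simp only [Bool.not_false, Bool.and_self, cond_true, Option.some.injEq]
    constructor
    · intro h; subst h; exact ⟨rfl, h1, h2⟩
    · exact fun h => h.1
  · simp only [Bool.not_true, Bool.and_false, cond_false, reduceCtorEq, false_iff, not_and]
    intro h; subst h; simp [h2]

theorem isSome_mono {c : Code} {k l x : ℕ} (h : k ≤ l) (hk : (evaln k c x).isSome = true) :
    (evaln l c x).isSome = true := by
  obtain ⟨y, hy⟩ := Option.isSome_iff_exists.1 hk
  exact Option.isSome_iff_exists.2 ⟨y, evaln_mono h hy⟩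

theorem enumG_inj {c : Code} {s t x : ℕ} (hs : enumG c s = some x) (ht : enumG c t = some x) :
    s = t := by
  rw [enumG_eq_some] at hs ht
  have h1 : s.unpair.2 = t.unpair.2 := by
    rcases lt_trichotomy s.unpair.2 t.unpair.2 with h | h | h
    · have := isSome_mono (Nat.succ_le_of_lt h) hs.2.1
      rw [ht.2.2] at this; cases this
    · exact h
    · have := isSome_mono (Nat.succ_le_of_lt h) ht.2.1
      rw [hs.2.2] at this; cases this
  rw [← Nat.pair_unpair s, ← Nat.pair_unpair t, h1, hs.1, ht.1]

theorem enumG_range {c : Code} {x : ℕ} :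
    (∃ k, (evaln k c x).isSome = true) ↔ ∃ t, enumG c t = some x := by
  classical
  constructor
  · intro h
    have h1 := Nat.find_spec h
    cases hk : Nat.find h with
    | zero => rw [hk] at h1; simp [evaln] at h1
    | succ n =>
      rw [hk] at h1
      have h2 : ¬ (evaln n c x).isSome = true := Nat.find_min h (by omega)
      refine ⟨Nat.pair x n, enumG_eq_some.2 ?_⟩
      simp only [Nat.unpair_pair, true_and]
      exact ⟨h1, by simpa using h2⟩
  · rintro ⟨t, ht⟩
    exact ⟨_, (enumG_eq_some.1 ht).2.1⟩

theorem primrec_enumG (c : Code) : Primrec (enumG c) := by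
  unfold enumG
  have e1 : Primrec fun t : ℕ => (evaln (t.unpair.2 + 1) c t.unpair.1).isSome := by
    refine Primrec.option_isSome.comp (primrec_evaln.comp (Primrec.pair (Primrec.pair ?_
      (Primrec.const c)) ?_))
    · exact Primrec.succ.comp (Primrec.snd.comp Primrec.unpair)
    · exact Primrec.fst.comp Primrec.unpair
  have e2 : Primrec fun t : ℕ => (evaln t.unpair.2 c t.unpair.1).isSome := by
    refine Primrec.option_isSome.comp (primrec_evaln.comp (Primrec.pair (Primrec.pair ?_
      (Primrec.const c)) ?_))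
    · exact Primrec.snd.comp Primrec.unpair
    · exact Primrec.fst.comp Primrec.unpair
  exact Primrec.cond (Primrec.and.comp e1 (Primrec.not.comp e2))
    (Primrec.option_some.comp (Primrec.fst.comp Primrec.unpair)) (Primrec.const none)

/-- The set of numbers enumerated before stage `s`. -/
def Es (g : ℕ → Option ℕ) (s : ℕ) : Set ℕ := {x | ∃ t < s, g t = some x}

/-- The initial segment of length `u` of the characteristic function of `Es g s`. -/
def estr (g : ℕ → Option ℕ) (s u : ℕ) : List Bool :=
  (List.range u).map fun i => (List.range s).any fun t => decide (g t = some i)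

theorem estr_eq (g : ℕ → Option ℕ) (s u : ℕ) : estr g s u = pre (Es g s) u := by
  classical
  unfold estr pre
  apply List.map_congr_left
  intro i _
  by_cases h : i ∈ Es g s
  · obtain ⟨t, h1, h2⟩ := h
    have h' : i ∈ Es g s := ⟨t, h1, h2⟩
    simp only [h', decide_true]
    rw [List.any_eq_true]
    exact ⟨t, List.mem_range.2 h1, by simpa using h2⟩
  · simp only [h, decide_false]
    rw [List.any_eq_false]
    intro t ht hh
    exact h ⟨t, List.mem_range.1 ht, by simpa using hh⟩

theorem primrec_estr {g : ℕ → Option ℕ} (hg : Primrec g) :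
    Primrec fun p : ℕ × ℕ => estr g p.1 p.2 := by
  unfold estr
  refine Primrec.list_map (Primrec.list_range.comp Primrec.snd) ?_
  refine primrec_any (Primrec.list_range.comp (Primrec.fst.comp Primrec.fst)) ?_
  exact (Primrec.eq.decide).comp (hg.comp Primrec.snd)
    (Primrec.option_some.comp (Primrec.snd.comp Primrec.fst))

/-- The candidate computation at stage `s`. -/
def cand (g : ℕ → Option ℕ) (cJ : Code) (m s : ℕ) : Option (ℕ × ℕ) :=
  ((List.range (s + 1)).filterMap fun u =>
    (look cJ (estr g (s + 1) u) m).map fun v => (v, u)).head?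

/-- The approximation at stage `s`. -/
def capp (g : ℕ → Option ℕ) (cJ : Code) (m s : ℕ) : Option (ℕ × ℕ) :=
  (cand g cJ m s).bind fun p =>
    bif ((g s).map fun x => decide (p.2 ≤ x)).getD true then some p else none

theorem primrec_capp {g : ℕ → Option ℕ} (hg : Primrec g) (cJ : Code) :
    Primrec fun p : ℕ × ℕ => capp g cJ p.1 p.2 := by
  have h1 : Primrec fun p : ℕ × ℕ => cand g cJ p.1 p.2 := by
    unfold cand
    refine Primrec.list_head?.comp (Primrec.listFilterMap
      (Primrec.list_range.comp (Primrec.succ.comp Primrec.snd)) ?_)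
    refine Primrec.option_map ?_ ?_
    · refine primrec_look.comp (Primrec.pair (Primrec.const cJ) (Primrec.pair ?_ ?_))
      · exact (primrec_estr hg).comp (Primrec.pair (Primrec.succ.comp
          (Primrec.snd.comp Primrec.fst)) Primrec.snd)
      · exact Primrec.fst.comp Primrec.fst
    · exact Primrec.pair Primrec.snd (Primrec.snd.comp Primrec.fst)
  unfold capp
  refine Primrec.option_bind h1 ?_
  refine Primrec.cond ?_ (Primrec.option_some.comp Primrec.snd) (Primrec.const none)
  refine Primrec.option_getD.comp ?_ (Primrec.const true)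
  refine Primrec.option_map (hg.comp (Primrec.snd.comp Primrec.fst)) ?_
  exact (Primrec.nat_le.decide).comp (Primrec.snd.comp (Primrec.snd.comp Primrec.fst)) Primrec.snd

theorem capp_eq_some {g : ℕ → Option ℕ} {cJ : Code} {m s v u : ℕ} :
    capp g cJ m s = some (v, u) ↔ u ≤ s ∧ look cJ (pre (Es g (s + 1)) u) m = some v ∧
      (∀ u' < u, look cJ (pre (Es g (s + 1)) u') m = none) ∧ ∀ x, g s = some x → u ≤ x := by
  have h1 : cand g cJ m s = some (v, u) ↔ u ≤ s ∧ look cJ (pre (Es g (s + 1)) u) m = some v ∧
      (∀ u' < u, look cJ (pre (Es g (s + 1)) u') m = none) := by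
    unfold cand
    rw [head?_filterMap_range]
    constructor
    · rintro ⟨u1, hu1, h2, h3⟩
      rw [Option.map_eq_some_iff] at h2
      obtain ⟨v1, h2, h4⟩ := h2
      have h5 := (Prod.mk.inj h4).1
      have h6 := (Prod.mk.inj h4).2
      subst h5; subst h6
      refine ⟨by omega, by rw [← estr_eq]; exact h2, fun u' hu' => ?_⟩
      have := h3 u' hu'
      rw [Option.map_eq_none_iff, estr_eq] at this
      exact this
    · rintro ⟨h2, h3, h4⟩
      refine ⟨u, by omega, ?_, fun u' hu' => ?_⟩
      · rw [estr_eq, h3]; rfl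
      · rw [estr_eq, h4 u' hu']; rfl
  unfold capp
  rw [Option.bind_eq_some_iff]
  constructor
  · rintro ⟨p, hp, h2⟩
    have hpp : p = (v, u) := by
      revert h2
      cases (((g s).map fun x => decide (p.2 ≤ x)).getD true) <;> simp
    subst hpp
    obtain ⟨a1, a2, a3⟩ := h1.1 hp
    refine ⟨a1, a2, a3, fun x hx => ?_⟩
    rw [hx] at h2
    by_contra hcon
    simp [hcon] at h2
  · rintro ⟨a1, a2, a3, a4⟩
    refine ⟨(v, u), h1.2 ⟨a1, a2, a3⟩, ?_⟩
    cases hg : g s with
    | none => simp
    | some x => simp [a4 x hg]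

theorem exists_approx {E : Set ℕ} {f : ℕ →. ℕ} (hE : REPred fun x => x ∈ E)
    (hf : Nat.RecursiveIn {chi E} f) : Nonempty (Approx E f) := by
  classical
  obtain ⟨cE, hcE⟩ := exists_code_re hE
  obtain ⟨cJ, hcJ⟩ := exists_codes hf
  have hrange : ∀ x, x ∈ E ↔ ∃ s, enumG cE s = some x := fun x => (hcE x).trans enumG_range
  -- agreement of the enumeration with `E`
  have hagree : ∀ s u, (∀ t > s, ∀ x, enumG cE t = some x → u ≤ x) →
      pre (Es (enumG cE) (s + 1)) u = pre E u := by
    intro s u h
    apply pre_congr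
    intro i hi
    constructor
    · rintro ⟨t, -, ht⟩; exact (hrange i).2 ⟨t, ht⟩
    · intro hi'
      obtain ⟨t, ht⟩ := (hrange i).1 hi'
      refine ⟨t, ?_, ht⟩
      by_contra hcon
      have := h t (by omega) i ht
      omega
  refine ⟨⟨enumG cE, capp (enumG cE) cJ, (primrec_enumG cE).to_comp,
    (primrec_capp (primrec_enumG cE) cJ).to_comp, fun s t x hs ht => enumG_inj hs ht,
    hrange, ?_, ?_, ?_, ?_⟩⟩
  · intro m s v u h
    obtain ⟨a1, -, -, a4⟩ := capp_eq_some.1 h
    exact ⟨a1, a4⟩
  · intro m s v u h hx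
    obtain ⟨a1, a2, a3, a4⟩ := capp_eq_some.1 h
    have heq : ∀ u' ≤ u, pre (Es (enumG cE) (s + 1 + 1)) u' = pre (Es (enumG cE) (s + 1)) u' := by
      intro u' hu'
      apply pre_congr
      intro i hi
      constructor
      · rintro ⟨t, h1, h2⟩
        rcases Nat.lt_succ_iff_lt_or_eq.1 h1 with h1 | h1
        · exact ⟨t, h1, h2⟩
        · subst h1
          have := hx i h2
          omega
      · rintro ⟨t, h1, h2⟩; exact ⟨t, by omega, h2⟩
    refine capp_eq_some.2 ⟨by omega, ?_, fun u' hu' => ?_, hx⟩
    · rw [heq u le_rfl]; exact a2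
    · rw [heq u' hu'.le]; exact a3 u' hu'
  · intro m v hv
    obtain ⟨l, hl⟩ := hcJ.look_complete hv
    have hex : ∃ u, ∃ v', look cJ (pre E u) m = some v' := ⟨l, v, hl⟩
    obtain ⟨v', hv'⟩ := Nat.find_spec hex
    have hvv : v' = v := Part.mem_unique (hcJ.look_sound hv') hv
    rw [hvv] at hv'
    set u := Nat.find hex with hu
    -- the stage by which all numbers below `u` have been enumerated
    have hst : ∀ j, ∃ s0, ∀ x < j, x ∈ E → ∃ t < s0, enumG cE t = some x := by
      intro j
      induction j with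
      | zero => exact ⟨0, fun x hx => absurd hx (Nat.not_lt_zero _)⟩
      | succ j ih =>
        obtain ⟨s0, h0⟩ := ih
        by_cases hj : j ∈ E
        · obtain ⟨t, ht⟩ := (hrange j).1 hj
          refine ⟨max s0 (t + 1), fun x hx hxE => ?_⟩
          rcases Nat.lt_succ_iff_lt_or_eq.1 hx with hx | hx
          · obtain ⟨t', h1, h2⟩ := h0 x hx hxE
            exact ⟨t', by omega, h2⟩
          · subst hx; exact ⟨t, by omega, ht⟩
        · refine ⟨s0, fun x hx hxE => ?_⟩
          rcases Nat.lt_succ_iff_lt_or_eq.1 hx with hx | hx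
          · exact h0 x hx hxE
          · subst hx; exact absurd hxE hj
    obtain ⟨s0, h0⟩ := hst u
    refine ⟨max s0 u, u, fun s hs => ?_⟩
    have hlate : ∀ t ≥ s0, ∀ x, enumG cE t = some x → u ≤ x := by
      intro t ht x hx
      by_contra hcon
      obtain ⟨t', h1, h2⟩ := h0 x (not_le.1 hcon) ((hrange x).2 ⟨t, hx⟩)
      have := enumG_inj hx h2
      omega
    have hEs : ∀ u' ≤ u, pre (Es (enumG cE) (s + 1)) u' = pre E u' := by
      intro u' hu'
      apply hagree
      intro t ht x hx
      have := hlate t (by omega) x hx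
      omega
    refine capp_eq_some.2 ⟨by omega, ?_, fun u' hu' => ?_, hlate s (by omega)⟩
    · rw [hEs u le_rfl]; exact hv'
    · rw [hEs u' hu'.le]
      have := Nat.find_min hex hu'
      push Not at this
      cases hh : look cJ (pre E u') m with
      | none => rfl
      | some z => exact absurd hh (this z)
  · intro m s v u h hx
    obtain ⟨a1, a2, a3, a4⟩ := capp_eq_some.1 h
    rw [hagree s u hx] at a2
    exact hcJ.look_sound a2

end Pool.Agent.SJT
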