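import Mathlib.Computability.RecursiveIn
import Mathlib.Computability.TuringDegree
import Mathlib.Computability.RE

/-!
# SJT reducibility: the basic definitions

Everything is stated with Mathlib's notion of relative computability `RecursiveIn`.
-/

namespace Pool.Agent.SJT

open scoped Classical in
/-- The characteristic function of a set `X` of natural numbers, used as an oracle. -/
noncomputable def chi (X : Set ℕ) : ℕ →. ℕ := fun n => Part.some (if n ∈ X then 1 else 0)

/-- A predicate is computably enumerable relative to `X` if it is the domain of a function that is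
recursive in (the characteristic function of) `X`. -/
def REIn {α : Type*} [Primcodable α] (X : Set ℕ) (p : α → Prop) : Prop :=
  RecursiveIn {chi X} fun a => Part.assert (p a) fun _ => Part.some ()

/-- An order function: computable, nondecreasing, unbounded, with positive values. -/
structure IsOrder (h : ℕ → ℕ) : Prop where
  computable : Computable h
  mono : Monotone h
  unbounded : ∀ b, ∃ n, b ≤ h n
  pos : ∀ n, 0 < h n

/-- `J` is a universal jump: `J X` is an `X`-recursive function (with possibly undefined values),
and every `X`-recursive `f` is `J X ∘ g` for some computable `g`. -/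
structure IsUniversalJump (J : Set ℕ → ℕ →. ℕ) : Prop where
  recursive : ∀ X, RecursiveIn {chi X} (J X)
  universal : ∀ (X : Set ℕ) (f : ℕ →. ℕ), RecursiveIn {chi X} f →
    ∃ g : ℕ → ℕ, Computable g ∧ ∀ n, f n = J X (g n)

/-- `T` is an `h`-bounded `B`-c.e. trace for the function `f`. -/
structure IsTrace (B : Set ℕ) (h : ℕ → ℕ) (f : ℕ →. ℕ) (T : ℕ → Finset ℕ) : Prop where
  bounded : ∀ n, (T n).card ≤ h n
  ce : REIn B fun p : ℕ × ℕ => p.2 ∈ T p.1
  traces : ∀ n v, v ∈ f n → v ∈ T n

/-- SJT reducibility `A ≤_SJT B`, with respect to the jump `J`. -/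
def SJTReducible (J : Set ℕ → ℕ →. ℕ) (A B : Set ℕ) : Prop :=
  ∀ h : ℕ → ℕ, IsOrder h → ∃ T : ℕ → Finset ℕ, IsTrace B h (J A) T

end Pool.Agent.SJT
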