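import Pool.Agent.Lib.MP_377195_lc.Search

/-!
# Codes for oracle computations, and the existence of a universal jump
-/

namespace Pool.Agent.SJT

open Encodable
open Nat.Partrec (Code)
open Nat.Partrec.Code

/-- Look for a computation of code `c` on input `n` which uses an initial segment of `σ`, running
`σ.length` many steps. -/
def look (c : Code) (σ : List Bool) (n : ℕ) : Option ℕ :=
  ((List.range (σ.length + 1)).filterMap fun l =>
    evaln σ.length c (encode (σ.take l, n))).head?

theorem look_some {c : Code} {σ : List Bool} {n y : ℕ} (h : look c σ n = some y) :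
    ∃ l ≤ σ.length, y ∈ evaln σ.length c (encode (σ.take l, n)) := by
  unfold look at h
  have := List.mem_of_head? h
  rw [List.mem_filterMap] at this
  obtain ⟨l, hl, hy⟩ := this
  exact ⟨l, Nat.lt_succ_iff.1 (List.mem_range.1 hl), hy⟩

theorem look_isSome {c : Code} {σ : List Bool} {n l y : ℕ} (hl : l ≤ σ.length)
    (h : y ∈ evaln σ.length c (encode (σ.take l, n))) : ∃ z, look c σ n = some z := by
  unfold look
  have : y ∈ ((List.range (σ.length + 1)).filterMap fun l =>
    evaln σ.length c (encode (σ.take l, n))) := by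
    rw [List.mem_filterMap]
    exact ⟨l, List.mem_range.2 (Nat.lt_succ_iff.2 hl), h⟩
  cases h' : ((List.range (σ.length + 1)).filterMap fun l =>
    evaln σ.length c (encode (σ.take l, n))) with
  | nil => rw [h'] at this; cases this
  | cons z t => exact ⟨z, rfl⟩

theorem primrec_look : Primrec fun p : Code × List Bool × ℕ => look p.1 p.2.1 p.2.2 := by
  unfold look
  refine Primrec.list_head?.comp ?_
  refine Primrec.listFilterMap (Primrec.list_range.comp (Primrec.succ.comp
    (Primrec.list_length.comp (Primrec.fst.comp Primrec.snd)))) ?_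
  have h1 : Primrec fun q : (Code × List Bool × ℕ) × ℕ =>
      ((q.1.2.1.length, q.1.1), encode (q.1.2.1.take q.2, q.1.2.2)) := by
    refine Primrec.pair (Primrec.pair ?_ ?_) (Primrec.encode.comp (Primrec.pair ?_ ?_))
    · exact Primrec.list_length.comp (Primrec.fst.comp (Primrec.snd.comp Primrec.fst))
    · exact Primrec.fst.comp Primrec.fst
    · exact Primrec.list_take.comp Primrec.snd
        (Primrec.fst.comp (Primrec.snd.comp Primrec.fst))
    · exact Primrec.snd.comp (Primrec.snd.comp Primrec.fst)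
  exact primrec_evaln.comp h1

/-- The code `c` computes `f` from the oracle `X`. -/
def Codes (c : Code) (X : Set ℕ) (f : ℕ →. ℕ) : Prop :=
  ∀ n y, y ∈ f n ↔ ∃ l k, y ∈ evaln k c (encode (pre X l, n))

theorem exists_codes {X : Set ℕ} {f : ℕ →. ℕ} (hf : Nat.RecursiveIn {chi X} f) :
    ∃ c : Code, Codes c X f := by
  obtain ⟨F, p, -, h⟩ := exists_functional hf
  obtain ⟨c, hc⟩ := exists_code.1 p
  refine ⟨c, fun n y => ?_⟩
  rw [h n y]
  refine exists_congr fun l => ?_
  rw [← evaln_complete, hc]
  simp [Part.map_id']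

theorem Codes.look_sound {c : Code} {X : Set ℕ} {f : ℕ →. ℕ} (h : Codes c X f) {l n y : ℕ}
    (hy : look c (pre X l) n = some y) : y ∈ f n := by
  obtain ⟨l', hl', h'⟩ := look_some hy
  rw [take_pre] at h'
  exact (h _ _).2 ⟨_, _, h'⟩

theorem Codes.look_complete {c : Code} {X : Set ℕ} {f : ℕ →. ℕ} (h : Codes c X f) {n y : ℕ}
    (hy : y ∈ f n) : ∃ l, look c (pre X l) n = some y := by
  obtain ⟨l, k, h'⟩ := (h _ _).1 hy
  have h1 : y ∈ evaln (pre X (max l k)).length c (encode ((pre X (max l k)).take l, n)) := by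
    rw [take_pre, min_eq_left (le_max_left _ _), length_pre]
    exact evaln_mono (le_max_right _ _) h'
  obtain ⟨z, hz⟩ := look_isSome (by simp) h1
  refine ⟨max l k, ?_⟩
  rw [hz, Part.mem_unique (h.look_sound hz) hy]

theorem Codes.mem_iff_look {c : Code} {X : Set ℕ} {f : ℕ →. ℕ} (h : Codes c X f) {n y : ℕ} :
    y ∈ f n ↔ ∃ l, look c (pre X l) n = some y :=
  ⟨h.look_complete, fun ⟨_, hl⟩ => h.look_sound hl⟩

theorem Codes.eq_search {c : Code} {X : Set ℕ} {f : ℕ →. ℕ} (h : Codes c X f) (n : ℕ) :
    f n = Nat.rfindOpt fun l => look c (pre X l) n := by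
  apply Part.ext
  intro y
  constructor
  · intro hy
    obtain ⟨l, hl⟩ := h.look_complete hy
    have hd : (Nat.rfindOpt fun l => look c (pre X l) n).Dom := Nat.rfindOpt_dom.2 ⟨l, y, hl⟩
    obtain ⟨l', hl'⟩ := Nat.rfindOpt_spec (Part.get_mem hd)
    have := Part.mem_unique (h.look_sound hl') hy
    rw [← this]
    exact Part.get_mem hd
  · intro hy
    obtain ⟨l, hl⟩ := Nat.rfindOpt_spec hy
    exact h.look_sound hl

/-- There is a universal jump. -/
theorem exists_universalJump : ∃ J : Set ℕ → ℕ →. ℕ, IsUniversalJump J := by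
  let G : ℕ → List Bool → Option ℕ := fun q σ => look (Denumerable.ofNat Code q.unpair.1) σ
    q.unpair.2
  have hG : Computable₂ G := by
    have : Primrec fun p : ℕ × List Bool =>
        ((Denumerable.ofNat Code p.1.unpair.1), p.2, p.1.unpair.2) := by
      refine Primrec.pair ?_ (Primrec.pair ?_ ?_)
      · exact (Primrec.ofNat Code).comp (Primrec.fst.comp (Primrec.unpair.comp Primrec.fst))
      · exact Primrec.snd
      · exact Primrec.snd.comp (Primrec.unpair.comp Primrec.fst)
    exact (primrec_look.comp this).to_comp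
  refine ⟨fun X n => Nat.rfindOpt fun l => G n (pre X l), ⟨fun X => ?_, fun X f hf => ?_⟩⟩
  · exact RecursiveIn.iff_nat.2 (natRec_search hG X)
  · obtain ⟨c, hc⟩ := exists_codes (RecursiveIn.iff_nat.1 hf)
    refine ⟨fun n => Nat.pair (encode c) n,
      (Primrec₂.natPair.comp (Primrec.const _) Primrec.id).to_comp, fun n => ?_⟩
    rw [hc.eq_search n]
    simp [G]

/-- A predicate which is c.e. in `X` has a code. -/
theorem exists_code_reIn {X : Set ℕ} {p : ℕ × ℕ → Prop} (hp : REIn X p) :
    ∃ c : Code, ∀ a b, p (a, b) ↔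
      ∃ l k, (evaln k c (encode (pre X l, Nat.pair a b))).isSome = true := by
  obtain ⟨c, hc⟩ := exists_codes hp
  refine ⟨c, fun a b => ?_⟩
  have h1 : p (a, b) ↔ ∃ y, y ∈ (Part.bind (decode (α := ℕ × ℕ) (Nat.pair a b)) fun a =>
      (Part.assert (p a) fun _ => Part.some ()).map encode : Part ℕ) := by
    simp
  rw [h1]
  constructor
  · rintro ⟨y, hy⟩
    obtain ⟨l, k, h⟩ := (hc _ _).1 hy
    exact ⟨l, k, by rw [Option.mem_def.1 h]; rfl⟩
  · rintro ⟨l, k, h⟩
    obtain ⟨y, hy⟩ := Option.isSome_iff_exists.1 h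
    exact ⟨y, (hc _ _).2 ⟨l, k, hy⟩⟩

end Pool.Agent.SJT
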