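import Pool.Agent.Lib.MP_377195_lc.Step

/-!
# The computable construction obeys the rules
-/

namespace Pool.Agent.SJT

open Encodable
open Nat.Partrec (Code)
open Nat.Partrec.Code

variable {E : Set ℕ} {f : ℕ →. ℕ} {ap : Approx E f} {h : ℕ → ℕ}

/-- Invariants of the state before stage `s`. -/
structure Inv (s : ℕ) (σ : St) : Prop where
  sorted : σ.1.Pairwise fun a b => a.1 < b.1
  lt : ∀ w ∈ σ.1, w.1 < s
  nodup : σ.2.2.1.Nodup
  mlt : ∀ a ∈ σ.2.1, a.m < s

theorem hitB_iff {s : ℕ} {a : Mkr} : hitB (env ap h s) a = true ↔ Hit ap s a := by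
  unfold hitB Hit env inp Env.x
  simp only
  cases hg : ap.g s with
  | none => simp
  | some x => simp

theorem mem_hitsL {s : ℕ} {a : Mkr} :
    a ∈ hitsL (env ap h s) ↔ a ∈ (preOf ap h).M s ∧ Hit ap s a := by
  unfold hitsL
  rw [List.mem_filter, hitB_iff]
  simp [preOf, env]

theorem mem_V1 {s : ℕ} {w : Ver} : w ∈ V1 (env ap h s) ↔ w ∈ (preOf ap h).V' ap s := by
  classical
  unfold V1 Pre.V'
  rw [List.mem_filter, Finset.mem_filter, List.all_eq_true]
  simp only [mem_hitsL, decide_eq_true_eq]
  simp [preOf, env]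

theorem mem_M1 {s : ℕ} {a : Mkr} : a ∈ M1 (env ap h s) ↔ a ∈ (preOf ap h).M' ap s := by
  classical
  unfold M1 Pre.M'
  rw [List.mem_filter, Finset.mem_filter, Bool.and_eq_true, List.all_eq_true,
    Bool.not_eq_true', ← Bool.not_eq_true, hitB_iff]
  simp only [mem_hitsL, decide_eq_true_eq]
  simp [preOf, env]

theorem curB_iff {s : ℕ} {w : Ver} : curB (env ap h s) w = true ↔
    ∀ a ∈ (preOf ap h).M' ap s, ¬ (a.k < w.1 ∧ w.1 < a.d) := by
  unfold curB
  rw [List.all_eq_true]
  constructor
  · intro h1 a ha hc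
    have := h1 a (mem_M1.2 ha)
    simp [hc.1, hc.2] at this
  · intro h1 a ha
    have := h1 a (mem_M1.1 ha)
    by_contra hcon
    simp only [Bool.not_eq_true', Bool.and_eq_false_iff, decide_eq_false_iff_not, not_or,
      not_not] at hcon
    exact this hcon

theorem mem_curL {s : ℕ} {w : Ver} : w ∈ curL (env ap h s) ↔ (preOf ap h).Cur ap s w := by
  unfold curL Pre.Cur
  rw [List.mem_filter, mem_V1, curB_iff]

theorem state_C (s : ℕ) : (state ap h (s + 1)).2.2.2 = C1 (env ap h s) := by
  show (stepF (env ap h s)).2.2.2 = _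
  unfold stepF
  cases firstAct (env ap h s) with
  | none => rfl
  | some p =>
    obtain ⟨b, a⟩ := p
    cases b <;> rfl

theorem C_succ_iff {s l d : ℕ} : (l, d) ∈ (preOf ap h).C (s + 1) ↔
    (∃ a ∈ (preOf ap h).M s, Hit ap s a ∧ a.lev = l ∧ a.d = d) ∨ (l, d) ∈ (preOf ap h).C s := by
  have h1 : (l, d) ∈ (preOf ap h).C (s + 1) ↔ (l, d) ∈ C1 (env ap h s) := by
    show (l, d) ∈ ((state ap h (s + 1)).2.2.2).toFinset ↔ _
    rw [state_C, List.mem_toFinset]
  rw [h1]
  unfold C1
  rw [List.mem_append, List.mem_map]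
  apply or_congr
  · constructor
    · rintro ⟨a, ha, hal⟩
      have := mem_hitsL.1 ha
      exact ⟨a, this.1, this.2, (Prod.mk.inj hal).1, (Prod.mk.inj hal).2⟩
    · rintro ⟨a, ha, hh, hl, hd⟩
      exact ⟨a, mem_hitsL.2 ⟨ha, hh⟩, by rw [hl, hd]⟩
  · simp [preOf, env]

theorem ostr_eq (s lev : ℕ) :
    ostr (env ap h s) lev = pre ((preOf ap h).Oth s lev) s := by
  classical
  unfold ostr pre
  show (List.range s).map _ = _
  apply List.map_congr_left
  intro d _
  have h1 : ((C1 (env ap h s)).any fun c => decide (c.2 = d) && !decide (c.1 % 2 = lev % 2)) = true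
      ↔ d ∈ (preOf ap h).Oth s lev := by
    rw [List.any_eq_true]
    unfold Pre.Oth
    have h2 : ∀ l d, (l, d) ∈ (preOf ap h).C (s + 1) ↔ (l, d) ∈ C1 (env ap h s) := by
      intro l d
      show (l, d) ∈ ((state ap h (s + 1)).2.2.2).toFinset ↔ _
      rw [state_C, List.mem_toFinset]
    constructor
    · rintro ⟨⟨l, d'⟩, hc, hd⟩
      simp only [Bool.and_eq_true, decide_eq_true_eq, Bool.not_eq_true',
        decide_eq_false_iff_not] at hd
      refine ⟨l, ?_, hd.2⟩
      rw [h2, ← hd.1]; exact hc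
    · rintro ⟨l, hl, hne⟩
      refine ⟨(l, d), (h2 l d).1 hl, ?_⟩
      simp [hne]
  by_cases h3 : d ∈ (preOf ap h).Oth s lev
  · simp only [h3, decide_true]
    exact h1.2 h3
  · simp only [h3, decide_false]
    rw [← Bool.not_eq_true]
    exact fun h4 => h3 (h1.1 h4)

theorem tcB_iff {s : ℕ} {a : Mkr} : tcB (env ap h s) a = true ↔ (preOf ap h).TC s a := by
  unfold tcB Pre.TC
  rw [List.any_eq_true]
  constructor
  · rintro ⟨l, hl, h1⟩
    have hl' : l ≤ s := Nat.lt_succ_iff.1 (List.mem_range.1 hl)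
    refine ⟨l, hl', ?_⟩
    rw [ostr_eq, take_pre, min_eq_left hl'] at h1
    exact h1
  · rintro ⟨l, hl, h1⟩
    refine ⟨l, List.mem_range.2 (Nat.lt_succ_iff.2 hl), ?_⟩
    rw [ostr_eq, take_pre, min_eq_left hl]
    exact h1

theorem inT_iff {s : ℕ} {c : ℕ × ℕ × ℕ} : inT (env ap h s) c = true ↔
    c ∈ (preOf ap h).S s := by
  unfold inT
  rw [List.any_eq_true]
  simp only [preOf, env, List.mem_toFinset, decide_eq_true_eq]
  constructor
  · rintro ⟨b, hb, rfl⟩; exact hb
  · intro hc; exact ⟨c, hc, rfl⟩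

theorem cntL_eq {s : ℕ} (hI : Inv s (state ap h s)) (k m : ℕ) :
    cntL (env ap h s) (k, m) = (preOf ap h).cnt s k m := by
  classical
  unfold cntL Pre.cnt
  have h1 : ((preOf ap h).S s).filter (fun e => e.1 = k ∧ e.2.1 = m) =
      ((state ap h s).2.2.1.filter fun c => decide (c.1 = k) && decide (c.2.1 = m)).toFinset := by
    ext c
    simp [preOf]
  rw [h1, List.toFinset_card_of_nodup (hI.nodup.filter _)]
  rfl

theorem hl_eq {s m : ℕ} (hm : m < s) : ((env ap h s).hl[m]?).getD 0 = h m := by
  show (((List.range s).map h)[m]?).getD 0 = h m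
  rw [List.getElem?_map, List.getElem?_range hm]
  rfl

theorem cl_eq {s m : ℕ} (hm : m < s) : ((env ap h s).cl[m]?).getD none = ap.c m s := by
  show (((List.range s).map fun m => ap.c m s)[m]?).getD none = ap.c m s
  rw [List.getElem?_map, List.getElem?_range hm]
  rfl

theorem wAB_iff {s : ℕ} (hI : Inv s (state ap h s)) {w : Ver} {a : Mkr}
    (ha : a ∈ M1 (env ap h s)) : wAB (env ap h s) w a = true ↔
      (preOf ap h).WishA ap h s w a := by
  have hm : a.m < s := by
    refine hI.mlt a ?_
    unfold M1 at ha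
    exact (List.mem_filter.1 ha).1
  unfold wAB Pre.WishA
  rw [Bool.and_eq_true, Bool.and_eq_true, Bool.and_eq_true, Bool.not_eq_true', ← Bool.not_eq_true,
    inT_iff, tcB_iff, cntL_eq hI, hl_eq hm, decide_eq_true_eq, decide_eq_true_eq]
  constructor
  · intro h1; exact ⟨mem_M1.1 ha, h1⟩
  · intro h1; exact h1.2

theorem wishA_some {s : ℕ} (hI : Inv s (state ap h s)) {w : Ver} {a : Mkr}
    (hw : wishA (env ap h s) w = some a) : (preOf ap h).WishA ap h s w a := by
  have h1 := List.mem_of_head? hw
  rw [List.mem_filter] at h1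
  exact (wAB_iff hI h1.1).1 h1.2

theorem wishA_none {s : ℕ} (hI : Inv s (state ap h s)) {w : Ver}
    (hw : wishA (env ap h s) w = none) (a : Mkr) : ¬ (preOf ap h).WishA ap h s w a := by
  intro ha
  have h1 : a ∈ M1 (env ap h s) := mem_M1.2 ha.1
  have h2 : a ∈ (M1 (env ap h s)).filter (wAB (env ap h s) w) :=
    List.mem_filter.2 ⟨h1, (wAB_iff hI h1).2 ha⟩
  unfold wishA at hw
  rw [List.head?_eq_none_iff] at hw
  rw [hw] at h2
  simp at h2

theorem wB0_some {s : ℕ} {w : Ver} {m : ℕ} (hm : m < s) {a : Mkr} :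
    wB0 (env ap h s) w m = some a ↔ a.d = s ∧ a.k = w.1 ∧ a.lev = w.2 ∧ a.m = m ∧ w.1 ≤ m ∧
      ap.c m s = some (a.v, a.u) ∧ (w.1, m, a.v) ∉ (preOf ap h).S s := by
  unfold wB0
  rw [cl_eq hm, Option.bind_eq_some_iff]
  constructor
  · rintro ⟨⟨v, u⟩, hc, h1⟩
    cases hb : (decide (w.1 ≤ m) && !inT (env ap h s) (w.1, m, v)) with
    | false => simp [hb] at h1
    | true =>
      simp only [hb, cond_true, Option.some.injEq] at h1
      rw [Bool.and_eq_true, Bool.not_eq_true', ← Bool.not_eq_true, inT_iff, decide_eq_true_eq] at hb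
      subst h1
      exact ⟨rfl, rfl, rfl, rfl, hb.1, hc, hb.2⟩
  · rintro ⟨h1, h2, h3, h4, h5, h6, h7⟩
    refine ⟨(a.v, a.u), h6, ?_⟩
    have hb : (decide (w.1 ≤ m) && !inT (env ap h s) (w.1, m, a.v)) = true := by
      rw [Bool.and_eq_true, Bool.not_eq_true', ← Bool.not_eq_true, inT_iff, decide_eq_true_eq]
      exact ⟨h5, h7⟩
    simp only [hb, cond_true, Option.some.injEq]
    obtain ⟨a1, a2, a3, a4, a5, a6⟩ := a
    simp only [Mkr.d, Mkr.k, Mkr.lev, Mkr.m] at h1 h2 h3 h4
    rw [h1, h2, h3, h4]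
    rfl

theorem wB0_none {s : ℕ} {w : Ver} {m : ℕ} (hm : m < s) :
    wB0 (env ap h s) w m = none ↔ (w.1 ≤ m → ∀ v u, ap.c m s = some (v, u) →
      (w.1, m, v) ∈ (preOf ap h).S s) := by
  constructor
  · intro h1 h2 v u h3
    by_contra h4
    have := (wB0_some (ap := ap) (h := h) (w := w) hm (a := (s, w.1, w.2, m, v, u))).2
      ⟨rfl, rfl, rfl, rfl, h2, h3, h4⟩
    rw [h1] at this
    cases this
  · intro h1
    cases h2 : wB0 (env ap h s) w m with
    | none => rfl
    | some a =>
      have h3 := (wB0_some hm).1 h2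
      exact absurd (h1 h3.2.2.2.2.1 _ _ h3.2.2.2.2.2.1) h3.2.2.2.2.2.2

theorem wishB_some_iff {s : ℕ} {w : Ver} {a : Mkr} :
    wishB (env ap h s) w = some a ↔ (preOf ap h).WishB ap s w a := by
  unfold wishB
  rw [Option.bind_eq_some_iff]
  have hany : ∀ a : Mkr, ((M1 (env ap h s)).any fun b => decide (b.k = a.k) && decide (b.m = a.m))
      = true ↔ ∃ b ∈ (preOf ap h).M' ap s, b.k = a.k ∧ b.m = a.m := by
    intro a
    rw [List.any_eq_true]
    constructor
    · rintro ⟨b, hb, h1⟩
      rw [Bool.and_eq_true, decide_eq_true_eq, decide_eq_true_eq] at h1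
      exact ⟨b, mem_M1.1 hb, h1⟩
    · rintro ⟨b, hb, h1⟩
      refine ⟨b, mem_M1.2 hb, ?_⟩
      rw [Bool.and_eq_true, decide_eq_true_eq, decide_eq_true_eq]
      exact h1
  have hhead : ∀ a, ((List.range (env ap h s).s).filterMap (wB0 (env ap h s) w)).head? = some a ↔
      a.d = s ∧ a.k = w.1 ∧ a.lev = w.2 ∧ a.k ≤ a.m ∧ a.m < s ∧ ap.c a.m s = some (a.v, a.u) ∧
      (a.k, a.m, a.v) ∉ (preOf ap h).S s ∧
      (∀ m < a.m, a.k ≤ m → ∀ v u, ap.c m s = some (v, u) → (a.k, m, v) ∈ (preOf ap h).S s) := by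
    intro a
    show ((List.range s).filterMap (wB0 (env ap h s) w)).head? = some a ↔ _
    rw [head?_filterMap_range]
    constructor
    · rintro ⟨m, hm, h1, h2⟩
      obtain ⟨b1, b2, b3, b4, b5, b6, b7⟩ := (wB0_some hm).1 h1
      refine ⟨b1, b2, b3, ?_, ?_, ?_, ?_, ?_⟩
      · rw [b2, b4]; exact b5
      · rw [b4]; exact hm
      · rw [b4]; exact b6
      · rw [b2, b4]; exact b7
      · rw [b2, b4]
        intro m' hm' hk v u hc
        exact (wB0_none (by omega)).1 (h2 m' hm') hk v u hc
    · rintro ⟨b1, b2, b3, b4, b5, b6, b7, b8⟩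
      refine ⟨a.m, b5, (wB0_some b5).2 ⟨b1, b2, b3, rfl, ?_, b6, ?_⟩, fun m' hm' => ?_⟩
      · rw [← b2]; exact b4
      · rw [← b2]; exact b7
      · refine (wB0_none (by omega)).2 fun hk v u hc => ?_
        rw [← b2] at hk ⊢
        exact b8 m' hm' hk v u hc
  constructor
  · rintro ⟨b, hb, h1⟩
    cases hc : ((M1 (env ap h s)).any fun c => decide (c.k = b.k) && decide (c.m = b.m)) with
    | true => rw [hc] at h1; simp at h1
    | false =>
      rw [hc] at h1
      simp only [cond_false, Option.some.injEq] at h1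
      subst h1
      have h2 := (hhead b).1 hb
      obtain ⟨b1, b2, b3, b4, b5, b6, b7, b8⟩ := h2
      refine ⟨b1, b2, b3, b4, b5, b6, b7, b8, fun c hcM hcc => ?_⟩
      rw [← Bool.not_eq_true, hany] at hc
      exact hc ⟨c, hcM, hcc⟩
  · rintro ⟨b1, b2, b3, b4, b5, b6, b7, b8, b9⟩
    refine ⟨a, (hhead a).2 ⟨b1, b2, b3, b4, b5, b6, b7, b8⟩, ?_⟩
    have hc : ((M1 (env ap h s)).any fun c => decide (c.k = a.k) && decide (c.m = a.m)) = false := by
      rw [← Bool.not_eq_true, hany]
      rintro ⟨b, hb, hbb⟩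
      exact b9 b hb hbb
    rw [hc]
    rfl

theorem wishB_none {s : ℕ} {w : Ver} (hw : wishB (env ap h s) w = none) (a : Mkr) :
    ¬ (preOf ap h).WishB ap s w a := by
  intro ha
  rw [← wishB_some_iff, hw] at ha
  cases ha

theorem actO_none {s : ℕ} (hI : Inv s (state ap h s)) {w : Ver}
    (hw : actO (env ap h s) w = none) :
    (∀ a, ¬ (preOf ap h).WishA ap h s w a) ∧ ∀ a, ¬ (preOf ap h).WishB ap s w a := by
  unfold actO at hw
  cases h1 : wishA (env ap h s) w with
  | some a => rw [h1] at hw; cases h2 : wishB (env ap h s) w <;> simp at hw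
  | none =>
    rw [h1] at hw
    cases h2 : wishB (env ap h s) w with
    | some a => rw [h2] at hw; simp at hw
    | none => exact ⟨wishA_none hI h1, wishB_none h2⟩

theorem actO_true {s : ℕ} (hI : Inv s (state ap h s)) {w : Ver} {a : Mkr}
    (hw : actO (env ap h s) w = some (true, a)) : (preOf ap h).WishA ap h s w a := by
  unfold actO at hw
  cases h1 : wishA (env ap h s) w with
  | some b =>
    rw [h1] at hw
    have : b = a := by simpa using hw
    rw [← this]
    exact wishA_some hI h1
  | none =>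
    rw [h1] at hw
    cases h2 : wishB (env ap h s) w with
    | some a => rw [h2] at hw; simp at hw
    | none => rw [h2] at hw; simp at hw

theorem actO_false {s : ℕ} (hI : Inv s (state ap h s)) {w : Ver} {a : Mkr}
    (hw : actO (env ap h s) w = some (false, a)) : (preOf ap h).WishB ap s w a ∧
      ∀ b, ¬ (preOf ap h).WishA ap h s w b := by
  unfold actO at hw
  cases h1 : wishA (env ap h s) w with
  | some b => rw [h1] at hw; simp at hw
  | none =>
    rw [h1] at hw
    cases h2 : wishB (env ap h s) w with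
    | some b =>
      rw [h2] at hw
      have : b = a := by simpa using hw
      rw [← this]
      exact ⟨wishB_some_iff.1 h2, wishA_none hI h1⟩
    | none => rw [h2] at hw; simp at hw

theorem curL_sorted {s : ℕ} (hI : Inv s (state ap h s)) :
    (curL (env ap h s)).Pairwise fun a b => a.1 < b.1 := by
  unfold curL V1
  exact (hI.sorted.filter _).filter _

theorem firstAct_some {s : ℕ} (hI : Inv s (state ap h s)) {p : Bool × Mkr}
    (hp : firstAct (env ap h s) = some p) : ∃ w, (preOf ap h).Cur ap s w ∧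
      actO (env ap h s) w = some p ∧ ∀ w', (preOf ap h).Cur ap s w' → w'.1 < w.1 →
      (∀ a, ¬ (preOf ap h).WishA ap h s w' a) ∧ ∀ a, ¬ (preOf ap h).WishB ap s w' a := by
  unfold firstAct at hp
  obtain ⟨t, ht⟩ : ∃ t, (curL (env ap h s)).filterMap (actO (env ap h s)) = p :: t := by
    cases hl : (curL (env ap h s)).filterMap (actO (env ap h s)) with
    | nil => rw [hl] at hp; simp at hp
    | cons q t => rw [hl] at hp; simp at hp; exact ⟨t, by rw [hp]⟩
  rw [List.filterMap_eq_cons_iff] at ht
  obtain ⟨l1, w, l2, hL, h1, h2, -⟩ := ht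
  have hs := curL_sorted hI
  rw [hL, List.pairwise_append] at hs
  refine ⟨w, ?_, h2, fun w' hw' hlt => ?_⟩
  · rw [← mem_curL, hL]; simp
  · apply actO_none hI
    apply h1
    rw [← mem_curL, hL] at hw'
    rcases List.mem_append.1 hw' with h3 | h3
    · exact h3
    · exfalso
      rcases List.mem_cons.1 h3 with h4 | h4
      · rw [h4] at hlt; exact lt_irrefl _ hlt
      · have := (List.pairwise_cons.1 hs.2.1).1 w' h4
        omega

theorem firstAct_none {s : ℕ} (hI : Inv s (state ap h s))
    (hp : firstAct (env ap h s) = none) : (preOf ap h).Idle ap h s := by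
  intro w hw
  apply actO_none hI
  unfold firstAct at hp
  rw [List.head?_eq_none_iff, List.filterMap_eq_nil_iff] at hp
  exact hp w (mem_curL.2 hw)

theorem inv_V1 {s : ℕ} (hI : Inv s (state ap h s)) :
    (V1 (env ap h s)).Pairwise (fun a b => a.1 < b.1) ∧ ∀ w ∈ V1 (env ap h s), w.1 < s := by
  refine ⟨hI.sorted.filter _, fun w hw => hI.lt w ?_⟩
  unfold V1 at hw
  exact (List.mem_filter.1 hw).1

theorem inv_M1 {s : ℕ} (hI : Inv s (state ap h s)) : ∀ a ∈ M1 (env ap h s), a.m < s := by
  intro a ha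
  unfold M1 at ha
  exact hI.mlt a (List.mem_filter.1 ha).1

theorem inv_all (ap : Approx E f) (h : ℕ → ℕ) (s : ℕ) : Inv s (state ap h s) := by
  induction s with
  | zero =>
    exact ⟨List.Pairwise.nil, by simp [state], by simp [state], by simp [state]⟩
  | succ s hI =>
    show Inv (s + 1) (stepF (env ap h s))
    unfold stepF
    cases hf : firstAct (env ap h s) with
    | none =>
      show Inv (s + 1) (resC (env ap h s))
      refine ⟨?_, ?_, hI.nodup, fun a ha => ?_⟩
      · show (V1 (env ap h s) ++ [(s, (curL (env ap h s)).length)]).Pairwise _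
        rw [List.pairwise_append]
        refine ⟨(inv_V1 hI).1, List.pairwise_singleton _ _, fun a ha b hb => ?_⟩
        rw [List.mem_singleton] at hb
        rw [hb]; exact (inv_V1 hI).2 a ha
      · intro w hw
        have hw' : w ∈ V1 (env ap h s) ++ [(s, (curL (env ap h s)).length)] := hw
        rcases List.mem_append.1 hw' with h1 | h1
        · have := (inv_V1 hI).2 w h1; omega
        · rw [List.mem_singleton] at h1; rw [h1]; simp
      · have := inv_M1 hI a ha; omega
    | some p =>
      obtain ⟨b, a⟩ := p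
      cases b with
      | true =>
        show Inv (s + 1) (resA (env ap h s) a)
        obtain ⟨w, hc, hw, -⟩ := firstAct_some hI hf
        have hwish := actO_true hI hw
        refine ⟨(inv_V1 hI).1.filter _, fun w hw => ?_, ?_, fun c hc => ?_⟩
        · have := (inv_V1 hI).2 w (List.mem_filter.1 hw).1; omega
        · show ((a.k, a.m, a.v) :: (state ap h s).2.2.1).Nodup
          rw [List.nodup_cons]
          refine ⟨fun hmem => hwish.2.2.1 ?_, hI.nodup⟩
          simp only [preOf, List.mem_toFinset]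
          exact hmem
        · have := inv_M1 hI c (List.mem_filter.1 hc).1; omega
      | false =>
        show Inv (s + 1) (resB (env ap h s) a)
        obtain ⟨w, hc, hw, -⟩ := firstAct_some hI hf
        have hwish := (actO_false hI hw).1
        refine ⟨(inv_V1 hI).1, fun w hw => ?_, hI.nodup, fun c hc => ?_⟩
        · have := (inv_V1 hI).2 w hw; omega
        · have hc' : c ∈ a :: M1 (env ap h s) := hc
          rcases List.mem_cons.1 hc' with h1 | h1
          · rw [h1]; have := hwish.2.2.2.2.1; omega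
          · have := inv_M1 hI c h1; omega

/-- The construction obeys the rules. -/
theorem isRun (ap : Approx E f) (h : ℕ → ℕ) : (preOf ap h).IsRun ap h := by
  classical
  refine ⟨by simp [preOf, state], by simp [preOf, state], by simp [preOf, state],
    by simp [preOf, state], fun s l d => C_succ_iff, fun s => ?_⟩
  have hI := inv_all ap h s
  cases hf : firstAct (env ap h s) with
  | none =>
    right; right
    have hst : state ap h (s + 1) = resC (env ap h s) := by
      show stepF (env ap h s) = _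
      unfold stepF
      rw [hf]
    refine ⟨firstAct_none hI hf, ?_, ?_, ?_⟩
    · ext w
      show w ∈ ((state ap h (s + 1)).1).toFinset ↔ _
      rw [hst, List.mem_toFinset]
      show w ∈ V1 (env ap h s) ++ [(s, (curL (env ap h s)).length)] ↔ _
      rw [List.mem_append, List.mem_singleton, mem_V1, Finset.mem_insert]
      have hcard : (curL (env ap h s)).length =
          (((preOf ap h).V' ap s).filter (fun w => (preOf ap h).Cur ap s w)).card := by
        have hnd : (curL (env ap h s)).Nodup :=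
          (curL_sorted hI).imp (fun hlt heq => by rw [heq] at hlt; exact lt_irrefl _ hlt)
        rw [← List.toFinset_card_of_nodup hnd]
        congr 1
        ext v
        rw [List.mem_toFinset, Finset.mem_filter, mem_curL]
        exact ⟨fun h1 => ⟨h1.1, h1⟩, fun h1 => h1.2⟩
      rw [hcard]
      exact or_comm
    · ext a
      show a ∈ ((state ap h (s + 1)).2.1).toFinset ↔ _
      rw [hst, List.mem_toFinset]
      exact mem_M1
    · ext c
      show c ∈ ((state ap h (s + 1)).2.2.1).toFinset ↔ _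
      rw [hst]
      rfl
  | some p =>
    obtain ⟨b, a⟩ := p
    cases b with
    | true =>
      left
      have hst : state ap h (s + 1) = resA (env ap h s) a := by
        show stepF (env ap h s) = _
        unfold stepF
        rw [hf]; rfl
      obtain ⟨w, hc, hw, hlow⟩ := firstAct_some hI hf
      have hwish := actO_true hI hw
      have hk : a.k = w.1 := hwish.2.1
      refine ⟨w, a, ⟨hc, hwish, hlow⟩, ?_, ?_, ?_⟩
      · ext v
        show v ∈ ((state ap h (s + 1)).1).toFinset ↔ _
        rw [hst, List.mem_toFinset]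
        show v ∈ (V1 (env ap h s)).filter (fun w => decide (w.1 ≤ a.k)) ↔ _
        rw [List.mem_filter, Finset.mem_filter, mem_V1, decide_eq_true_eq, hk]
      · ext v
        show v ∈ ((state ap h (s + 1)).2.1).toFinset ↔ _
        rw [hst, List.mem_toFinset]
        show v ∈ (M1 (env ap h s)).filter (fun b => decide (b.k ≤ a.k)) ↔ _
        rw [List.mem_filter, Finset.mem_filter, mem_M1, decide_eq_true_eq, hk]
      · ext c
        show c ∈ ((state ap h (s + 1)).2.2.1).toFinset ↔ _
        rw [hst, List.mem_toFinset]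
        show c ∈ (a.k, a.m, a.v) :: (state ap h s).2.2.1 ↔ _
        rw [List.mem_cons, Finset.mem_insert]
        simp [preOf]
    | false =>
      right; left
      have hst : state ap h (s + 1) = resB (env ap h s) a := by
        show stepF (env ap h s) = _
        unfold stepF
        rw [hf]; rfl
      obtain ⟨w, hc, hw, hlow⟩ := firstAct_some hI hf
      have hwish := actO_false hI hw
      refine ⟨w, a, ⟨hc, hwish.1, hwish.2, hlow⟩, ?_, ?_, ?_⟩
      · ext v
        show v ∈ ((state ap h (s + 1)).1).toFinset ↔ _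
        rw [hst, List.mem_toFinset]
        exact mem_V1
      · ext v
        show v ∈ ((state ap h (s + 1)).2.1).toFinset ↔ _
        rw [hst, List.mem_toFinset]
        show v ∈ a :: M1 (env ap h s) ↔ _
        rw [List.mem_cons, Finset.mem_insert, mem_M1]
      · ext c
        show c ∈ ((state ap h (s + 1)).2.2.1).toFinset ↔ _
        rw [hst]
        rfl

end Pool.Agent.SJT
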