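import Pool.Agent.Lib.MP_377195_lc.Verify5
import Pool.Agent.Lib.MP_377195_lc.RunInst
import Pool.Agent.Lib.MP_377195_lc.ApproxInst
import Mathlib.Data.Nat.Sqrt

/-!
# Assembly
-/

namespace Pool.Agent.SJT

open Encodable
open Nat.Partrec (Code)
open Nat.Partrec.Code

/-- A predicate given by unbounded search with a computable matrix is c.e. -/
theorem rePred_exists {α : Type*} [Primcodable α] {F : α → ℕ → Bool} (hF : Computable₂ F) :
    REPred fun a => ∃ s, F a s = true := by
  have h1 : Partrec fun a => Nat.rfind fun s => (Part.some (F a s) : Part Bool) :=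
    Partrec.rfind hF.partrec
  refine h1.dom_re.of_eq fun a => ?_
  refine (Nat.rfind_dom (p := fun s => (Part.some (F a s) : Part Bool))).trans ?_
  constructor
  · rintro ⟨n, hn, -⟩; exact ⟨n, by simpa using hn⟩
  · rintro ⟨s, hs⟩
    exact ⟨s, by simpa using hs, fun _ => trivial⟩

theorem REPred.reIn {α : Type*} [Primcodable α] {p : α → Prop} (hp : REPred p) (X : Set ℕ) :
    REIn X p := Partrec.recursiveIn hp

variable {E : Set ℕ} {f : ℕ →. ℕ} {ap : Approx E f} {h : ℕ → ℕ}

section

variable (ap)

theorem comp_stC (hh : Computable h) : Computable fun s => (state ap h s).2.2.2 :=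
  Computable.snd.comp (Computable.snd.comp (Computable.snd.comp (comp_state ap hh)))

theorem comp_stS (hh : Computable h) : Computable fun s => (state ap h s).2.2.1 :=
  Computable.fst.comp (Computable.snd.comp (Computable.snd.comp (comp_state ap hh)))

theorem comp_stM (hh : Computable h) : Computable fun s => (state ap h s).2.1 :=
  Computable.fst.comp (Computable.snd.comp (comp_state ap hh))

/-- The side of parity `p`. -/
def side (h : ℕ → ℕ) (p : ℕ) : Set ℕ := {d | ∃ s l, (l, d) ∈ (preOf ap h).C s ∧ l % 2 = p}

/-- `d` has been enumerated on the side of parity `p`, according to the list of pairs. -/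
def sideB (p : ℕ) (q : ℕ × List (ℕ × ℕ)) : Bool :=
  q.2.any fun c => decide (c.2 = q.1) && decide (c.1 % 2 = p)

theorem prim_sideB (p : ℕ) : Primrec (sideB p) := by
  refine primrec_any Primrec.snd ?_
  refine Primrec.and.comp ?_ ?_
  · exact (Primrec.eq.decide).comp (Primrec.snd.comp Primrec.snd)
      (Primrec.fst.comp Primrec.fst)
  · exact (Primrec.eq.decide).comp
      (Primrec.nat_mod.comp (Primrec.fst.comp Primrec.snd) (Primrec.const 2)) (Primrec.const p)

theorem sideB_iff {p d s : ℕ} : sideB p (d, (state ap h s).2.2.2) = true ↔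
    ∃ l, (l, d) ∈ (preOf ap h).C s ∧ l % 2 = p := by
  unfold sideB
  rw [List.any_eq_true]
  constructor
  · rintro ⟨⟨l, d'⟩, hc, h1⟩
    rw [Bool.and_eq_true, decide_eq_true_eq, decide_eq_true_eq] at h1
    refine ⟨l, ?_, h1.2⟩
    simp only at h1
    rw [← h1.1]
    simpa [preOf] using hc
  · rintro ⟨l, hl, h1⟩
    refine ⟨(l, d), by simpa [preOf] using hl, ?_⟩
    rw [Bool.and_eq_true, decide_eq_true_eq, decide_eq_true_eq]
    exact ⟨rfl, h1⟩

theorem side_re (hh : Computable h) (p : ℕ) : REPred fun d => d ∈ side ap h p := by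
  have h0 : Computable fun q : ℕ × ℕ => (q.1, (state ap h q.2).2.2.2) :=
    Computable.pair Computable.fst ((comp_stC ap hh).comp Computable.snd)
  have h1 : Computable₂ fun (d s : ℕ) => sideB p (d, (state ap h s).2.2.2) :=
    Computable.comp (f := sideB p) (g := fun q : ℕ × ℕ => (q.1, (state ap h q.2).2.2.2))
      (prim_sideB p).to_comp h0
  refine (rePred_exists h1).of_eq fun d => ?_
  simp only [sideB_iff]
  rfl

/-- The triple `(k, m, v)` is in the list. -/
def trB (k : ℕ) (q : (ℕ × ℕ) × List (ℕ × ℕ × ℕ)) : Bool :=
  q.2.any fun c => decide (c = (k, q.1.1, q.1.2))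

theorem prim_trB (k : ℕ) : Primrec (trB k) := by
  refine primrec_any Primrec.snd ?_
  refine (Primrec.eq.decide).comp Primrec.snd (Primrec.pair (Primrec.const k)
    (Primrec.pair ?_ ?_))
  · exact Primrec.fst.comp (Primrec.fst.comp Primrec.fst)
  · exact Primrec.snd.comp (Primrec.fst.comp Primrec.fst)

theorem S_re (hh : Computable h) (k : ℕ) :
    REPred fun p : ℕ × ℕ => ∃ s, (k, p.1, p.2) ∈ (preOf ap h).S s := by
  have h2 : Computable fun q : (ℕ × ℕ) × ℕ => (q.1, (state ap h q.2).2.2.1) :=
    Computable.pair Computable.fst ((comp_stS ap hh).comp Computable.snd)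
  have h1 : Computable₂ fun (p : ℕ × ℕ) (s : ℕ) => trB k (p, (state ap h s).2.2.1) :=
    Computable.comp (f := trB k) (g := fun q : (ℕ × ℕ) × ℕ => (q.1, (state ap h q.2).2.2.1))
      (prim_trB k).to_comp h2
  refine (rePred_exists h1).of_eq fun p => exists_congr fun s => ?_
  unfold trB
  rw [List.any_eq_true]
  simp only [preOf, List.mem_toFinset, decide_eq_true_eq]
  constructor
  · rintro ⟨c, hc, rfl⟩; exact hc
  · intro hc; exact ⟨_, hc, rfl⟩

/-- The string `σ` agrees with the list `o` of enumerated numbers below `d`. -/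
def agB (q : ℕ × List Bool × List (Option ℕ)) : Bool :=
  (decide (q.1 ≤ q.2.1.length)) && (List.range q.1).all fun x =>
    decide ((q.2.1[x]?).getD false = q.2.2.any fun o => decide (o = some x))

theorem prim_agB : Primrec agB := by
  refine Primrec.and.comp ?_ ?_
  · exact (Primrec.nat_le.decide).comp Primrec.fst
      (Primrec.list_length.comp (Primrec.fst.comp Primrec.snd))
  · refine primrec_all (Primrec.list_range.comp Primrec.fst) ?_
    refine (Primrec.eq.decide).comp ?_ ?_
    · exact Primrec.option_getD.comp (Primrec.list_getElem?.comp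
        (Primrec.fst.comp (Primrec.snd.comp Primrec.fst)) Primrec.snd) (Primrec.const false)
    · refine primrec_any (Primrec.snd.comp (Primrec.snd.comp Primrec.fst)) ?_
      exact (Primrec.eq.decide).comp Primrec.snd
        (Primrec.option_some.comp (Primrec.snd.comp Primrec.fst))

/-- The computation of a side from `E`. -/
def permG (h : ℕ → ℕ) (p : ℕ) (d : ℕ) (σ : List Bool) : Option ℕ :=
  bif agB (d, σ, (List.range σ.length).map ap.g)
  then some (bif sideB p (d, (state ap h σ.length).2.2.2) then 1 else 0) else none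

theorem comp_permG (hh : Computable h) (p : ℕ) : Computable₂ (permG ap h p) := by
  have hlen : Computable fun q : ℕ × List Bool => q.2.length :=
    Computable.list_length.comp Computable.snd
  have h0 : Computable fun q : ℕ × List Bool => (q.1, q.2, (List.range q.2.length).map ap.g) :=
    Computable.pair Computable.fst (Computable.pair Computable.snd
      (computable_map_range hlen (ap.g_comp.comp Computable.snd)))
  have h1 : Computable fun q : ℕ × List Bool =>
      agB (q.1, q.2, (List.range q.2.length).map ap.g) :=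
    Computable.comp (f := agB)
      (g := fun q : ℕ × List Bool => (q.1, q.2, (List.range q.2.length).map ap.g))
      prim_agB.to_comp h0
  have h2 : Computable fun q : ℕ × List Bool =>
      (q.1, (state ap h q.2.length).2.2.2) :=
    Computable.pair Computable.fst ((comp_stC ap hh).comp hlen)
  have h3 : Computable fun q : ℕ × List Bool =>
      sideB p (q.1, (state ap h q.2.length).2.2.2) :=
    Computable.comp (f := sideB p)
      (g := fun q : ℕ × List Bool => (q.1, (state ap h q.2.length).2.2.2))
      (prim_sideB p).to_comp h2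
  have h4 : Computable fun q : ℕ × List Bool =>
      (bif sideB p (q.1, (state ap h q.2.length).2.2.2) then 1 else 0 : ℕ) :=
    Computable.cond h3 (Computable.const 1) (Computable.const 0)
  exact Computable.cond h1 (Computable.option_some.comp h4) (Computable.const none)

theorem side_reducible (hh : Computable h) (p : ℕ) :
    RecursiveIn {chi E} (chi (side ap h p)) := by
  classical
  rw [RecursiveIn.iff_nat]
  refine (natRec_search (comp_permG ap hh p) E).of_eq fun d => ?_
  have R := isRun ap h
  -- soundness
  have hsound : ∀ l y, permG ap h p d (pre E l) = some y → y ∈ chi (side ap h p) d := by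
    intro l y hy
    unfold permG at hy
    cases hb : agB (d, pre E l, (List.range (pre E l).length).map ap.g) with
    | false => rw [hb] at hy; simp at hy
    | true =>
      rw [hb] at hy
      simp only [cond_true, Option.some.injEq] at hy
      unfold agB at hb
      rw [Bool.and_eq_true, decide_eq_true_eq, length_pre, List.all_eq_true] at hb
      have hag : ∀ x < d, x ∈ E → ∃ t < l, ap.g t = some x := by
        intro x hx hxE
        have h1 := hb.2 x (List.mem_range.2 hx)
        rw [decide_eq_true_eq] at h1
        have h2 : (pre E l)[x]? = some true := by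
          rw [getElem?_pre]; exact ⟨by omega, by simp [hxE]⟩
        rw [h2, Option.getD_some] at h1
        obtain ⟨o, ho, hox⟩ := List.any_eq_true.1 h1.symm
        rw [decide_eq_true_eq] at hox
        obtain ⟨t, ht, hto⟩ := List.mem_map.1 ho
        exact ⟨t, List.mem_range.1 ht, by rw [hto, hox]⟩
      rw [length_pre] at hy
      have hkey : (sideB p (d, (state ap h l).2.2.2) = true) ↔ d ∈ side ap h p := by
        rw [sideB_iff]
        constructor
        · rintro ⟨lev, h1, h2⟩; exact ⟨l, lev, h1, h2⟩
        · rintro ⟨s, lev, h1, h2⟩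
          obtain ⟨t, ht, a, ha, hh, hal, had⟩ := Pre.C_birth R h1
          obtain ⟨x, hx, hxu⟩ := hh
          have hu := Pre.M_use R ha
          obtain ⟨t', ht', hx'⟩ := hag x (by omega) ((ap.g_range x).2 ⟨t, hx⟩)
          have := ap.g_inj _ _ _ hx hx'
          subst this
          refine ⟨lev, ?_, h2⟩
          exact Pre.C_mono R (Nat.succ_le_of_lt ht')
            ((R.C_succ _ _ _).2 (Or.inl ⟨a, ha, ⟨x, hx, hxu⟩, hal, had⟩))
      unfold chi
      rw [Part.mem_some_iff, ← hy]
      by_cases h3 : d ∈ side ap h p
      · rw [hkey.2 h3]; simp [h3]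
      · have h4 : sideB p (d, (state ap h l).2.2.2) = false := by
          rw [← Bool.not_eq_true]; exact fun h5 => h3 (hkey.1 h5)
        rw [h4]; simp [h3]
  -- completeness
  have hcompl : ∃ l y, permG ap h p d (pre E l) = some y := by
    have hst : ∀ j, ∃ s0, ∀ x < j, x ∈ E → ∃ t < s0, ap.g t = some x := by
      intro j
      induction j with
      | zero => exact ⟨0, fun x hx => absurd hx (Nat.not_lt_zero _)⟩
      | succ j ih =>
        obtain ⟨s0, h0⟩ := ih
        by_cases hj : j ∈ E
        · obtain ⟨t, ht⟩ := (ap.g_range j).1 hj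
          refine ⟨max s0 (t + 1), fun x hx hxE => ?_⟩
          rcases Nat.lt_succ_iff_lt_or_eq.1 hx with hx | hx
          · obtain ⟨t', h1, h2⟩ := h0 x hx hxE
            exact ⟨t', by omega, h2⟩
          · subst hx; exact ⟨t, by omega, ht⟩
        · refine ⟨s0, fun x hx hxE => ?_⟩
          rcases Nat.lt_succ_iff_lt_or_eq.1 hx with hx | hx
          · exact h0 x hx hxE
          · subst hx; exact absurd hxE hj
    obtain ⟨s0, h0⟩ := hst d
    refine ⟨max s0 d, bif sideB p (d, (state ap h (pre E (max s0 d)).length).2.2.2) then 1 else 0,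
      ?_⟩
    unfold permG
    have hb : agB (d, pre E (max s0 d), (List.range (pre E (max s0 d)).length).map ap.g)
        = true := by
      unfold agB
      rw [Bool.and_eq_true, decide_eq_true_eq, length_pre, List.all_eq_true]
      refine ⟨le_max_right _ _, fun x hx => ?_⟩
      have hx' := List.mem_range.1 hx
      rw [decide_eq_true_eq]
      by_cases hxE : x ∈ E
      · have h2 : (pre E (max s0 d))[x]? = some true := by
          rw [getElem?_pre]; exact ⟨by omega, by simp [hxE]⟩
        rw [h2, Option.getD_some]
        symm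
        rw [List.any_eq_true]
        obtain ⟨t, ht, htx⟩ := h0 x hx' hxE
        exact ⟨some x, List.mem_map.2 ⟨t, List.mem_range.2 (by omega), htx⟩, by simp⟩
      · have h2 : (pre E (max s0 d))[x]? = some false := by
          rw [getElem?_pre]; exact ⟨by omega, by simp [hxE]⟩
        rw [h2, Option.getD_some]
        symm
        rw [List.any_eq_false]
        intro o ho hox
        rw [decide_eq_true_eq] at hox
        obtain ⟨t, -, hto⟩ := List.mem_map.1 ho
        exact hxE ((ap.g_range x).2 ⟨t, by rw [hto, hox]⟩)
    rw [hb]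
    rfl
  have hd : (Nat.rfindOpt fun l => permG ap h p d (pre E l)).Dom :=
    Nat.rfindOpt_dom.2 hcompl
  apply Part.ext
  intro y
  constructor
  · intro hy
    obtain ⟨l, hl⟩ := Nat.rfindOpt_spec hy
    exact hsound l y hl
  · intro hy
    obtain ⟨l, hl⟩ := Nat.rfindOpt_spec (Part.get_mem hd)
    have := Part.mem_unique (hsound l _ hl) hy
    rw [← this]
    exact Part.get_mem hd

/-- `d` is a marker for `x`, according to the list of markers. -/
def mk0 (q : (ℕ × ℕ) × List Mkr) : Bool :=
  q.2.any fun a => decide (a.d = q.1.2) && decide (Nat.pair a.k a.m = q.1.1)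

theorem prim_mk0 : Primrec mk0 := by
  refine primrec_any Primrec.snd (Primrec.and.comp ?_ ?_)
  · exact (Primrec.eq.decide).comp (Mkr.prim_d.comp Primrec.snd)
      (Primrec.snd.comp (Primrec.fst.comp Primrec.fst))
  · exact (Primrec.eq.decide).comp (Primrec₂.natPair.comp (Mkr.prim_k.comp Primrec.snd)
      (Mkr.prim_m.comp Primrec.snd)) (Primrec.fst.comp (Primrec.fst.comp Primrec.fst))

/-- `d` is a marker for `x`. -/
def mkB (h : ℕ → ℕ) (x d : ℕ) : Bool := mk0 ((x, d), (state ap h (d + 1)).2.1)

theorem comp_mkB (hh : Computable h) : Computable₂ (mkB ap h) := by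
  have h1 : Computable fun q : ℕ × ℕ => (state ap h (q.2 + 1)).2.1 :=
    Computable.comp (f := fun s => (state ap h s).2.1) (g := fun q : ℕ × ℕ => q.2 + 1)
      (comp_stM ap hh) (Computable.succ.comp Computable.snd)
  have h2 : Computable fun q : ℕ × ℕ => ((q.1, q.2), (state ap h (q.2 + 1)).2.1) :=
    Computable.pair (Computable.pair Computable.fst Computable.snd) h1
  exact Computable.comp (f := mk0)
    (g := fun q : ℕ × ℕ => ((q.1, q.2), (state ap h (q.2 + 1)).2.1)) prim_mk0.to_comp h2

theorem mkB_iff {x d : ℕ} : mkB ap h x d = true ↔ (preOf ap h).IsMk d x := by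
  unfold mkB mk0 Pre.IsMk
  rw [List.any_eq_true]
  constructor
  · rintro ⟨a, ha, h1⟩
    rw [Bool.and_eq_true, decide_eq_true_eq, decide_eq_true_eq] at h1
    exact ⟨a, by simpa [preOf] using ha, h1⟩
  · rintro ⟨a, ha, h1⟩
    refine ⟨a, by simpa [preOf] using ha, ?_⟩
    rw [Bool.and_eq_true, decide_eq_true_eq, decide_eq_true_eq]
    exact h1

/-- The search behind the functional `Ψ`. -/
def psi0 (q : List Bool × List Bool) : Option ℕ :=
  ((List.range q.1.length).filterMap fun d =>
    bif decide ((q.2[d]?).getD false = true) && decide ((q.1[d]?).getD true = false)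
    then some d else none).head?

theorem prim_psi0 : Primrec psi0 := by
  refine Primrec.list_head?.comp (Primrec.listFilterMap (Primrec.list_range.comp
    (Primrec.list_length.comp Primrec.fst)) ?_)
  refine Primrec.cond (Primrec.and.comp ?_ ?_) (Primrec.option_some.comp Primrec.snd)
    (Primrec.const none)
  · exact (Primrec.eq.decide).comp (Primrec.option_getD.comp (Primrec.list_getElem?.comp
      (Primrec.snd.comp Primrec.fst) Primrec.snd) (Primrec.const false)) (Primrec.const true)
  · exact (Primrec.eq.decide).comp (Primrec.option_getD.comp (Primrec.list_getElem?.comp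
      (Primrec.fst.comp Primrec.fst) Primrec.snd) (Primrec.const true)) (Primrec.const false)

/-- The functional `Ψ`. -/
def psiG (h : ℕ → ℕ) (x : ℕ) (σ : List Bool) : Option ℕ :=
  psi0 (σ, (List.range σ.length).map (mkB ap h x))

theorem comp_psiG (hh : Computable h) : Computable₂ (psiG ap h) := by
  have h1 : Computable fun q : ℕ × List Bool => (List.range q.2.length).map (mkB ap h q.1) :=
    computable_map_range (Computable.list_length.comp Computable.snd)
      ((comp_mkB ap hh).comp (Computable.fst.comp Computable.fst) Computable.snd)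
  have h2 : Computable fun q : ℕ × List Bool =>
      (q.2, (List.range q.2.length).map (mkB ap h q.1)) := Computable.pair Computable.snd h1
  exact Computable.comp (f := psi0)
    (g := fun q : ℕ × List Bool => (q.2, (List.range q.2.length).map (mkB ap h q.1)))
    prim_psi0.to_comp h2

theorem psiG_some {x : ℕ} {X : Set ℕ} {l y : ℕ} :
    psiG ap h x (pre X l) = some y ↔ y < l ∧ (preOf ap h).IsPsi X x y := by
  classical
  unfold psiG psi0 Pre.IsPsi
  simp only [length_pre]
  rw [head?_filterMap_range]
  have key : ∀ d < l, ((((List.range l).map (mkB ap h x))[d]?).getD false = true ↔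
      (preOf ap h).IsMk d x) ∧ (((pre X l)[d]?).getD true = false ↔ d ∉ X) := by
    intro d hd
    constructor
    · rw [List.getElem?_map, List.getElem?_range hd]
      simp only [Option.map_some, Option.getD_some]
      exact mkB_iff ap
    · have h2 : (pre X l)[d]? = some (decide (d ∈ X)) := by
        rw [getElem?_pre]; simp [hd]
      rw [h2]
      simp
  have key2 : ∀ d < l, ∀ z, (bif decide ((((List.range l).map (mkB ap h x))[d]?).getD false = true)
      && decide (((pre X l)[d]?).getD true = false) then some d else none) = some z ↔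
      z = d ∧ (preOf ap h).IsMk d x ∧ d ∉ X := by
    intro d hd z
    obtain ⟨k1, k2⟩ := key d hd
    by_cases h1 : (preOf ap h).IsMk d x
    · by_cases h2 : d ∈ X
      · have : ¬ (((pre X l)[d]?).getD true = false) := fun h3 => (k2.1 h3) h2
        rw [Bool.not_eq_false] at this
        rw [this]
        simp [h2]
      · rw [k1.2 h1, k2.2 h2]
        simp only [decide_true, Bool.and_self, cond_true, Option.some.injEq, h1, h2,
          not_false_eq_true, and_self, and_true]
        exact eq_comm
    · have : ¬ ((((List.range l).map (mkB ap h x))[d]?).getD false = true) :=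
        fun h3 => h1 (k1.1 h3)
      rw [Bool.not_eq_true] at this
      rw [this]
      simp [h1]
  constructor
  · rintro ⟨d, hd, h1, h2⟩
    have h3 := (key2 d hd y).1 h1
    obtain ⟨rfl, h4, h5⟩ := h3
    refine ⟨hd, h4, h5, fun z hz hzm => ?_⟩
    by_contra hzX
    have h6 := (key2 z (by omega) z).2 ⟨rfl, hzm, hzX⟩
    rw [h2 z hz] at h6
    cases h6
  · rintro ⟨hy, h4, h5, h6⟩
    refine ⟨y, hy, (key2 y hy y).2 ⟨rfl, h4, h5⟩, fun z hz => ?_⟩
    cases hc : (bif decide ((((List.range l).map (mkB ap h x))[z]?).getD false = true)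
      && decide (((pre X l)[z]?).getD true = false) then some z else none) with
    | none => rfl
    | some q =>
      have h7 := (key2 z (by omega) q).1 hc
      exact absurd (h6 z hz h7.2.1) h7.2.2

/-- The functional `Ψ` applied to `X`, as a function with possibly undefined values. -/
noncomputable def psi (h : ℕ → ℕ) (X : Set ℕ) : ℕ →. ℕ := fun x => Nat.rfindOpt fun l => psiG ap h x (pre X l)

theorem mem_psi {X : Set ℕ} {x y : ℕ} :
    y ∈ psi ap h X x ↔ (preOf ap h).IsPsi X x y := by
  constructor
  · intro hy
    obtain ⟨l, hl⟩ := Nat.rfindOpt_spec hy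
    exact (psiG_some ap).1 hl |>.2
  · intro hy
    have h1 : psiG ap h x (pre X (y + 1)) = some y :=
      (psiG_some ap).2 ⟨Nat.lt_succ_self _, hy⟩
    have hd : (Nat.rfindOpt fun l => psiG ap h x (pre X l)).Dom :=
      Nat.rfindOpt_dom.2 ⟨y + 1, y, h1⟩
    obtain ⟨l, hl⟩ := Nat.rfindOpt_spec (Part.get_mem hd)
    have h2 := (psiG_some ap).1 hl |>.2
    have : (Nat.rfindOpt fun l => psiG ap h x (pre X l)).get hd = y := by
      rcases lt_trichotomy ((Nat.rfindOpt fun l => psiG ap h x (pre X l)).get hd) y with h3 | h3 | h3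
      · exact absurd (hy.2.2 _ h3 h2.1) h2.2.1
      · exact h3
      · exact absurd (h2.2.2 _ h3 hy.1) hy.2.1
    have h4 := Part.get_mem hd
    rw [this] at h4
    exact h4

theorem psi_recursive (hh : Computable h) (X : Set ℕ) :
    RecursiveIn {chi X} (psi ap h X) := by
  rw [RecursiveIn.iff_nat]
  exact natRec_search (comp_psiG ap hh) X

end

/-- Every `A`-recursive function is traced, if the jump is. -/
theorem SJTReducible.trace {J : Set ℕ → ℕ →. ℕ} (hJ : IsUniversalJump J) {A B : Set ℕ}
    (hAB : SJTReducible J A B) {f : ℕ →. ℕ} (hf : RecursiveIn {chi A} f) {h : ℕ → ℕ}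
    (hh : IsOrder h) : ∃ T : ℕ → Finset ℕ, IsTrace B h f T := by
  classical
  obtain ⟨q, hq, hfq⟩ := hJ.universal A f hf
  -- the slowed down order function
  have hex : ∀ y, ∃ n, y ≤ n ∨ y ≤ q n := fun y => ⟨y, Or.inl le_rfl⟩
  let N : ℕ → ℕ := fun y => Nat.find (hex y)
  have hN : Computable N := by
    refine Computable.find (P := fun y n => y ≤ n ∨ y ≤ q n) ?_ hex
    have h1 : Computable fun p : ℕ × ℕ => decide (p.1 ≤ p.2) || decide (p.1 ≤ q p.2) := by
      refine Primrec.or.to_comp.comp ?_ ?_
      · exact ((Primrec.nat_le.decide).comp Primrec.fst Primrec.snd).to_comp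
      · exact (Primrec.nat_le.decide).to_comp.comp Computable.fst (hq.comp Computable.snd)
    refine Computable.computablePred (h1.of_eq fun p => ?_)
    simp
  have hNmono : Monotone N := by
    intro y y' hy
    refine Nat.find_mono fun n hn => ?_
    rcases hn with hn | hn
    · exact Or.inl (hy.trans hn)
    · exact Or.inr (hy.trans hn)
  have hNq : ∀ n, N (q n) ≤ n := fun n => Nat.find_min' _ (Or.inr le_rfl)
  have hNub : ∀ n, ∃ y, n < N y := by
    intro n
    refine ⟨(Finset.range (n + 1)).sup (fun j => max j (q j)) + 1, ?_⟩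
    rw [Nat.lt_iff_add_one_le]
    refine (Nat.le_find_iff _ _).2 fun j hj hcon => ?_
    have hj' : j ∈ Finset.range (n + 1) := Finset.mem_range.2 hj
    have h1 : max j (q j) ≤ (Finset.range (n + 1)).sup (fun j => max j (q j)) :=
      Finset.le_sup (f := fun j => max j (q j)) hj'
    rcases hcon with hcon | hcon
    · have := le_max_left j (q j); omega
    · have := le_max_right j (q j); omega
  have h1o : IsOrder fun y => h (N y) := by
    refine ⟨hh.computable.comp hN, fun y y' hy => hh.mono (hNmono hy), fun b => ?_, fun n => hh.pos _⟩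
    obtain ⟨n, hn⟩ := hh.unbounded b
    obtain ⟨y, hy⟩ := hNub n
    exact ⟨y, hn.trans (hh.mono hy.le)⟩
  obtain ⟨T, hT⟩ := hAB _ h1o
  refine ⟨fun n => T (q n), ⟨fun n => (hT.bounded _).trans (hh.mono (hNq n)), ?_, ?_⟩⟩
  · -- uniformly c.e. in `B`
    have hce := hT.ce
    have h2 : Nat.RecursiveIn {chi B} fun n =>
        (Part.bind ((decode (Nat.pair (q n.unpair.1) n.unpair.2) : Option (ℕ × ℕ)) : Part (ℕ × ℕ))
        fun a => (Part.assert (a.2 ∈ T a.1) fun _ => Part.some ()).map encode) := by
      refine natRec_comp hce ?_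
      exact Primrec₂.natPair.to_comp.comp (hq.comp (Computable.fst.comp Computable.unpair))
        (Computable.snd.comp Computable.unpair)
    refine h2.of_eq fun n => ?_
    simp
  · intro n v hv
    apply hT.traces
    rw [← hfq]
    exact hv

/-- If the jump of `E` is not traced then `E` is infinite. -/
theorem infinite_of_noTrace {J : ℕ →. ℕ} (hJ : RecursiveIn {chi E} J)
    (hpos : ∀ n, 0 < h n) (hNT : NoTrace J h) : E.Infinite := by
  classical
  intro hfin
  have h1 : Partrec (chi E) := by
    have h2 : PrimrecPred fun n : ℕ => n ∈ hfin.toFinset.toList :=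
      (PrimrecRel.comp (PrimrecRel.exists_mem_list Primrec.eq)
        (Primrec.const hfin.toFinset.toList) Primrec.id).of_eq (by simp)
    have h3 : Primrec fun n : ℕ => bif decide (n ∈ hfin.toFinset.toList) then 1 else 0 :=
      Primrec.cond h2.decide (Primrec.const 1) (Primrec.const 0)
    refine (h3.to_comp.partrec).of_eq fun n => ?_
    unfold chi
    by_cases hn : n ∈ E <;> simp [hn]
  have h2 : Partrec J := RecursiveIn.partrec_of_oracle (by simpa using h1) hJ
  let G : ℕ → Finset ℕ := fun m => if hd : (J m).Dom then {(J m).get hd} else ∅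
  have hG : ∀ m v, v ∈ G m ↔ v ∈ J m := by
    intro m v
    simp only [G]
    split_ifs with hd
    · rw [Finset.mem_singleton]
      constructor
      · intro hv; rw [hv]; exact Part.get_mem hd
      · intro hv; exact (Part.get_eq_of_mem hv hd).symm
    · constructor
      · intro hv; simp at hv
      · intro hv; exact absurd (Part.dom_iff_mem.2 ⟨v, hv⟩) hd
  obtain ⟨n, v, hv, hvG⟩ := hNT G (fun m => by
      have : (G m).card ≤ 1 := by
        simp only [G]
        split_ifs with hd
        · simp
        · simp
      have := hpos m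
      omega) (by
      have h3 : Partrec fun p : ℕ × ℕ => (J p.1).bind fun v =>
          ((if v = p.2 then some () else none : Option Unit) : Part Unit) := by
        refine Partrec.bind (h2.comp Computable.fst) ?_
        refine Computable.ofOption ?_
        exact (Primrec.ite (Primrec.eq.comp Primrec.snd (Primrec.snd.comp Primrec.fst))
          (Primrec.const (some ())) (Primrec.const none)).to_comp
      refine h3.of_eq fun p => ?_
      apply Part.ext
      intro u
      rw [Part.mem_bind_iff, Part.mem_assert_iff]
      simp only [hG]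
      constructor
      · rintro ⟨v, hv, hu⟩
        split_ifs at hu with hvp
        · rw [hvp] at hv; exact ⟨hv, by simp⟩
        · simp at hu
      · rintro ⟨hv, hu⟩
        refine ⟨p.2, hv, ?_⟩
        simp)
  exact hvG ((hG n v).2 hv)

/-- The main theorem. -/
theorem main {J : Set ℕ → ℕ →. ℕ} (hJ : IsUniversalJump J) {E : Set ℕ}
    (hE : REPred fun x => x ∈ E) (hne : ¬ SJTReducible J E ∅) :
    ∃ A B : Set ℕ, (REPred fun x => x ∈ A) ∧ (REPred fun x => x ∈ B) ∧
      RecursiveIn {chi E} (chi A) ∧ RecursiveIn {chi E} (chi B) ∧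
      ¬ SJTReducible J A B ∧ ¬ SJTReducible J B A := by
  classical
  unfold SJTReducible at hne
  push Not at hne
  obtain ⟨h, hh, hT⟩ := hne
  have hNT : NoTrace (J E) h := by
    intro T hT1 hT2
    by_contra hcon
    push Not at hcon
    exact hT T ⟨hT1, REPred.reIn hT2 _, hcon⟩
  have hinf := infinite_of_noTrace (hJ.recursive E) hh.pos hNT
  obtain ⟨ap⟩ := exists_approx hE (RecursiveIn.iff_nat.1 (hJ.recursive E))
  have R := isRun ap h
  have hS : ∀ k, REPred (fun p : ℕ × ℕ => ∃ s, (k, p.1, p.2) ∈ (preOf ap h).S s) :=
    S_re ap hh.computable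
  -- the slow order function
  have h2 : IsOrder fun x => h (Nat.sqrt x) := by
    refine ⟨hh.computable.comp Primrec.nat_sqrt.to_comp, fun x y hxy => hh.mono
      (Nat.sqrt_le_sqrt hxy), fun b => ?_, fun n => hh.pos _⟩
    obtain ⟨n, hn⟩ := hh.unbounded b
    exact ⟨n * n, by rw [Nat.sqrt_eq]; exact hn⟩
  have hsqrt : ∀ k n, k ≤ n → Nat.sqrt (Nat.pair k n) = n := by
    intro k n hkn
    rw [Nat.pair]
    split_ifs with hlt
    · exact Nat.sqrt_add_eq n (by omega)
    · have hkn' : k = n := by omega
      subst hkn'
      rw [Nat.add_assoc]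
      exact Nat.sqrt_add_eq k (le_refl _)
  have key : ∀ p q, ((p = 0 ∧ q = 1) ∨ (p = 1 ∧ q = 0)) →
      ¬ SJTReducible J (side ap h p) (side ap h q) := by
    intro p q hpq hred
    obtain ⟨T, hT⟩ := SJTReducible.trace hJ hred (psi_recursive ap hh.computable (side ap h p)) h2
    obtain ⟨c, hc⟩ := exists_code_reIn hT.ce
    have e1 : (2 * encode c + p) / 2 = encode c := by omega
    have e2 : (2 * encode c + p) % 2 = p := by omega
    have eS : (preOf ap h).SameF (2 * encode c + p) = side ap h p := by
      unfold Pre.SameF side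
      rw [e2]
    have eO : (preOf ap h).OthF (2 * encode c + p) = side ap h q := by
      unfold Pre.OthF side
      rw [e2]
      ext d
      constructor
      · rintro ⟨s, l, h1, h3⟩; exact ⟨s, l, h1, by omega⟩
      · rintro ⟨s, l, h1, h3⟩; exact ⟨s, l, h1, by omega⟩
    obtain ⟨k, hk⟩ := Pre.exists_stable_level R hinf hNT hS hh.pos (2 * encode c + p)
    obtain ⟨n0, hkn, hreq⟩ := Pre.requirement R hinf hNT hS hh.pos hk
    simp only [e1, eS, eO, Denumerable.ofNat_encode] at hreq
    rcases hreq with ⟨F, hF, hF2⟩ | ⟨a, ha, hna⟩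
    · have hsub : F ⊆ T (Nat.pair k n0) := by
        intro a ha
        exact (hc _ _).2 (hF2 a ha)
      have h3 := Finset.card_le_card hsub
      have h4 := hT.bounded (Nat.pair k n0)
      rw [hsqrt k n0 hkn] at h4
      omega
    · apply hna
      exact (hc _ _).1 (hT.traces _ _ ((mem_psi ap).2 ha))
  exact ⟨side ap h 0, side ap h 1, side_re ap hh.computable 0, side_re ap hh.computable 1,
    side_reducible ap hh.computable 0, side_reducible ap hh.computable 1,
    key 0 1 (Or.inl ⟨rfl, rfl⟩), key 1 0 (Or.inr ⟨rfl, rfl⟩)⟩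

end Pool.Agent.SJT
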