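import Pool.Agent.Lib.MP_377195_lc.Defs
import Mathlib.Tactic.Linarith
import Mathlib.Data.List.Basic

/-!
# A normal form for relative computability

A function `f` is recursive in `X` iff `f n` can be found from the finite initial segments of the
characteristic function of `X` in a computable way.
-/

namespace Pool.Agent.SJT

open Encodable

open scoped Classical in
/-- The initial segment of length `l` of the characteristic function of `X`. -/
noncomputable def pre (X : Set ℕ) (l : ℕ) : List Bool :=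
  (List.range l).map fun i => decide (i ∈ X)

@[simp] theorem length_pre (X : Set ℕ) (l : ℕ) : (pre X l).length = l := by simp [pre]

theorem getElem?_pre (X : Set ℕ) (l i : ℕ) (b : Bool) :
    (pre X l)[i]? = some b ↔ i < l ∧ (b = true ↔ i ∈ X) := by
  classical
  unfold pre
  rw [List.getElem?_map]
  by_cases h : i < l
  · rw [List.getElem?_range h]
    simp only [Option.map_some, Option.some.injEq, h, true_and]
    by_cases hi : i ∈ X <;> cases b <;> simp [hi]
  · have : (List.range l)[i]? = none := by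
      rw [List.getElem?_eq_none_iff]; simpa using h
    simp [h]

theorem pre_zero (X : Set ℕ) : pre X 0 = [] := by simp [pre]

open scoped Classical in
theorem pre_succ (X : Set ℕ) (l : ℕ) : pre X (l + 1) = pre X l ++ [decide (l ∈ X)] := by
  simp [pre, List.range_succ]

theorem take_pre (X : Set ℕ) (k l : ℕ) : (pre X l).take k = pre X (min k l) := by
  unfold pre
  rw [← List.map_take, List.take_range]

theorem pre_le (X : Set ℕ) {k l : ℕ} (h : k ≤ l) : pre X k <+: pre X l := by
  have : (pre X l).take k = pre X k := by rw [take_pre, min_eq_left h]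
  rw [← this]
  exact List.take_prefix _ _

theorem pre_congr {X Y : Set ℕ} {l : ℕ} (h : ∀ i < l, (i ∈ X ↔ i ∈ Y)) : pre X l = pre Y l := by
  classical
  unfold pre
  apply List.map_congr_left
  intro i hi
  simp [h i (List.mem_range.1 hi)]

theorem pre_congr_iff {X Y : Set ℕ} {l : ℕ} : pre X l = pre Y l ↔ ∀ i < l, (i ∈ X ↔ i ∈ Y) := by
  refine ⟨fun h i hi => ?_, pre_congr⟩
  classical
  have h1 : (pre X l)[i]? = some (decide (i ∈ X)) := by
    rw [getElem?_pre]; simp [hi]
  rw [h, getElem?_pre] at h1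
  simpa using h1.2

/-- `F` is a monotone functional. -/
def MonoF (F : List Bool → ℕ →. ℕ) : Prop :=
  ∀ σ τ n y, σ <+: τ → y ∈ F σ n → y ∈ F τ n

/-- `F` computes `f` from `X`. -/
def Comp (X : Set ℕ) (F : List Bool → ℕ →. ℕ) (f : ℕ →. ℕ) : Prop :=
  ∀ n y, y ∈ f n ↔ ∃ l, y ∈ F (pre X l) n

theorem MonoF.pre_le {F : List Bool → ℕ →. ℕ} (hF : MonoF F) (X : Set ℕ) {k l n y : ℕ}
    (h : k ≤ l) (hy : y ∈ F (pre X k) n) : y ∈ F (pre X l) n :=
  hF _ _ _ _ (Pool.Agent.SJT.pre_le X h) hy

theorem partrec₂_oracle :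
    Partrec₂ (fun (σ : List Bool) (n : ℕ) =>
      ((σ[n]?).map (fun b => if b = true then 1 else 0) : Option ℕ) : List Bool → ℕ →. ℕ) := by
  have h1 : Computable₂ (fun (σ : List Bool) (n : ℕ) => σ[n]?) := Computable.list_getElem?
  have h2 : Computable₂ (fun (_ : List Bool × ℕ) (b : Bool) => if b = true then 1 else 0 :
      List Bool × ℕ → Bool → ℕ) :=
    ((Primrec.dom_bool (fun b => if b = true then 1 else 0)).comp Primrec.snd).to_comp
  exact (Computable.option_map h1 h2).ofOption

theorem exists_functional {X : Set ℕ} {f : ℕ →. ℕ} (hf : Nat.RecursiveIn {chi X} f) :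
    ∃ F : List Bool → ℕ →. ℕ, Partrec₂ F ∧ MonoF F ∧ Comp X F f := by
  induction hf with
  | zero =>
    refine ⟨fun _ _ => Part.some 0, (Computable.const 0).partrec, ?_, ?_⟩
    · intro σ τ n y _ h; exact h
    · intro n y; exact ⟨fun h => ⟨0, h⟩, fun ⟨_, h⟩ => h⟩
  | succ =>
    refine ⟨fun _ n => Part.some (n + 1), (Computable.succ.comp Computable.snd).partrec, ?_, ?_⟩
    · intro σ τ n y _ h; exact h
    · intro n y; exact ⟨fun h => ⟨0, h⟩, fun ⟨_, h⟩ => h⟩
  | left =>
    refine ⟨fun _ n => Part.some (n.unpair.1),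
      (Computable.fst.comp (Computable.unpair.comp Computable.snd)).partrec, ?_, ?_⟩
    · intro σ τ n y _ h; exact h
    · intro n y; exact ⟨fun h => ⟨0, h⟩, fun ⟨_, h⟩ => h⟩
  | right =>
    refine ⟨fun _ n => Part.some (n.unpair.2),
      (Computable.snd.comp (Computable.unpair.comp Computable.snd)).partrec, ?_, ?_⟩
    · intro σ τ n y _ h; exact h
    · intro n y; exact ⟨fun h => ⟨0, h⟩, fun ⟨_, h⟩ => h⟩
  | oracle g hg =>
    have hg' : g = chi X := hg
    subst hg'
    refine ⟨_, partrec₂_oracle, ?_, ?_⟩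
    · intro σ τ n y h hy
      simp only [Part.mem_ofOption, Option.mem_def, Option.map_eq_some_iff] at hy ⊢
      obtain ⟨b, hb, hy⟩ := hy
      refine ⟨b, ?_, hy⟩
      obtain ⟨t, rfl⟩ := h
      have hn : n < σ.length := by
        by_contra hcon
        rw [List.getElem?_eq_none (not_lt.1 hcon)] at hb
        cases hb
      rw [List.getElem?_append_left hn]
      exact hb
    · intro n y
      classical
      simp only [Part.mem_ofOption, Option.mem_def, Option.map_eq_some_iff, chi, Part.mem_some_iff]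
      constructor
      · intro hy
        refine ⟨n + 1, decide (n ∈ X), ?_, ?_⟩
        · rw [getElem?_pre]; simp
        · rw [hy]; simp
      · rintro ⟨l, b, hb, hy⟩
        rw [getElem?_pre] at hb
        rw [← hy]
        by_cases hn : n ∈ X
        · have : b = true := hb.2.2 hn
          simp [this, hn]
        · have : ¬ b = true := fun h => hn (hb.2.1 h)
          simp [this, hn]
  | pair _ _ ih1 ih2 =>
    obtain ⟨F1, p1, m1, c1⟩ := ih1
    obtain ⟨F2, p2, m2, c2⟩ := ih2
    refine ⟨fun σ n => (F1 σ n).bind fun a => (F2 σ n).bind fun b => Part.some (Nat.pair a b),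
      ?_, ?_, ?_⟩
    · refine Partrec.bind p1 (Partrec.bind (p2.comp (Computable.fst.comp Computable.fst)
        (Computable.snd.comp Computable.fst)) ?_)
      exact (Primrec₂.natPair.to_comp.comp (Computable.snd.comp Computable.fst)
        Computable.snd).partrec
    · intro σ τ n y h hy
      simp only [Part.mem_bind_iff, Part.mem_some_iff] at hy ⊢
      obtain ⟨a, ha, b, hb, hy⟩ := hy
      exact ⟨a, m1 _ _ _ _ h ha, b, m2 _ _ _ _ h hb, hy⟩
    · intro n y
      simp only [Part.mem_bind_iff, Part.mem_some_iff, Seq.seq, Part.map_eq_map, Part.mem_map_iff,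
        exists_exists_and_eq_and]
      constructor
      · rintro ⟨a, ha, b, hb, hy⟩
        obtain ⟨l1, h1⟩ := (c1 _ _).1 ha
        obtain ⟨l2, h2⟩ := (c2 _ _).1 hb
        exact ⟨max l1 l2, a, m1.pre_le X (le_max_left _ _) h1, b, m2.pre_le X (le_max_right _ _) h2,
          hy.symm⟩
      · rintro ⟨l, a, ha, b, hb, hy⟩
        exact ⟨a, (c1 _ _).2 ⟨l, ha⟩, b, (c2 _ _).2 ⟨l, hb⟩, hy.symm⟩
  | comp _ _ ih1 ih2 =>
    obtain ⟨F1, p1, m1, c1⟩ := ih1
    obtain ⟨F2, p2, m2, c2⟩ := ih2
    refine ⟨fun σ n => (F2 σ n).bind fun a => F1 σ a, ?_, ?_, ?_⟩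
    · exact Partrec.bind p2 (p1.comp (Computable.fst.comp Computable.fst) Computable.snd)
    · intro σ τ n y h hy
      simp only [Part.mem_bind_iff] at hy ⊢
      obtain ⟨a, ha, hy⟩ := hy
      exact ⟨a, m2 _ _ _ _ h ha, m1 _ _ _ _ h hy⟩
    · intro n y
      constructor
      · intro hy
        obtain ⟨a, ha, hy⟩ := Part.mem_bind_iff.1 hy
        obtain ⟨l1, h1⟩ := (c1 _ _).1 hy
        obtain ⟨l2, h2⟩ := (c2 _ _).1 ha
        exact ⟨max l1 l2, Part.mem_bind_iff.2
          ⟨a, m2.pre_le X (le_max_right _ _) h2, m1.pre_le X (le_max_left _ _) h1⟩⟩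
      · rintro ⟨l, hy⟩
        obtain ⟨a, ha, hy⟩ := Part.mem_bind_iff.1 hy
        exact Part.mem_bind_iff.2 ⟨a, (c2 _ _).2 ⟨l, ha⟩, (c1 _ _).2 ⟨l, hy⟩⟩
  | @prec f h _ _ ih1 ih2 =>
    obtain ⟨F1, p1, m1, c1⟩ := ih1
    obtain ⟨F2, p2, m2, c2⟩ := ih2
    let G : List Bool → ℕ → ℕ →. ℕ := fun σ a n =>
      Nat.rec (F1 σ a) (fun y IH => IH.bind fun i => F2 σ (Nat.pair a (Nat.pair y i))) n
    refine ⟨fun σ p => G σ p.unpair.1 p.unpair.2, ?_, ?_, ?_⟩
    · refine Partrec.nat_rec (f := fun p : List Bool × ℕ => p.2.unpair.2)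
        (g := fun p : List Bool × ℕ => F1 p.1 p.2.unpair.1)
        (h := fun (p : List Bool × ℕ) (q : ℕ × ℕ) =>
          F2 p.1 (Nat.pair p.2.unpair.1 (Nat.pair q.1 q.2))) ?_ ?_ ?_
      · exact Computable.snd.comp (Computable.unpair.comp Computable.snd)
      · exact p1.comp Computable.fst (Computable.fst.comp (Computable.unpair.comp Computable.snd))
      · refine p2.comp (Computable.fst.comp Computable.fst) ?_
        refine Primrec₂.natPair.to_comp.comp ?_ ?_
        · exact Computable.fst.comp (Computable.unpair.comp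
            (Computable.snd.comp Computable.fst))
        · exact Primrec₂.natPair.to_comp.comp (Computable.fst.comp Computable.snd)
            (Computable.snd.comp Computable.snd)
    · have key : ∀ σ τ : List Bool, σ <+: τ → ∀ a n y, y ∈ G σ a n → y ∈ G τ a n := by
        intro σ τ h a n
        induction n with
        | zero => intro y hy; exact m1 _ _ _ _ h hy
        | succ n ih =>
          intro y hy
          simp only [G, Part.mem_bind_iff] at hy ⊢
          obtain ⟨i, hi, hy⟩ := hy
          exact ⟨i, ih _ hi, m2 _ _ _ _ h hy⟩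
      intro σ τ n y h hy
      exact key σ τ h _ _ _ hy
    · have mono : ∀ {k l : ℕ}, k ≤ l → ∀ a n y, y ∈ G (pre X k) a n → y ∈ G (pre X l) a n := by
        intro k l hkl a n
        induction n with
        | zero => intro y hy; exact m1.pre_le X hkl hy
        | succ n ih =>
          intro y hy
          simp only [G, Part.mem_bind_iff] at hy ⊢
          obtain ⟨i, hi, hy⟩ := hy
          exact ⟨i, ih _ hi, m2.pre_le X hkl hy⟩
      have key : ∀ a n y, y ∈ (Nat.rec (f a) (fun y IH => do
          let i ← IH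
          h (Nat.pair a (Nat.pair y i))) n : Part ℕ) ↔ ∃ l, y ∈ G (pre X l) a n := by
        intro a n
        induction n with
        | zero => intro y; exact c1 _ _
        | succ n ih =>
          intro y
          simp only [Part.bind_eq_bind, Part.mem_bind_iff, G] at ih ⊢
          constructor
          · rintro ⟨i, hi, hy⟩
            obtain ⟨l1, h1⟩ := (ih _).1 hi
            obtain ⟨l2, h2⟩ := (c2 _ _).1 hy
            exact ⟨max l1 l2, i, mono (le_max_left _ _) _ _ _ h1, m2.pre_le X (le_max_right _ _) h2⟩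
          · rintro ⟨l, i, hi, hy⟩
            exact ⟨i, (ih _).2 ⟨l, hi⟩, (c2 _ _).2 ⟨l, hy⟩⟩
      intro n y
      exact key _ _ _
  | @rfind f _ ih =>
    obtain ⟨F, p, m, c⟩ := ih
    refine ⟨fun σ a => Nat.rfind fun n => (F σ (Nat.pair a n)).map fun k => decide (k = 0),
      ?_, ?_, ?_⟩
    · refine Partrec.rfind (p := fun (q : List Bool × ℕ) (n : ℕ) =>
        (F q.1 (Nat.pair q.2 n)).map fun k => decide (k = 0)) ?_
      refine Partrec.map ?_ ?_
      · exact p.comp (Computable.fst.comp Computable.fst)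
          (Primrec₂.natPair.to_comp.comp (Computable.snd.comp Computable.fst) Computable.snd)
      · exact ((Primrec.eq.decide).comp Primrec.snd (Primrec.const 0)).to_comp
    · intro σ τ n y h hy
      obtain ⟨ha, hy⟩ := Nat.mem_rfind.1 hy
      obtain ⟨a, ha, ha'⟩ := (Part.mem_map_iff _).1 ha
      refine Nat.mem_rfind.2 ⟨(Part.mem_map_iff _).2 ⟨a, m _ _ _ _ h ha, ha'⟩, ?_⟩
      intro k hk
      obtain ⟨b, hb, hb'⟩ := (Part.mem_map_iff _).1 (hy hk)
      exact (Part.mem_map_iff _).2 ⟨b, m _ _ _ _ h hb, hb'⟩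
    · intro n y
      have e1 : ∀ (q : ℕ →. ℕ), y ∈ (Nat.rfind fun n => (q n).map fun k => decide (k = 0)) ↔
          ((∃ a ∈ q y, decide (a = 0) = true) ∧ ∀ k < y, ∃ b ∈ q k, decide (b = 0) = false) := by
        intro q
        refine Nat.mem_rfind.trans (and_congr (Part.mem_map_iff _) ?_)
        constructor
        · intro h k hk; exact (Part.mem_map_iff _).1 (h hk)
        · intro h k hk; exact (Part.mem_map_iff _).2 (h k hk)
      refine (e1 (fun k => f (Nat.pair n k))).trans (Iff.trans ?_
        (exists_congr fun l => (e1 (fun k => F (pre X l) (Nat.pair n k))).symm))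
      constructor
      · rintro ⟨⟨a, ha, ha'⟩, hy⟩
        obtain ⟨l0, h0⟩ := (c _ _).1 ha
        have : ∃ l, ∀ k < y, ∃ b, b ∈ F (pre X l) (Nat.pair n k) ∧ decide (b = 0) = false := by
          have aux : ∀ j, j ≤ y → ∃ l, ∀ k < j, ∃ b, b ∈ F (pre X l) (Nat.pair n k) ∧
              decide (b = 0) = false := by
            intro j
            induction j with
            | zero => intro _; exact ⟨0, fun k hk => absurd hk (Nat.not_lt_zero _)⟩
            | succ j ihj =>
              intro hj
              obtain ⟨l, hl⟩ := ihj (Nat.le_of_succ_le hj)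
              obtain ⟨b, hb, hb'⟩ := hy _ (Nat.lt_of_succ_le hj)
              obtain ⟨l', hl'⟩ := (c _ _).1 hb
              refine ⟨max l l', fun k hk => ?_⟩
              rcases Nat.lt_succ_iff_lt_or_eq.1 hk with hk | hk
              · obtain ⟨b', hb1, hb2⟩ := hl k hk
                exact ⟨b', m.pre_le X (le_max_left _ _) hb1, hb2⟩
              · subst hk
                exact ⟨b, m.pre_le X (le_max_right _ _) hl', hb'⟩
          exact aux y le_rfl
        obtain ⟨l, hl⟩ := this
        refine ⟨max l0 l, ⟨a, m.pre_le X (le_max_left _ _) h0, ha'⟩, ?_⟩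
        intro k hk
        obtain ⟨b', hb1, hb2⟩ := hl k hk
        exact ⟨b', m.pre_le X (le_max_right _ _) hb1, hb2⟩
      · rintro ⟨l, ⟨a, ha, ha'⟩, hy⟩
        refine ⟨⟨a, (c _ _).2 ⟨l, ha⟩, ha'⟩, ?_⟩
        intro k hk
        obtain ⟨b, hb, hb'⟩ := hy k hk
        exact ⟨b, (c _ _).2 ⟨l, hb⟩, hb'⟩

end Pool.Agent.SJT
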