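import Pool.Agent.Lib.MP_377195_lc.Look
import Mathlib.Data.Finset.Card
import Mathlib.Data.Set.Card
import Mathlib.Order.Interval.Finset.Nat
import Mathlib.Data.Nat.Nth

/-!
# The stage construction, in abstract form
-/

namespace Pool.Agent.SJT

open Encodable
open Nat.Partrec (Code)
open Nat.Partrec.Code

/-- An enumeration of a c.e. set `E` together with approximations to an `E`-recursive function `f`,
with their use. At each stage at most one number enters `E`, and each number enters only once. -/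
structure Approx (E : Set ℕ) (f : ℕ →. ℕ) where
  g : ℕ → Option ℕ
  c : ℕ → ℕ → Option (ℕ × ℕ)
  g_comp : Computable g
  c_comp : Computable₂ c
  g_inj : ∀ s t x, g s = some x → g t = some x → s = t
  g_range : ∀ x, x ∈ E ↔ ∃ s, g s = some x
  c_use : ∀ m s v u, c m s = some (v, u) → u ≤ s ∧ ∀ x, g s = some x → u ≤ x
  c_persist : ∀ m s v u, c m s = some (v, u) → (∀ x, g (s + 1) = some x → u ≤ x) →
    c m (s + 1) = some (v, u)
  c_complete : ∀ m v, v ∈ f m → ∃ s0 u, ∀ s ≥ s0, c m s = some (v, u)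
  c_sound : ∀ m s v u, c m s = some (v, u) → (∀ t > s, ∀ x, g t = some x → u ≤ x) → v ∈ f m

/-- A version: (birth stage, level). -/
abbrev Ver := ℕ × ℕ

/-- A marker: (stage of appointment `d`, owner `k`, level, argument `m`, value `v`, use `u`). -/
abbrev Mkr := ℕ × ℕ × ℕ × ℕ × ℕ × ℕ

namespace Mkr

abbrev d (a : Mkr) : ℕ := a.1
abbrev k (a : Mkr) : ℕ := a.2.1
abbrev lev (a : Mkr) : ℕ := a.2.2.1
abbrev m (a : Mkr) : ℕ := a.2.2.2.1
abbrev v (a : Mkr) : ℕ := a.2.2.2.2.1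
abbrev u (a : Mkr) : ℕ := a.2.2.2.2.2

end Mkr

/-- The state: versions, markers, the triples `(k, m, v)`, the enumerated pairs `(level, d)`. -/
structure Pre where
  V : ℕ → Finset Ver
  M : ℕ → Finset Mkr
  S : ℕ → Finset (ℕ × ℕ × ℕ)
  C : ℕ → Finset (ℕ × ℕ)

variable {E : Set ℕ} {f : ℕ →. ℕ}

/-- A marker is hit at stage `s` if a number below its use enters `E`. -/
def Hit (ap : Approx E f) (s : ℕ) (a : Mkr) : Prop := ∃ x, ap.g s = some x ∧ x < a.u

namespace Pre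

variable (r : Pre) (ap : Approx E f) (h : ℕ → ℕ)

open scoped Classical in
/-- The versions after the first step of stage `s`. -/
noncomputable def V' (s : ℕ) : Finset Ver :=
  (r.V s).filter fun w => ∀ a ∈ r.M s, Hit ap s a → w.1 ≤ a.d

open scoped Classical in
/-- The markers after the first step of stage `s`. -/
noncomputable def M' (s : ℕ) : Finset Mkr :=
  (r.M s).filter fun a => ¬ Hit ap s a ∧ ∀ b ∈ r.M s, Hit ap s b → a.k ≤ b.d

/-- The version `w` is current at stage `s`. -/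
def Cur (s : ℕ) (w : Ver) : Prop :=
  w ∈ r.V' ap s ∧ ∀ a ∈ r.M' ap s, ¬ (a.k < w.1 ∧ w.1 < a.d)

/-- The set built on the side of level parity different from that of `lev`, at stage `s`. -/
def Oth (s lev : ℕ) : Set ℕ := {d | ∃ l, (l, d) ∈ r.C (s + 1) ∧ l % 2 ≠ lev % 2}

/-- The trace condition. -/
def TC (s : ℕ) (a : Mkr) : Prop :=
  ∃ l ≤ s, (evaln s (Denumerable.ofNat Code (a.lev / 2))
    (encode (pre (r.Oth s a.lev) l, Nat.pair (Nat.pair a.k a.m) a.d))).isSome = true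

/-- The number of triples `(k, m, v)` at stage `s`. -/
def cnt (s k m : ℕ) : ℕ := ((r.S s).filter fun e => e.1 = k ∧ e.2.1 = m).card

/-- Version `w` wants to act for the marker `a`. -/
def WishA (s : ℕ) (w : Ver) (a : Mkr) : Prop :=
  a ∈ r.M' ap s ∧ a.k = w.1 ∧ (a.k, a.m, a.v) ∉ r.S s ∧ r.cnt s a.k a.m < h a.m ∧ r.TC s a

/-- Version `w` wants to appoint the marker `a`. -/
def WishB (s : ℕ) (w : Ver) (a : Mkr) : Prop :=
  a.d = s ∧ a.k = w.1 ∧ a.lev = w.2 ∧ a.k ≤ a.m ∧ a.m < s ∧ ap.c a.m s = some (a.v, a.u) ∧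
  (a.k, a.m, a.v) ∉ r.S s ∧
  (∀ m < a.m, a.k ≤ m → ∀ v u, ap.c m s = some (v, u) → (a.k, m, v) ∈ r.S s) ∧
  ∀ b ∈ r.M' ap s, ¬ (b.k = a.k ∧ b.m = a.m)

/-- `w` is the first current version that wants to act at stage `s`, and `a` shows this. -/
def ActA (s : ℕ) (w : Ver) (a : Mkr) : Prop :=
  r.Cur ap s w ∧ r.WishA ap h s w a ∧
  (∀ w', r.Cur ap s w' → w'.1 < w.1 → (∀ a, ¬ r.WishA ap h s w' a) ∧ ∀ a, ¬ r.WishB ap s w' a)

/-- `w` is the first current version that wants to act at stage `s`, and it appoints `a`. -/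
def ActB (s : ℕ) (w : Ver) (a : Mkr) : Prop :=
  r.Cur ap s w ∧ r.WishB ap s w a ∧ (∀ a, ¬ r.WishA ap h s w a) ∧
  (∀ w', r.Cur ap s w' → w'.1 < w.1 → (∀ a, ¬ r.WishA ap h s w' a) ∧ ∀ a, ¬ r.WishB ap s w' a)

/-- No current version wants to act at stage `s`. -/
def Idle (s : ℕ) : Prop :=
  ∀ w', r.Cur ap s w' → (∀ a, ¬ r.WishA ap h s w' a) ∧ ∀ a, ¬ r.WishB ap s w' a

open scoped Classical in
/-- The rules of the construction. -/
structure IsRun : Prop where
  V0 : r.V 0 = ∅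
  M0 : r.M 0 = ∅
  S0 : r.S 0 = ∅
  C0 : r.C 0 = ∅
  C_succ : ∀ s l d, (l, d) ∈ r.C (s + 1) ↔
    (∃ a ∈ r.M s, Hit ap s a ∧ a.lev = l ∧ a.d = d) ∨ (l, d) ∈ r.C s
  step : ∀ s,
    (∃ w a, r.ActA ap h s w a ∧ r.V (s + 1) = (r.V' ap s).filter (fun w' => w'.1 ≤ w.1) ∧
      r.M (s + 1) = (r.M' ap s).filter (fun b => b.k ≤ w.1) ∧
      r.S (s + 1) = insert (a.k, a.m, a.v) (r.S s)) ∨
    (∃ w a, r.ActB ap h s w a ∧ r.V (s + 1) = r.V' ap s ∧
      r.M (s + 1) = insert a (r.M' ap s) ∧ r.S (s + 1) = r.S s) ∨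
    (r.Idle ap h s ∧ r.V (s + 1) = insert (s, ((r.V' ap s).filter (fun w => r.Cur ap s w)).card)
      (r.V' ap s) ∧ r.M (s + 1) = r.M' ap s ∧ r.S (s + 1) = r.S s)

end Pre

end Pool.Agent.SJT
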