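import Pool.Agent.Lib.MP_377195_lc.Oracle

/-!
# Searching through the initial segments of an oracle is recursive in the oracle
-/

namespace Pool.Agent.SJT

open Encodable

variable {O : Set (ℕ →. ℕ)}

theorem natRec_bind {f : ℕ →. ℕ} {K : ℕ → ℕ →. ℕ} (hf : Nat.RecursiveIn O f)
    (hK : Partrec₂ K) : Nat.RecursiveIn O fun n => (f n).bind (K n) := by
  have h1 : Nat.Partrec (fun q : ℕ => K q.unpair.1 q.unpair.2) :=
    Partrec.nat_iff.1 (hK.comp (Computable.fst.comp Computable.unpair)
      (Computable.snd.comp Computable.unpair))
  have h2 := Nat.RecursiveIn.comp h1.recursiveIn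
    (Nat.RecursiveIn.pair (Nat.Partrec.some.recursiveIn) hf)
  refine h2.of_eq fun n => ?_
  apply Part.ext
  intro y
  constructor
  · intro h
    obtain ⟨a, ha, hy⟩ := Part.mem_bind_iff.1 h
    simp only [Seq.seq, Part.map_eq_map, Part.map_some, Part.bind_some, Part.mem_map_iff] at ha
    obtain ⟨b, hb, rfl⟩ := ha
    simp only [Nat.unpair_pair] at hy
    exact Part.mem_bind_iff.2 ⟨b, hb, hy⟩
  · intro h
    obtain ⟨b, hb, hy⟩ := Part.mem_bind_iff.1 h
    refine Part.mem_bind_iff.2 ⟨Nat.pair n b, ?_, ?_⟩
    · simp only [Seq.seq, Part.map_eq_map, Part.map_some, Part.bind_some, Part.mem_map_iff]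
      exact ⟨b, hb, rfl⟩
    · simpa using hy

theorem natRec_comp {f : ℕ →. ℕ} {g : ℕ → ℕ} (hf : Nat.RecursiveIn O f)
    (hg : Computable g) : Nat.RecursiveIn O fun n => f (g n) := by
  have h1 : Nat.Partrec (fun n : ℕ => Part.some (g n)) := Partrec.nat_iff.1 hg.partrec
  have h2 := Nat.RecursiveIn.comp hf h1.recursiveIn
  refine h2.of_eq fun n => ?_
  exact Part.bind_some _ _

theorem natRec_chi (X : Set ℕ) : Nat.RecursiveIn {chi X} (chi X) :=
  Nat.RecursiveIn.oracle _ rfl

open scoped Classical in
/-- The code of the initial segments of `X` is recursive in `X`. -/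
theorem natRec_pre (X : Set ℕ) :
    Nat.RecursiveIn {chi X} fun l => Part.some (encode (pre X l)) := by
  have hK : Partrec₂ (fun q b : ℕ => Part.some (encode
      (((decode (α := List Bool) q.unpair.2.unpair.2).getD []) ++ [decide (b = 1)])) :
      ℕ → ℕ →. ℕ) := by
    refine Computable.partrec (Computable.encode.comp ?_)
    refine Computable.list_append.comp ?_ ?_
    · refine Computable.option_getD (Computable.decode.comp ?_) (Computable.const [])
      exact Computable.snd.comp (Computable.unpair.comp (Computable.snd.comp
        (Computable.unpair.comp Computable.fst)))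
    · refine Computable.list_cons.comp ?_ (Computable.const [])
      exact ((Primrec.eq.decide).comp Primrec.snd (Primrec.const 1)).to_comp
  have h0 : Nat.RecursiveIn {chi X} fun q => (chi X q.unpair.2.unpair.1).bind fun b =>
      Part.some (encode
      (((decode (α := List Bool) q.unpair.2.unpair.2).getD []) ++ [decide (b = 1)])) := by
    refine natRec_bind (natRec_comp (natRec_chi X) ?_) hK
    exact Computable.fst.comp (Computable.unpair.comp (Computable.snd.comp Computable.unpair))
  have h1 : Nat.RecursiveIn {chi X} fun _ => Part.some (encode ([] : List Bool)) :=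
    (Partrec.nat_iff.1 (Computable.const (encode ([] : List Bool))).partrec).recursiveIn
  have h2 := natRec_comp (Nat.RecursiveIn.prec h1 h0)
    (g := fun n => Nat.pair 0 n) (Primrec₂.natPair.to_comp.comp (Computable.const 0) Computable.id)
  refine h2.of_eq fun n => ?_
  simp only [Nat.unpair_pair]
  induction n with
  | zero => simp [pre_zero]
  | succ n ih =>
    simp only [Part.bind_eq_bind] at ih ⊢
    rw [ih, Part.bind_some]
    rw [pre_succ]
    have : chi X n = Part.some (if n ∈ X then 1 else 0) := rfl
    rw [this]
    simp only [Part.bind_some, encodek, Option.getD_some]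
    by_cases hn : n ∈ X <;> simp [hn]

/-- Unbounded search over the initial segments of `X` is recursive in `X`. -/
theorem natRec_search {G : ℕ → List Bool → Option ℕ} (hG : Computable₂ G) (X : Set ℕ) :
    Nat.RecursiveIn {chi X} fun n => Nat.rfindOpt fun l => G n (pre X l) := by
  have ht : Partrec₂ (fun q c : ℕ => Part.some
      (if (G q.unpair.1 ((decode (α := List Bool) c).getD [])).isSome = true then 0 else 1) :
      ℕ → ℕ →. ℕ) := by
    refine Computable.partrec ?_
    have : Computable (fun p : ℕ × ℕ =>
        (G p.1.unpair.1 ((decode (α := List Bool) p.2).getD [])).isSome) := by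
      refine Primrec.option_isSome.to_comp.comp (hG.comp ?_ ?_)
      · exact Computable.fst.comp (Computable.unpair.comp Computable.fst)
      · exact Computable.option_getD (Computable.decode.comp Computable.snd) (Computable.const [])
    refine ((Primrec.dom_bool (fun b : Bool => if b = true then 0 else 1)).to_comp.comp this)
  have h1 := natRec_bind (natRec_comp (natRec_pre X) (g := fun q => q.unpair.2)
    (Computable.snd.comp Computable.unpair)) ht
  have h2 := Nat.RecursiveIn.rfind h1
  have hV : Partrec₂ (fun q c : ℕ =>
      ((G q.unpair.1 ((decode (α := List Bool) c).getD []) : Option ℕ) : Part ℕ) :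
      ℕ → ℕ →. ℕ) := by
    refine Computable.ofOption (hG.comp ?_ ?_)
    · exact Computable.fst.comp (Computable.unpair.comp Computable.fst)
    · exact Computable.option_getD (Computable.decode.comp Computable.snd) (Computable.const [])
  have h3 := natRec_bind (natRec_comp (natRec_pre X) (g := fun q => q.unpair.2)
    (Computable.snd.comp Computable.unpair)) hV
  have h4 := Nat.RecursiveIn.comp h3
    (Nat.RecursiveIn.pair (Nat.Partrec.some.recursiveIn) h2)
  refine h4.of_eq fun n => ?_
  simp only [Part.bind_some, Nat.unpair_pair, encodek, Option.getD_some, Part.map_eq_map,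
    Part.map_some, Seq.seq, Part.bind_eq_bind]
  unfold Nat.rfindOpt
  have e : (fun n_1 => Part.some (decide ((if (G n (pre X n_1)).isSome = true then 0 else 1) = 0)) :
      ℕ →. Bool) = fun l => Part.some (G n (pre X l)).isSome := by
    funext l
    cases (G n (pre X l)).isSome <;> rfl
  apply Part.ext
  intro y
  constructor
  · intro h
    obtain ⟨a, ha, hy⟩ := Part.mem_bind_iff.1 h
    obtain ⟨b, hb, rfl⟩ := (Part.mem_map_iff _).1 ha
    refine Part.mem_bind_iff.2 ⟨b, ?_, ?_⟩
    · rw [e] at hb; exact hb
    · simpa using hy
  · intro h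
    obtain ⟨b, hb, hy⟩ := Part.mem_bind_iff.1 h
    refine Part.mem_bind_iff.2 ⟨Nat.pair n b, (Part.mem_map_iff _).2 ⟨b, ?_, rfl⟩, ?_⟩
    · rw [e]; exact hb
    · simpa using hy

end Pool.Agent.SJT
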