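import Pool.Agent.Lib.MP_377195_lc.Run
import Pool.Agent.Lib.MP_377195_lc.PrimAux

/-!
# The stage function of the construction, and its computability
-/

namespace Pool.Agent.SJT

open Encodable
open Nat.Partrec (Code)
open Nat.Partrec.Code

/-- The state of the construction. -/
abbrev St := List Ver × List Mkr × List (ℕ × ℕ × ℕ) × List (ℕ × ℕ)

/-- The input of a stage: the number entering `E`, the current computations, the bounds. -/
abbrev Inp := Option ℕ × List (Option (ℕ × ℕ)) × List ℕ

/-- Stage, input and state. -/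
abbrev Env := ℕ × Inp × St

namespace Env

abbrev s (e : Env) : ℕ := e.1
abbrev x (e : Env) : Option ℕ := e.2.1.1
abbrev cl (e : Env) : List (Option (ℕ × ℕ)) := e.2.1.2.1
abbrev hl (e : Env) : List ℕ := e.2.1.2.2
abbrev V (e : Env) : List Ver := e.2.2.1
abbrev M (e : Env) : List Mkr := e.2.2.2.1
abbrev T (e : Env) : List (ℕ × ℕ × ℕ) := e.2.2.2.2.1
abbrev C (e : Env) : List (ℕ × ℕ) := e.2.2.2.2.2

theorem prim_s : Primrec Env.s := Primrec.fst
theorem prim_x : Primrec Env.x := Primrec.fst.comp (Primrec.fst.comp Primrec.snd)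
theorem prim_cl : Primrec Env.cl :=
  Primrec.fst.comp (Primrec.snd.comp (Primrec.fst.comp Primrec.snd))
theorem prim_hl : Primrec Env.hl :=
  Primrec.snd.comp (Primrec.snd.comp (Primrec.fst.comp Primrec.snd))
theorem prim_V : Primrec Env.V := Primrec.fst.comp (Primrec.snd.comp Primrec.snd)
theorem prim_M : Primrec Env.M :=
  Primrec.fst.comp (Primrec.snd.comp (Primrec.snd.comp Primrec.snd))
theorem prim_T : Primrec Env.T :=
  Primrec.fst.comp (Primrec.snd.comp (Primrec.snd.comp (Primrec.snd.comp Primrec.snd)))
theorem prim_C : Primrec Env.C :=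
  Primrec.snd.comp (Primrec.snd.comp (Primrec.snd.comp (Primrec.snd.comp Primrec.snd)))

end Env

namespace Mkr

theorem prim_d : Primrec Mkr.d := Primrec.fst
theorem prim_k : Primrec Mkr.k := Primrec.fst.comp Primrec.snd
theorem prim_lev : Primrec Mkr.lev := Primrec.fst.comp (Primrec.snd.comp Primrec.snd)
theorem prim_m : Primrec Mkr.m :=
  Primrec.fst.comp (Primrec.snd.comp (Primrec.snd.comp Primrec.snd))
theorem prim_v : Primrec Mkr.v :=
  Primrec.fst.comp (Primrec.snd.comp (Primrec.snd.comp (Primrec.snd.comp Primrec.snd)))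
theorem prim_u : Primrec Mkr.u :=
  Primrec.snd.comp (Primrec.snd.comp (Primrec.snd.comp (Primrec.snd.comp Primrec.snd)))

end Mkr

/-- The marker is hit. -/
def hitB (e : Env) (a : Mkr) : Bool := (e.x.map fun x => decide (x < a.u)).getD false

theorem prim_hitB : Primrec₂ hitB := by
  refine Primrec.option_getD.comp (Primrec.option_map (Env.prim_x.comp Primrec.fst) ?_)
    (Primrec.const false)
  exact (Primrec.nat_lt.decide).comp Primrec.snd
    (Mkr.prim_u.comp (Primrec.snd.comp Primrec.fst))

/-- The hit markers. -/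
def hitsL (e : Env) : List Mkr := e.M.filter (hitB e)

theorem prim_hitsL : Primrec hitsL := primrec_filter Env.prim_M prim_hitB

/-- The versions after step 1. -/
def V1 (e : Env) : List Ver := e.V.filter fun w => (hitsL e).all fun a => decide (w.1 ≤ a.d)

theorem prim_V1 : Primrec V1 := by
  refine primrec_filter Env.prim_V ?_
  refine primrec_all (prim_hitsL.comp Primrec.fst) ?_
  exact (Primrec.nat_le.decide).comp (Primrec.fst.comp (Primrec.snd.comp Primrec.fst))
    (Mkr.prim_d.comp Primrec.snd)

/-- The markers after step 1. -/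
def M1 (e : Env) : List Mkr :=
  e.M.filter fun a => !hitB e a && (hitsL e).all fun b => decide (a.k ≤ b.d)

theorem prim_M1 : Primrec M1 := by
  refine primrec_filter Env.prim_M ?_
  refine Primrec.and.comp (Primrec.not.comp prim_hitB) ?_
  refine primrec_all (prim_hitsL.comp Primrec.fst) ?_
  exact (Primrec.nat_le.decide).comp (Mkr.prim_k.comp (Primrec.snd.comp Primrec.fst))
    (Mkr.prim_d.comp Primrec.snd)

/-- The enumerated pairs after step 1. -/
def C1 (e : Env) : List (ℕ × ℕ) := ((hitsL e).map fun a => (a.lev, a.d)) ++ e.C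

theorem prim_C1 : Primrec C1 := by
  refine Primrec.list_append.comp (Primrec.list_map prim_hitsL ?_) Env.prim_C
  exact Primrec.pair (Mkr.prim_lev.comp Primrec.snd) (Mkr.prim_d.comp Primrec.snd)

/-- The version is not covered. -/
def curB (e : Env) (w : Ver) : Bool :=
  (M1 e).all fun a => !(decide (a.k < w.1) && decide (w.1 < a.d))

theorem prim_curB : Primrec₂ curB := by
  refine primrec_all (prim_M1.comp Primrec.fst) ?_
  refine Primrec.not.comp (Primrec.and.comp ?_ ?_)
  · exact (Primrec.nat_lt.decide).comp (Mkr.prim_k.comp Primrec.snd)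
      (Primrec.fst.comp (Primrec.snd.comp Primrec.fst))
  · exact (Primrec.nat_lt.decide).comp (Primrec.fst.comp (Primrec.snd.comp Primrec.fst))
      (Mkr.prim_d.comp Primrec.snd)

/-- The list of current versions. -/
def curL (e : Env) : List Ver := (V1 e).filter (curB e)

theorem prim_curL : Primrec curL := primrec_filter prim_V1 prim_curB

/-- The initial segment of the characteristic function of the other side. -/
def ostr (e : Env) (lev : ℕ) : List Bool :=
  (List.range e.s).map fun d => (C1 e).any fun c => decide (c.2 = d) && !decide (c.1 % 2 = lev % 2)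

theorem prim_ostr : Primrec₂ ostr := by
  refine Primrec.list_map (Primrec.list_range.comp (Env.prim_s.comp Primrec.fst)) ?_
  refine primrec_any (prim_C1.comp (Primrec.fst.comp Primrec.fst)) ?_
  refine Primrec.and.comp ?_ (Primrec.not.comp ?_)
  · exact (Primrec.eq.decide).comp (Primrec.snd.comp Primrec.snd)
      (Primrec.snd.comp Primrec.fst)
  · exact (Primrec.eq.decide).comp
      (Primrec.nat_mod.comp (Primrec.fst.comp Primrec.snd) (Primrec.const 2))
      (Primrec.nat_mod.comp (Primrec.snd.comp (Primrec.fst.comp Primrec.fst)) (Primrec.const 2))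

/-- The trace condition. -/
def tcB (e : Env) (a : Mkr) : Bool :=
  (List.range (e.s + 1)).any fun l => (evaln e.s (Denumerable.ofNat Code (a.lev / 2))
    (encode ((ostr e a.lev).take l, Nat.pair (Nat.pair a.k a.m) a.d))).isSome

/-- One instance of the trace condition. -/
def tc1 (e : Env) (a : Mkr) (l : ℕ) : Bool :=
  (evaln e.s (Denumerable.ofNat Code (a.lev / 2))
    (encode ((ostr e a.lev).take l, Nat.pair (Nat.pair a.k a.m) a.d))).isSome

theorem prim_tc1 : Primrec fun q : (Env × Mkr) × ℕ => tc1 q.1.1 q.1.2 q.2 := by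
  have hlev : Primrec fun q : (Env × Mkr) × ℕ => q.1.2.lev :=
    Mkr.prim_lev.comp (Primrec.snd.comp Primrec.fst)
  have hs : Primrec fun q : (Env × Mkr) × ℕ => q.1.1.s :=
    Env.prim_s.comp (Primrec.fst.comp Primrec.fst)
  have hc : Primrec fun q : (Env × Mkr) × ℕ => Denumerable.ofNat Code (q.1.2.lev / 2) :=
    (Primrec.ofNat Code).comp (Primrec.nat_div.comp hlev (Primrec.const 2))
  have ht : Primrec fun q : (Env × Mkr) × ℕ => (ostr q.1.1 q.1.2.lev).take q.2 :=
    Primrec.list_take.comp Primrec.snd (prim_ostr.comp (Primrec.fst.comp Primrec.fst) hlev)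
  have hn : Primrec fun q : (Env × Mkr) × ℕ =>
      Nat.pair (Nat.pair q.1.2.k q.1.2.m) q.1.2.d := by
    refine Primrec₂.natPair.comp (Primrec₂.natPair.comp ?_ ?_) ?_
    · exact Mkr.prim_k.comp (Primrec.snd.comp Primrec.fst)
    · exact Mkr.prim_m.comp (Primrec.snd.comp Primrec.fst)
    · exact Mkr.prim_d.comp (Primrec.snd.comp Primrec.fst)
  have hen : Primrec fun q : (Env × Mkr) × ℕ => encode ((ostr q.1.1 q.1.2.lev).take q.2,
      Nat.pair (Nat.pair q.1.2.k q.1.2.m) q.1.2.d) := Primrec.encode.comp (Primrec.pair ht hn)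
  have h1 := Primrec.option_isSome.comp (primrec_evaln.comp (Primrec.pair (Primrec.pair hs hc) hen))
  exact h1

theorem prim_tcB : Primrec₂ tcB := by
  have h1 : Primrec fun q : Env × Mkr => (List.range (q.1.s + 1)).any (tc1 q.1 q.2) :=
    primrec_any (Primrec.list_range.comp (Primrec.succ.comp (Env.prim_s.comp Primrec.fst)))
      prim_tc1
  exact h1

/-- The number of triples for `(k, m)`. -/
def cntL (e : Env) (p : ℕ × ℕ) : ℕ :=
  (e.T.filter fun c => decide (c.1 = p.1) && decide (c.2.1 = p.2)).length

theorem prim_cntL : Primrec₂ cntL := by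
  refine Primrec.list_length.comp (primrec_filter (Env.prim_T.comp Primrec.fst) ?_)
  refine Primrec.and.comp ?_ ?_
  · exact (Primrec.eq.decide).comp (Primrec.fst.comp Primrec.snd)
      (Primrec.fst.comp (Primrec.snd.comp Primrec.fst))
  · exact (Primrec.eq.decide).comp (Primrec.fst.comp (Primrec.snd.comp Primrec.snd))
      (Primrec.snd.comp (Primrec.snd.comp Primrec.fst))

/-- Membership in the list of triples. -/
def inT (e : Env) (c : ℕ × ℕ × ℕ) : Bool := e.T.any fun b => decide (b = c)

theorem prim_inT : Primrec₂ inT := by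
  refine primrec_any (Env.prim_T.comp Primrec.fst) ?_
  exact (Primrec.eq.decide).comp Primrec.snd (Primrec.snd.comp Primrec.fst)

/-- Wish of type A. -/
def wAB (e : Env) (w : Ver) (a : Mkr) : Bool :=
  decide (a.k = w.1) && (!inT e (a.k, a.m, a.v) &&
    (decide (cntL e (a.k, a.m) < (e.hl[a.m]?).getD 0) && tcB e a))

theorem prim_wAB : Primrec fun q : (Env × Ver) × Mkr => wAB q.1.1 q.1.2 q.2 := by
  have he : Primrec fun q : (Env × Ver) × Mkr => q.1.1 := Primrec.fst.comp Primrec.fst
  have hk : Primrec fun q : (Env × Ver) × Mkr => q.2.k := Mkr.prim_k.comp Primrec.snd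
  have hm : Primrec fun q : (Env × Ver) × Mkr => q.2.m := Mkr.prim_m.comp Primrec.snd
  have hv : Primrec fun q : (Env × Ver) × Mkr => q.2.v := Mkr.prim_v.comp Primrec.snd
  refine Primrec.and.comp ?_ (Primrec.and.comp (Primrec.not.comp ?_) (Primrec.and.comp ?_ ?_))
  · exact (Primrec.eq.decide).comp hk (Primrec.fst.comp (Primrec.snd.comp Primrec.fst))
  · exact prim_inT.comp he (Primrec.pair hk (Primrec.pair hm hv))
  · refine (Primrec.nat_lt.decide).comp (prim_cntL.comp he (Primrec.pair hk hm)) ?_
    exact Primrec.option_getD.comp (Primrec.list_getElem?.comp (Env.prim_hl.comp he) hm)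
      (Primrec.const 0)
  · exact prim_tcB.comp he Primrec.snd

/-- The wish of type A of a version. -/
def wishA (e : Env) (w : Ver) : Option Mkr := ((M1 e).filter (wAB e w)).head?

theorem prim_wishA : Primrec₂ wishA :=
  Primrec.list_head?.comp (primrec_filter (prim_M1.comp Primrec.fst) prim_wAB)

/-- The candidate for a wish of type B. -/
def wB0 (e : Env) (w : Ver) (m : ℕ) : Option Mkr :=
  ((e.cl[m]?).getD none).bind fun p =>
    bif decide (w.1 ≤ m) && !inT e (w.1, m, p.1) then some (e.s, w.1, w.2, m, p.1, p.2) else none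

theorem prim_wB0 : Primrec fun q : (Env × Ver) × ℕ => wB0 q.1.1 q.1.2 q.2 := by
  refine Primrec.option_bind ?_ ?_
  · exact Primrec.option_getD.comp (Primrec.list_getElem?.comp
      (Env.prim_cl.comp (Primrec.fst.comp Primrec.fst)) Primrec.snd) (Primrec.const none)
  · have he : Primrec fun q : ((Env × Ver) × ℕ) × (ℕ × ℕ) => q.1.1.1 :=
      Primrec.fst.comp (Primrec.fst.comp Primrec.fst)
    have hw1 : Primrec fun q : ((Env × Ver) × ℕ) × (ℕ × ℕ) => q.1.1.2.1 :=
      Primrec.fst.comp (Primrec.snd.comp (Primrec.fst.comp Primrec.fst))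
    have hw2 : Primrec fun q : ((Env × Ver) × ℕ) × (ℕ × ℕ) => q.1.1.2.2 :=
      Primrec.snd.comp (Primrec.snd.comp (Primrec.fst.comp Primrec.fst))
    have hm : Primrec fun q : ((Env × Ver) × ℕ) × (ℕ × ℕ) => q.1.2 :=
      Primrec.snd.comp Primrec.fst
    have hp1 : Primrec fun q : ((Env × Ver) × ℕ) × (ℕ × ℕ) => q.2.1 :=
      Primrec.fst.comp Primrec.snd
    have hp2 : Primrec fun q : ((Env × Ver) × ℕ) × (ℕ × ℕ) => q.2.2 :=
      Primrec.snd.comp Primrec.snd
    refine Primrec.cond (Primrec.and.comp ?_ (Primrec.not.comp ?_)) ?_ (Primrec.const none)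
    · exact (Primrec.nat_le.decide).comp hw1 hm
    · exact prim_inT.comp he (Primrec.pair hw1 (Primrec.pair hm hp1))
    · exact Primrec.option_some.comp (Primrec.pair (Env.prim_s.comp he) (Primrec.pair hw1
        (Primrec.pair hw2 (Primrec.pair hm (Primrec.pair hp1 hp2)))))

/-- The wish of type B of a version. -/
def wishB (e : Env) (w : Ver) : Option Mkr :=
  (((List.range e.s).filterMap (wB0 e w)).head?).bind fun a =>
    bif (M1 e).any fun b => decide (b.k = a.k) && decide (b.m = a.m) then none else some a

theorem prim_wishB : Primrec₂ wishB := by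
  refine Primrec.option_bind ?_ ?_
  · exact Primrec.list_head?.comp (Primrec.listFilterMap
      (Primrec.list_range.comp (Env.prim_s.comp Primrec.fst)) prim_wB0)
  · refine Primrec.cond ?_ (Primrec.const none) (Primrec.option_some.comp Primrec.snd)
    refine primrec_any (prim_M1.comp (Primrec.fst.comp Primrec.fst)) ?_
    refine Primrec.and.comp ?_ ?_
    · exact (Primrec.eq.decide).comp (Mkr.prim_k.comp Primrec.snd)
        (Mkr.prim_k.comp (Primrec.snd.comp Primrec.fst))
    · exact (Primrec.eq.decide).comp (Mkr.prim_m.comp Primrec.snd)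
        (Mkr.prim_m.comp (Primrec.snd.comp Primrec.fst))

/-- The action of a version, if it has a wish. -/
def actO (e : Env) (w : Ver) : Option (Bool × Mkr) :=
  ((wishA e w).map fun a => (true, a)) <|> ((wishB e w).map fun a => (false, a))

theorem prim_actO : Primrec₂ actO := by
  refine Primrec.option_orElse.comp (Primrec.option_map prim_wishA ?_)
    (Primrec.option_map prim_wishB ?_)
  · exact Primrec.pair (Primrec.const true) Primrec.snd
  · exact Primrec.pair (Primrec.const false) Primrec.snd

/-- The first action. -/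
def firstAct (e : Env) : Option (Bool × Mkr) := ((curL e).filterMap (actO e)).head?

theorem prim_firstAct : Primrec firstAct :=
  Primrec.list_head?.comp (Primrec.listFilterMap prim_curL prim_actO)

/-- The state after an action of type A. -/
def resA (e : Env) (a : Mkr) : St :=
  ((V1 e).filter fun w => decide (w.1 ≤ a.k), (M1 e).filter fun b => decide (b.k ≤ a.k),
    (a.k, a.m, a.v) :: e.T, C1 e)

theorem prim_resA : Primrec₂ resA := by
  have hk : Primrec fun q : (Env × Mkr) => q.2.k := Mkr.prim_k.comp Primrec.snd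
  refine Primrec.pair ?_ (Primrec.pair ?_ (Primrec.pair ?_ (prim_C1.comp Primrec.fst)))
  · refine primrec_filter (prim_V1.comp Primrec.fst) ?_
    exact (Primrec.nat_le.decide).comp (Primrec.fst.comp Primrec.snd) (hk.comp Primrec.fst)
  · refine primrec_filter (prim_M1.comp Primrec.fst) ?_
    exact (Primrec.nat_le.decide).comp (Mkr.prim_k.comp Primrec.snd) (hk.comp Primrec.fst)
  · exact Primrec.list_cons.comp (Primrec.pair hk (Primrec.pair (Mkr.prim_m.comp Primrec.snd)
      (Mkr.prim_v.comp Primrec.snd))) (Env.prim_T.comp Primrec.fst)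

/-- The state after an action of type B. -/
def resB (e : Env) (a : Mkr) : St := (V1 e, a :: M1 e, e.T, C1 e)

theorem prim_resB : Primrec₂ resB :=
  Primrec.pair (prim_V1.comp Primrec.fst) (Primrec.pair
    (Primrec.list_cons.comp Primrec.snd (prim_M1.comp Primrec.fst))
    (Primrec.pair (Env.prim_T.comp Primrec.fst) (prim_C1.comp Primrec.fst)))

/-- The state after an idle stage. -/
def resC (e : Env) : St := (V1 e ++ [(e.s, (curL e).length)], M1 e, e.T, C1 e)

theorem prim_resC : Primrec resC := by
  refine Primrec.pair (Primrec.list_append.comp prim_V1 ?_) (Primrec.pair prim_M1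
    (Primrec.pair Env.prim_T prim_C1))
  exact Primrec.list_cons.comp (Primrec.pair Env.prim_s (Primrec.list_length.comp prim_curL))
    (Primrec.const [])

/-- One stage of the construction. -/
def stepF (e : Env) : St :=
  Option.casesOn (firstAct e) (resC e) fun p => bif p.1 then resA e p.2 else resB e p.2

theorem prim_stepF : Primrec stepF := by
  refine Primrec.option_casesOn prim_firstAct prim_resC ?_
  refine Primrec.cond (Primrec.fst.comp Primrec.snd) ?_ ?_
  · exact prim_resA.comp Primrec.fst (Primrec.snd.comp Primrec.snd)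
  · exact prim_resB.comp Primrec.fst (Primrec.snd.comp Primrec.snd)

variable {E : Set ℕ} {f : ℕ →. ℕ}

/-- The input of stage `s`. -/
def inp (ap : Approx E f) (h : ℕ → ℕ) (s : ℕ) : Inp :=
  (ap.g s, (List.range s).map fun m => ap.c m s, (List.range s).map h)

theorem comp_inp (ap : Approx E f) {h : ℕ → ℕ} (hh : Computable h) : Computable (inp ap h) := by
  refine Computable.pair ap.g_comp (Computable.pair ?_ ?_)
  · exact computable_map_range Computable.id (ap.c_comp.comp Computable.snd Computable.fst)
  · exact computable_map_range Computable.id (hh.comp Computable.snd)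

/-- The state before stage `s`. -/
def state (ap : Approx E f) (h : ℕ → ℕ) : ℕ → St
  | 0 => ([], [], [], [])
  | s + 1 => stepF (s, inp ap h s, state ap h s)

theorem comp_state (ap : Approx E f) {h : ℕ → ℕ} (hh : Computable h) :
    Computable (state ap h) := by
  have h1 : Computable fun s : ℕ => (Nat.rec (([], [], [], []) : St)
      (fun s σ => stepF (s, inp ap h s, σ)) s : St) := by
    refine Computable.nat_rec (f := fun s : ℕ => s) (g := fun _ => (([], [], [], []) : St))
      (h := fun (_ : ℕ) (q : ℕ × St) => stepF (q.1, inp ap h q.1, q.2)) Computable.id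
      (Computable.const _) ?_
    refine prim_stepF.to_comp.comp (Computable.pair (Computable.fst.comp Computable.snd)
      (Computable.pair ((comp_inp ap hh).comp (Computable.fst.comp Computable.snd))
        (Computable.snd.comp Computable.snd)))
  refine h1.of_eq fun s => ?_
  induction s with
  | zero => rfl
  | succ s ih => simp only [state, ← ih]

/-- The environment of stage `s`. -/
def env (ap : Approx E f) (h : ℕ → ℕ) (s : ℕ) : Env := (s, inp ap h s, state ap h s)

/-- The construction, as finite sets. -/
def preOf (ap : Approx E f) (h : ℕ → ℕ) : Pre where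
  V s := (state ap h s).1.toFinset
  M s := (state ap h s).2.1.toFinset
  S s := (state ap h s).2.2.1.toFinset
  C s := (state ap h s).2.2.2.toFinset

end Pool.Agent.SJT
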