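import Pool.Agent.Lib.MP_377195_lc.Run

/-!
# Verification of the construction, part 1: combinatorics of versions and markers
-/

namespace Pool.Agent.SJT

namespace Pre

variable {E : Set ℕ} {f : ℕ →. ℕ} {r : Pre} {ap : Approx E f} {h : ℕ → ℕ}

theorem mem_V' {s : ℕ} {w : Ver} :
    w ∈ r.V' ap s ↔ w ∈ r.V s ∧ ∀ a ∈ r.M s, Hit ap s a → w.1 ≤ a.d := by
  classical
  simp [V']

theorem mem_M' {s : ℕ} {a : Mkr} :
    a ∈ r.M' ap s ↔ a ∈ r.M s ∧ ¬ Hit ap s a ∧ ∀ b ∈ r.M s, Hit ap s b → a.k ≤ b.d := by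
  classical
  simp [M']

theorem V'_sub {s : ℕ} {w : Ver} (hw : w ∈ r.V' ap s) : w ∈ r.V s := (mem_V'.1 hw).1

theorem M'_sub {s : ℕ} {a : Mkr} (ha : a ∈ r.M' ap s) : a ∈ r.M s := (mem_M'.1 ha).1

theorem Cur.mem {s : ℕ} {w : Ver} (hw : r.Cur ap s w) : w ∈ r.V' ap s := hw.1

section
variable (R : r.IsRun ap h)
include R

/-- A version alive at `s + 1` was alive before or is born at stage `s`. -/
theorem V_succ {s : ℕ} {w : Ver} (hw : w ∈ r.V (s + 1)) : w ∈ r.V' ap s ∨ w.1 = s := by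
  classical
  rcases R.step s with ⟨v, a, -, hV, -, -⟩ | ⟨v, a, -, hV, -, -⟩ | ⟨-, hV, -, -⟩
  · rw [hV] at hw
    exact Or.inl (Finset.mem_filter.1 hw).1
  · rw [hV] at hw; exact Or.inl hw
  · rw [hV] at hw
    rcases Finset.mem_insert.1 hw with hw | hw
    · right; rw [hw]
    · exact Or.inl hw

theorem V_lt {s : ℕ} {w : Ver} (hw : w ∈ r.V s) : w.1 < s := by
  induction s with
  | zero => rw [R.V0] at hw; simp at hw
  | succ s ih =>
    rcases V_succ R hw with hw | hw
    · exact Nat.lt_succ_of_lt (ih (V'_sub hw))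
    · omega

theorem V_back_one {s : ℕ} {w : Ver} (hw : w ∈ r.V (s + 1)) (hs : w.1 < s) : w ∈ r.V' ap s := by
  rcases V_succ R hw with hw | hw
  · exact hw
  · omega

theorem V_back {s t : ℕ} {w : Ver} (hw : w ∈ r.V s) (ht : w.1 < t) (hts : t ≤ s) :
    w ∈ r.V t := by
  induction s with
  | zero => rw [R.V0] at hw; simp at hw
  | succ s ih =>
    rcases Nat.lt_or_ge s t with h1 | h1
    · have : t = s + 1 := by omega
      rw [this]; exact hw
    · exact ih (V'_sub (V_back_one R hw (by omega))) h1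

theorem V'_back {s t : ℕ} {w : Ver} (hw : w ∈ r.V s) (ht : w.1 < t) (hts : t < s) :
    w ∈ r.V' ap t :=
  V_back_one R (V_back R hw (by omega) (Nat.succ_le_of_lt hts)) ht

theorem M_succ {s : ℕ} {a : Mkr} (ha : a ∈ r.M (s + 1)) :
    a ∈ r.M' ap s ∨ ∃ w, r.ActB ap h s w a := by
  classical
  rcases R.step s with ⟨v, b, -, -, hM, -⟩ | ⟨v, b, hb, -, hM, -⟩ | ⟨-, -, hM, -⟩
  · rw [hM] at ha
    exact Or.inl (Finset.mem_filter.1 ha).1
  · rw [hM] at ha
    rcases Finset.mem_insert.1 ha with ha | ha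
    · right; rw [ha]; exact ⟨v, hb⟩
    · exact Or.inl ha
  · rw [hM] at ha; exact Or.inl ha

theorem M_lt {s : ℕ} {a : Mkr} (ha : a ∈ r.M s) : a.d < s := by
  induction s with
  | zero => rw [R.M0] at ha; simp at ha
  | succ s ih =>
    rcases M_succ R ha with ha | ⟨w, hw⟩
    · exact Nat.lt_succ_of_lt (ih (M'_sub ha))
    · have := hw.2.1.1
      omega

theorem M_back_one {s : ℕ} {a : Mkr} (ha : a ∈ r.M (s + 1)) (hs : a.d < s) : a ∈ r.M' ap s := by
  rcases M_succ R ha with ha | ⟨w, hw⟩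
  · exact ha
  · have := hw.2.1.1
    omega

theorem M_back {s t : ℕ} {a : Mkr} (ha : a ∈ r.M s) (ht : a.d < t) (hts : t ≤ s) :
    a ∈ r.M t := by
  induction s with
  | zero => rw [R.M0] at ha; simp at ha
  | succ s ih =>
    rcases Nat.lt_or_ge s t with h1 | h1
    · have : t = s + 1 := by omega
      rw [this]; exact ha
    · exact ih (M'_sub (M_back_one R ha (by omega))) h1

theorem M'_back {s t : ℕ} {a : Mkr} (ha : a ∈ r.M s) (ht : a.d < t) (hts : t < s) :
    a ∈ r.M' ap t :=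
  M_back_one R (M_back R ha (by omega) (Nat.succ_le_of_lt hts)) ht

/-- The birth of a marker. -/
theorem M_birth {s : ℕ} {a : Mkr} (ha : a ∈ r.M s) : ∃ w, r.ActB ap h a.d w a := by
  have hlt := M_lt R ha
  have h1 := M_back R ha (Nat.lt_succ_self _) hlt
  rcases M_succ R h1 with h2 | h2
  · have := M_lt R (M'_sub h2)
    omega
  · exact h2

theorem M_birth' {s : ℕ} {a : Mkr} (ha : a ∈ r.M s) : r.ActB ap h a.d (a.k, a.lev) a := by
  obtain ⟨w, hw⟩ := M_birth R ha
  have : w = (a.k, a.lev) := by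
    obtain ⟨w1, w2⟩ := w
    have h1 := hw.2.1.2.1
    have h2 := hw.2.1.2.2.1
    simp only at h1 h2
    rw [h1, h2]
  rw [this] at hw
  exact hw

/-- At a stage where a marker is appointed, no version is born. -/
theorem V_of_ActB {s : ℕ} {w : Ver} {a : Mkr} (ha : r.ActB ap h s w a) :
    r.V (s + 1) = r.V' ap s := by
  classical
  rcases R.step s with ⟨v, b, hb, -⟩ | ⟨v, b, hb, hV, -⟩ | ⟨hI, -⟩
  · exfalso
    rcases lt_trichotomy v.1 w.1 with h1 | h1 | h1
    · exact (ha.2.2.2 v hb.1 h1).1 b hb.2.1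
    · have hb' := hb.2.1
      exact ha.2.2.1 b ⟨hb'.1, hb'.2.1.trans h1, hb'.2.2⟩
    · exact (hb.2.2 w ha.1 h1).2 a ha.2.1
  · exact hV
  · exfalso
    exact (hI w ha.1).2 a ha.2.1

theorem not_born_of_marker {s s' : ℕ} {w : Ver} {a : Mkr} (ha : a ∈ r.M s) (hw : w ∈ r.V s') :
    w.1 ≠ a.d := by
  intro h1
  have h2 := M_birth' R ha
  have h3 := V_of_ActB R h2
  have h4 := V_lt R hw
  have h5 : w ∈ r.V (a.d + 1) := V_back R hw (by omega) (by omega)
  rw [h3] at h5
  have := V_lt R (V'_sub h5)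
  omega

/-- Killing is closed upwards: if `k` survives then so does every smaller version. -/
theorem kill_down_one {s : ℕ} {j k : Ver} (hj : j ∈ r.V s) (hjk : j.1 ≤ k.1)
    (hk : k ∈ r.V (s + 1)) (hks : k ∈ r.V s) : j ∈ r.V (s + 1) := by
  classical
  have hk' : k ∈ r.V' ap s := V_back_one R hk (V_lt R hks)
  have hj' : j ∈ r.V' ap s := by
    rw [mem_V'] at hk' ⊢
    exact ⟨hj, fun a ha hh => hjk.trans (hk'.2 a ha hh)⟩
  rcases R.step s with ⟨v, b, hb, hV, -⟩ | ⟨v, b, hb, hV, -⟩ | ⟨hI, hV, -⟩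
  · rw [hV] at hk ⊢
    rw [Finset.mem_filter] at hk ⊢
    exact ⟨hj', hjk.trans hk.2⟩
  · rw [hV]; exact hj'
  · rw [hV]; exact Finset.mem_insert_of_mem hj'

theorem kill_down {s s' : ℕ} {j k : Ver} (hj : j ∈ r.V s) (hjk : j.1 ≤ k.1)
    (hks : k ∈ r.V s) (hss : s ≤ s') (hk : k ∈ r.V s') : j ∈ r.V s' := by
  induction s', hss using Nat.le_induction with
  | base => exact hj
  | succ n hn ih =>
    have hkn : k ∈ r.V n := V_back R hk (by have := V_lt R hks; omega) (Nat.le_succ _)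
    exact kill_down_one R (ih hkn) hjk hk hkn

theorem kill_down' {s s' : ℕ} {j k : Ver} (hj : j ∈ r.V s) (hjk : j.1 ≤ k.1)
    (hks : k ∈ r.V s) (hss : s ≤ s') (hk : k ∈ r.V' ap s') : j ∈ r.V' ap s' := by
  have h1 := kill_down R hj hjk hks hss (V'_sub hk)
  rw [mem_V'] at hk ⊢
  exact ⟨h1, fun a ha hh => hjk.trans (hk.2 a ha hh)⟩

/-- The owner of an active marker is alive. -/
theorem M_owner {s : ℕ} {a : Mkr} (ha : a ∈ r.M s) : (a.k, a.lev) ∈ r.V s ∧ a.k < a.d := by
  classical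
  induction s with
  | zero => rw [R.M0] at ha; simp at ha
  | succ s ih =>
    have key : (a.k, a.lev) ∈ r.V' ap s ∧ a.k < a.d := by
      rcases M_succ R ha with ha | ⟨w, hw⟩
      · obtain ⟨h1, h2⟩ := ih (M'_sub ha)
        refine ⟨mem_V'.2 ⟨h1, (mem_M'.1 ha).2.2⟩, h2⟩
      · have h1 := M_birth' R ha
        have h2 := hw.2.1.1
        rw [h2] at h1
        refine ⟨h1.1.1, ?_⟩
        have := V_lt R (V'_sub h1.1.1)
        rw [h2]; exact this
    refine ⟨?_, key.2⟩
    rcases R.step s with ⟨v, b, hb, hV, hM, -⟩ | ⟨v, b, hb, hV, -⟩ | ⟨hI, hV, -⟩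
    · rw [hV]
      rw [hM] at ha
      exact Finset.mem_filter.2 ⟨key.1, (Finset.mem_filter.1 ha).2⟩
    · rw [hV]; exact key.1
    · rw [hV]; exact Finset.mem_insert_of_mem key.1

theorem M'_owner {s : ℕ} {a : Mkr} (ha : a ∈ r.M' ap s) : (a.k, a.lev) ∈ r.V' ap s := by
  have h1 := (M_owner R (M'_sub ha)).1
  rw [mem_M'] at ha
  exact mem_V'.2 ⟨h1, ha.2.2⟩

/-- A marker stays active as long as its owner is alive and it is not hit. -/
theorem M_persist_one {s : ℕ} {a : Mkr} {l : ℕ} (ha : a ∈ r.M s) (hn : ¬ Hit ap s a)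
    (ho : (a.k, l) ∈ r.V (s + 1)) : a ∈ r.M' ap s ∧ a ∈ r.M (s + 1) := by
  classical
  have hlt : a.k < s := by
    have h1 := M_owner R ha
    have h2 := M_lt R ha
    omega
  have ho' : (a.k, l) ∈ r.V' ap s := V_back_one R ho hlt
  have ha' : a ∈ r.M' ap s := mem_M'.2 ⟨ha, hn, (mem_V'.1 ho').2⟩
  refine ⟨ha', ?_⟩
  rcases R.step s with ⟨v, b, hb, hV, hM, -⟩ | ⟨v, b, hb, hV, hM, -⟩ | ⟨hI, hV, hM, -⟩
  · rw [hM]
    rw [hV] at ho
    exact Finset.mem_filter.2 ⟨ha', (Finset.mem_filter.1 ho).2⟩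
  · rw [hM]; exact Finset.mem_insert_of_mem ha'
  · rw [hM]; exact ha'

theorem M_persist {s s' : ℕ} {a : Mkr} {l : ℕ} (ha : a ∈ r.M s) (hss : s ≤ s')
    (hn : ∀ t, s ≤ t → t < s' → ¬ Hit ap t a) (ho : (a.k, l) ∈ r.V s') : a ∈ r.M s' := by
  induction s', hss using Nat.le_induction with
  | base => exact ha
  | succ n hn' ih =>
    have hk : a.k < n := by
      have h1 := M_owner R ha
      have h2 := M_lt R ha
      omega
    have hon : (a.k, l) ∈ r.V n := V_back R ho hk (Nat.le_succ _)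
    have h1 := ih (fun t h1 h2 => hn t h1 (by omega)) hon
    exact (M_persist_one R h1 (hn n hn' (Nat.lt_succ_self _)) ho).2

theorem M'_persist {s s' : ℕ} {a : Mkr} {l : ℕ} (ha : a ∈ r.M s) (hss : s ≤ s')
    (hn : ∀ t, s ≤ t → t ≤ s' → ¬ Hit ap t a) (ho : (a.k, l) ∈ r.V' ap s') : a ∈ r.M' ap s' := by
  have h1 := M_persist R ha hss (fun t h1 h2 => hn t h1 h2.le) (V'_sub ho)
  exact mem_M'.2 ⟨h1, hn s' hss le_rfl, (mem_V'.1 ho).2⟩

/-- The version survives: markers appointed before its birth and active at it stay active. -/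
theorem persist_below_one {s : ℕ} {a : Mkr} {w : Ver} (ha : a ∈ r.M s) (hd : a.d < w.1)
    (hw : w ∈ r.V s) (hw' : w ∈ r.V (s + 1)) : a ∈ r.M (s + 1) := by
  have h1 := V_back_one R hw' (V_lt R hw)
  have hn : ¬ Hit ap s a := by
    intro hh
    have := (mem_V'.1 h1).2 a ha hh
    omega
  have ho := M_owner R ha
  exact (M_persist_one R ha hn (kill_down_one R ho.1 (by simp only; omega) hw' hw)).2

theorem persist_below {s s' : ℕ} {a : Mkr} {w : Ver} (ha : a ∈ r.M s) (hd : a.d < w.1)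
    (hw : w ∈ r.V s) (hss : s ≤ s') (hw' : w ∈ r.V s') : a ∈ r.M s' := by
  induction s', hss using Nat.le_induction with
  | base => exact ha
  | succ n hn' ih =>
    have hk := V_lt R hw
    have hon : w ∈ r.V n := V_back R hw' (by omega) (Nat.le_succ _)
    exact persist_below_one R (ih hon) hd hon hw'

theorem persist_below' {s s' : ℕ} {a : Mkr} {w : Ver} (ha : a ∈ r.M s) (hd : a.d < w.1)
    (hw : w ∈ r.V s) (hss : s ≤ s') (hw' : w ∈ r.V' ap s') : a ∈ r.M' ap s' := by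
  have h1 := persist_below R ha hd hw hss (V'_sub hw')
  have ho := M_owner R ha
  rw [mem_V'] at hw'
  refine mem_M'.2 ⟨h1, fun hh => ?_, fun b hb hh => ?_⟩
  · have := hw'.2 a h1 hh; omega
  · have := hw'.2 b hb hh; omega

/-- The level of a version is unique. -/
theorem level_unique {s s' : ℕ} {k l l' : ℕ} (h1 : (k, l) ∈ r.V s) (h2 : (k, l') ∈ r.V s') :
    l = l' := by
  classical
  have a1 := V_lt R h1
  have a2 := V_lt R h2
  simp only at a1 a2
  have b1 := V_back R h1 (Nat.lt_succ_self k) a1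
  have b2 := V_back R h2 (Nat.lt_succ_self k) a2
  have nb : ∀ l, (k, l) ∉ r.V' ap k := fun l hl => by
    have := V_lt R (V'_sub hl); simp at this
  rcases R.step k with ⟨v, b, hb, hV, -⟩ | ⟨v, b, hb, hV, -⟩ | ⟨hI, hV, -⟩
  · rw [hV] at b1
    exact absurd (Finset.mem_filter.1 b1).1 (nb _)
  · rw [hV] at b1
    exact absurd b1 (nb _)
  · rw [hV] at b1 b2
    rcases Finset.mem_insert.1 b1 with c1 | c1
    · rcases Finset.mem_insert.1 b2 with c2 | c2
      · rw [← c1] at c2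
        exact (Prod.mk.inj c2).2.symm
      · exact absurd c2 (nb _)
    · exact absurd c1 (nb _)

/-- Birth of a version. -/
theorem V_birth {s : ℕ} {k l : ℕ} (h1 : (k, l) ∈ r.V s) :
    r.Idle ap h k ∧ (∃ F : Finset Ver, (∀ w, w ∈ F ↔ r.Cur ap k w) ∧ l = F.card) ∧
      r.M (k + 1) = r.M' ap k ∧ ∀ w, w ∈ r.V' ap k → w ∈ r.V (k + 1) := by
  classical
  have a1 := V_lt R h1
  simp only at a1
  have b1 := V_back R h1 (Nat.lt_succ_self k) a1
  have nb : ∀ l, (k, l) ∉ r.V' ap k := fun l hl => by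
    have := V_lt R (V'_sub hl); simp at this
  rcases R.step k with ⟨v, b, hb, hV, -⟩ | ⟨v, b, hb, hV, -⟩ | ⟨hI, hV, hM, -⟩
  · rw [hV] at b1
    exact absurd (Finset.mem_filter.1 b1).1 (nb _)
  · rw [hV] at b1
    exact absurd b1 (nb _)
  · refine ⟨hI, ⟨(r.V' ap k).filter (fun w => r.Cur ap k w), fun w => ?_, ?_⟩, hM, fun w hw => ?_⟩
    · rw [Finset.mem_filter]
      exact ⟨fun hw => hw.2, fun hw => ⟨hw.1, hw⟩⟩
    · rw [hV] at b1
      rcases Finset.mem_insert.1 b1 with c1 | c1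
      · exact (Prod.mk.inj c1).2
      · exact absurd c1 (nb _)
    · rw [hV]; exact Finset.mem_insert_of_mem hw

/-- At most one active marker for each pair `(k, m)`. -/
theorem M_unique {s : ℕ} {a b : Mkr} (ha : a ∈ r.M s) (hb : b ∈ r.M s) (hk : a.k = b.k)
    (hm : a.m = b.m) : a = b := by
  classical
  induction s with
  | zero => rw [R.M0] at ha; simp at ha
  | succ s ih =>
    rcases R.step s with ⟨v, c, hc, hV, hM, -⟩ | ⟨v, c, hc, hV, hM, -⟩ | ⟨hI, hV, hM, -⟩
    · rw [hM] at ha hb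
      exact ih (M'_sub (Finset.mem_filter.1 ha).1) (M'_sub (Finset.mem_filter.1 hb).1)
    · rw [hM] at ha hb
      have hw := hc.2.1.2.2.2.2.2.2.2.2
      rcases Finset.mem_insert.1 ha with ha | ha
      · rcases Finset.mem_insert.1 hb with hb | hb
        · rw [ha, hb]
        · exfalso
          exact hw b hb ⟨by rw [← hk, ha], by rw [← hm, ha]⟩
      · rcases Finset.mem_insert.1 hb with hb | hb
        · exfalso
          exact hw a ha ⟨by rw [hk, hb], by rw [hm, hb]⟩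
        · exact ih (M'_sub ha) (M'_sub hb)
    · rw [hM] at ha hb
      exact ih (M'_sub ha) (M'_sub hb)

/-- Markers with the same appointment stage are equal. -/
theorem M_eq_of_d {s s' : ℕ} {a b : Mkr} (ha : a ∈ r.M s) (hb : b ∈ r.M s') (hd : a.d = b.d) :
    a = b := by
  classical
  have h1 := M_back R ha (Nat.lt_succ_self _) (M_lt R ha)
  have h2 := M_back R hb (Nat.lt_succ_self _) (M_lt R hb)
  rw [← hd] at h2
  rcases R.step a.d with ⟨v, c, hc, hV, hM, -⟩ | ⟨v, c, hc, hV, hM, -⟩ | ⟨hI, hV, hM, -⟩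
  · rw [hM] at h1
    have := M_lt R (M'_sub (Finset.mem_filter.1 h1).1)
    omega
  · rw [hM] at h1 h2
    rcases Finset.mem_insert.1 h1 with h1 | h1
    · rcases Finset.mem_insert.1 h2 with h2 | h2
      · rw [h1, h2]
      · have := M_lt R (M'_sub h2); omega
    · have := M_lt R (M'_sub h1); omega
  · rw [hM] at h1
    have := M_lt R (M'_sub h1); omega

theorem M_le {s : ℕ} {a : Mkr} (ha : a ∈ r.M s) : a.k ≤ a.m ∧ a.m < a.d := by
  have := (M_birth' R ha).2.1
  exact ⟨this.2.2.2.1, this.2.2.2.2.1⟩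

/-- The computation attached to an active marker is the current one. -/
theorem M'_comp {s : ℕ} {a : Mkr} (ha : a ∈ r.M' ap s) : ap.c a.m s = some (a.v, a.u) := by
  have key : ∀ s, a ∈ r.M (s + 1) → ap.c a.m s = some (a.v, a.u) := by
    intro s
    induction s with
    | zero =>
      intro ha
      have := M_lt R ha
      have hd : a.d = 0 := by omega
      have h1 := (M_birth' R ha).2.1.2.2.2.2.2.1
      rw [hd] at h1; exact h1
    | succ s ih =>
      intro ha
      rcases M_succ R ha with ha' | ⟨w, hw⟩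
      · have h1 := ih (M'_sub ha')
        refine ap.c_persist _ _ _ _ h1 fun x hx => ?_
        have h2 := (mem_M'.1 ha').2.1
        by_contra hcon
        exact h2 ⟨x, hx, not_le.1 hcon⟩
      · exact hw.2.1.2.2.2.2.2.1
  cases s with
  | zero => have := M'_sub ha; rw [R.M0] at this; simp at this
  | succ s =>
    have h1 := key s (M'_sub ha)
    refine ap.c_persist _ _ _ _ h1 fun x hx => ?_
    have h2 := (mem_M'.1 ha).2.1
    by_contra hcon
    exact h2 ⟨x, hx, not_le.1 hcon⟩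

theorem M_use {s : ℕ} {a : Mkr} (ha : a ∈ r.M s) : a.u ≤ a.d :=
  (ap.c_use _ _ _ _ (M_birth' R ha).2.1.2.2.2.2.2.1).1

theorem S_mono_one {s : ℕ} : r.S s ⊆ r.S (s + 1) := by
  classical
  rcases R.step s with ⟨v, c, hc, hV, hM, hS⟩ | ⟨v, c, hc, hV, hM, hS⟩ | ⟨hI, hV, hM, hS⟩
  · rw [hS]; exact Finset.subset_insert _ _
  · rw [hS]
  · rw [hS]

theorem S_mono {s s' : ℕ} (hss : s ≤ s') : r.S s ⊆ r.S s' := by
  induction s', hss using Nat.le_induction with
  | base => exact fun _ h => h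
  | succ n _ ih => exact ih.trans (S_mono_one R)

/-- A triple is added by an action. -/
theorem S_birth {s : ℕ} {e : ℕ × ℕ × ℕ} (he : e ∈ r.S s) :
    ∃ t < s, ∃ w a, r.ActA ap h t w a ∧ e = (a.k, a.m, a.v) := by
  classical
  induction s with
  | zero => rw [R.S0] at he; simp at he
  | succ s ih =>
    rcases R.step s with ⟨v, c, hc, hV, hM, hS⟩ | ⟨v, c, hc, hV, hM, hS⟩ | ⟨hI, hV, hM, hS⟩
    · rw [hS] at he
      rcases Finset.mem_insert.1 he with he | he
      · exact ⟨s, Nat.lt_succ_self _, v, c, hc, he⟩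
      · obtain ⟨t, ht, hh⟩ := ih he; exact ⟨t, by omega, hh⟩
    · rw [hS] at he
      obtain ⟨t, ht, hh⟩ := ih he; exact ⟨t, by omega, hh⟩
    · rw [hS] at he
      obtain ⟨t, ht, hh⟩ := ih he; exact ⟨t, by omega, hh⟩

/-- Bound on the number of triples. -/
theorem cnt_le (s k m : ℕ) : r.cnt s k m ≤ h m := by
  classical
  induction s with
  | zero => unfold cnt; rw [R.S0]; simp
  | succ s ih =>
    rcases R.step s with ⟨v, c, hc, hV, hM, hS⟩ | ⟨v, c, hc, hV, hM, hS⟩ | ⟨hI, hV, hM, hS⟩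
    · unfold cnt at ih ⊢
      rw [hS, Finset.filter_insert]
      split_ifs with hkm
      · refine (Finset.card_insert_le _ _).trans ?_
        have := hc.2.1.2.2.2.1
        unfold cnt at this
        simp only at hkm
        rw [hkm.1, hkm.2] at this
        exact this
      · exact ih
    · unfold cnt at ih ⊢
      rw [hS]; exact ih
    · unfold cnt at ih ⊢
      rw [hS]; exact ih

theorem C_mono {s s' : ℕ} (hss : s ≤ s') : r.C s ⊆ r.C s' := by
  induction s', hss using Nat.le_induction with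
  | base => exact fun _ h => h
  | succ n _ ih =>
    intro e he
    obtain ⟨l, d⟩ := e
    exact (R.C_succ _ _ _).2 (Or.inr (ih he))

/-- An enumerated number was a marker that got hit. -/
theorem C_birth {s l d : ℕ} (he : (l, d) ∈ r.C s) :
    ∃ t < s, ∃ a ∈ r.M t, Hit ap t a ∧ a.lev = l ∧ a.d = d := by
  induction s with
  | zero => rw [R.C0] at he; simp at he
  | succ s ih =>
    rcases (R.C_succ _ _ _).1 he with ⟨a, ha, h1⟩ | he
    · exact ⟨s, Nat.lt_succ_self _, a, ha, h1⟩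
    · obtain ⟨t, ht, hh⟩ := ih he; exact ⟨t, by omega, hh⟩

end

end Pre

end Pool.Agent.SJT
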