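import Pool.Agent.Lib.MP_377195_lc.Verify1

/-!
# Verification of the construction, part 2: true stages and stable versions
-/

namespace Pool.Agent.SJT

variable {E : Set ℕ} {f : ℕ →. ℕ}

/-- A true stage of the enumeration. -/
def TrueStage (ap : Approx E f) (t : ℕ) : Prop :=
  ∃ x, ap.g t = some x ∧ ∀ s > t, ∀ y, ap.g s = some y → x < y

theorem exists_trueStage (ap : Approx E f) (hE : E.Infinite) (n : ℕ) :
    ∃ t ≥ n, TrueStage ap t := by
  classical
  have h1 : ∃ x, ∃ t ≥ n, ap.g t = some x := by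
    by_contra hcon
    push Not at hcon
    apply hE
    have : E ⊆ (fun t => (ap.g t).getD 0) '' (Finset.range n : Set ℕ) := by
      intro x hx
      obtain ⟨s, hs⟩ := (ap.g_range x).1 hx
      refine ⟨s, ?_, by simp [hs]⟩
      by_contra h2
      simp only [Finset.coe_range, Set.mem_Iio, not_lt] at h2
      exact hcon x s h2 hs
    exact Set.Finite.subset (Set.Finite.image _ (Finset.finite_toSet _)) this
  obtain ⟨t, ht, hx⟩ := Nat.find_spec h1
  refine ⟨t, ht, Nat.find h1, hx, fun s hs y hy => ?_⟩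
  have h2 : Nat.find h1 ≤ y := Nat.find_min' h1 ⟨s, by omega, hy⟩
  rcases Nat.lt_or_ge (Nat.find h1) y with h3 | h3
  · exact h3
  · exfalso
    have h4 : y = Nat.find h1 := by omega
    rw [h4] at hy
    have := ap.g_inj _ _ _ hx hy
    omega

/-- At a true stage every computation is correct and permanent. -/
theorem TrueStage.comp {ap : Approx E f} {t m v u : ℕ} (ht : TrueStage ap t)
    (hc : ap.c m t = some (v, u)) : v ∈ f m ∧ ∀ s ≥ t, ap.c m s = some (v, u) := by
  obtain ⟨x, hx, hlt⟩ := ht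
  have hu : u ≤ x := (ap.c_use _ _ _ _ hc).2 x hx
  refine ⟨ap.c_sound _ _ _ _ hc fun s hs y hy => ?_, fun s hs => ?_⟩
  · have := hlt s hs y hy; omega
  · induction s, hs using Nat.le_induction with
    | base => exact hc
    | succ n hn ih =>
      refine ap.c_persist _ _ _ _ ih fun y hy => ?_
      have := hlt (n + 1) (by omega) y hy
      omega

namespace Pre

variable {r : Pre} {ap : Approx E f} {h : ℕ → ℕ}

theorem TrueStage.not_hit {t s : ℕ} {a : Mkr} (ht : TrueStage ap t) (ha : ¬ Hit ap t a)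
    (hs : t ≤ s) : ¬ Hit ap s a := by
  rcases Nat.eq_or_lt_of_le hs with h1 | h1
  · rw [← h1]; exact ha
  · obtain ⟨x, hx, hlt⟩ := ht
    rintro ⟨y, hy, hyu⟩
    have h2 := hlt s h1 y hy
    exact ha ⟨x, hx, by omega⟩

/-- The version `w` is current at all sufficiently large true stages. -/
def Stable (r : Pre) (ap : Approx E f) (w : Ver) : Prop :=
  ∃ t0, ∀ t ≥ t0, TrueStage ap t → r.Cur ap t w

section
variable (R : r.IsRun ap h)
include R

theorem Cur.back {s t : ℕ} {w : Ver} (hw : r.Cur ap s w) (ht : TrueStage ap t) (hts : t ≤ s)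
    (hwt : w.1 < t) : r.Cur ap t w := by
  rcases Nat.eq_or_lt_of_le hts with h1 | h1
  · rw [h1]; exact hw
  have hwV : w ∈ r.V' ap t := V'_back R (V'_sub hw.1) hwt h1
  refine ⟨hwV, fun a ha hcov => ?_⟩
  have hn : ∀ u, t ≤ u → u ≤ s → ¬ Hit ap u a := fun u hu _ =>
    TrueStage.not_hit ht (mem_M'.1 ha).2.1 hu
  have ho := M'_owner R ha
  have ho' : (a.k, a.lev) ∈ r.V' ap s :=
    kill_down' R (V'_sub ho) hcov.1.le (V'_sub hwV) hts hw.1
  exact hw.2 a (M'_persist R (M'_sub ha) hts hn ho') hcov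

theorem Stable.cur {w : Ver} (hw : Stable r ap w) {t : ℕ} (hE : E.Infinite)
    (ht : TrueStage ap t) (hwt : w.1 < t) : r.Cur ap t w := by
  obtain ⟨t0, h0⟩ := hw
  obtain ⟨t1, h1, h1'⟩ := exists_trueStage ap hE (max t0 t)
  exact Cur.back R (h0 t1 (by omega) h1') ht (by omega) hwt

theorem Stable.alive {w : Ver} (hw : Stable r ap w) (hE : E.Infinite) {s : ℕ} (hs : w.1 < s) :
    w ∈ r.V s := by
  obtain ⟨t0, h0⟩ := hw
  obtain ⟨t1, h1, h1'⟩ := exists_trueStage ap hE (max t0 s)
  exact V_back R (V'_sub (h0 t1 (by omega) h1').1) hs (by omega)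

theorem Stable.alive' {w : Ver} (hw : Stable r ap w) (hE : E.Infinite) {s : ℕ} (hs : w.1 < s) :
    w ∈ r.V' ap s :=
  V_back_one R (Stable.alive R hw hE (Nat.lt_succ_of_lt hs)) hs

/-- An active marker of a stable version at a true stage is permanent. -/
theorem Stable.perm {w : Ver} (hw : Stable r ap w) (hE : E.Infinite) {t : ℕ} {a : Mkr}
    (ht : TrueStage ap t) (ha : a ∈ r.M' ap t) (hk : a.k = w.1) {s : ℕ} (hs : t ≤ s) :
    a ∈ r.M' ap s := by
  have h1 := M_owner R (M'_sub ha)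
  have h2 := M_lt R (M'_sub ha)
  have ho : (a.k, w.2) ∈ r.V' ap s := by
    have : (a.k, w.2) = w := by rw [hk]
    rw [this]
    exact Stable.alive' R hw hE (by omega)
  exact M'_persist R (M'_sub ha) hs
    (fun u hu _ => TrueStage.not_hit ht (mem_M'.1 ha).2.1 hu) ho

/-- The set of permanent markers of a stable version is finite, if their arguments are bounded. -/
theorem Stable.perm_finite {w : Ver} (hw : Stable r ap w) (hE : E.Infinite) {N : ℕ}
    (hN : ∀ s, ∀ a ∈ r.M s, a.k = w.1 → a.m ≤ N) :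
    {d | ∃ t, TrueStage ap t ∧ ∃ a ∈ r.M' ap t, a.k = w.1 ∧ a.d = d}.Finite := by
  classical
  set D := {d | ∃ t, TrueStage ap t ∧ ∃ a ∈ r.M' ap t, a.k = w.1 ∧ a.d = d} with hD
  -- choose the argument of each marker
  have hch : ∀ d : D, ∃ a : Mkr, ∃ t, TrueStage ap t ∧ a ∈ r.M' ap t ∧ a.k = w.1 ∧ a.d = d := by
    rintro ⟨d, t, ht, a, ha, hk, hd⟩
    exact ⟨a, t, ht, ha, hk, hd⟩
  choose F hF using hch
  have hinj : Function.Injective fun d : D => (F d).m := by
    intro d d' hdd
    obtain ⟨t, ht, ha, hk, hd⟩ := hF d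
    obtain ⟨t', ht', ha', hk', hd'⟩ := hF d'
    have h1 := Stable.perm R hw hE ht ha hk (le_max_left t t')
    have h2 := Stable.perm R hw hE ht' ha' hk' (le_max_right t t')
    have h3 := M_unique R (M'_sub h1) (M'_sub h2) (hk.trans hk'.symm) hdd
    apply Subtype.ext
    rw [← hd, ← hd', h3]
  have hmaps : ∀ d : D, (F d).m ∈ Set.Iic N := by
    intro d
    obtain ⟨t, ht, ha, hk, hd⟩ := hF d
    exact hN t _ (M'_sub ha) hk
  have : Finite D := by
    have hfin : Finite (Set.Iic N) := (Set.finite_Iic N).to_subtype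
    exact Finite.of_injective (fun d : D => (⟨(F d).m, hmaps d⟩ : Set.Iic N))
      (fun d d' hdd => hinj (by simpa using hdd))
  exact Set.toFinite D

end

end Pre

end Pool.Agent.SJT
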