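import Pool.Agent.Lib.MP_377195_lc.Verify2

/-!
# Verification of the construction, part 3: stable versions act finitely often
-/

namespace Pool.Agent.SJT

variable {E : Set ℕ} {f : ℕ →. ℕ}

theorem REPred_or_list {α : Type*} [Primcodable α] [DecidableEq α] {p : α → Prop}
    (hp : REPred p) (l : List α) : REPred fun a => p a ∨ a ∈ l := by
  have h1 : PrimrecPred fun a : α => ∃ b ∈ l, b = a :=
    PrimrecRel.comp (PrimrecRel.exists_mem_list Primrec.eq) (Primrec.const l) Primrec.id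
  have h2 : PrimrecPred fun a : α => a ∈ l := h1.of_eq (by simp)
  have h3 : Computable fun a : α => decide (a ∈ l) := h2.decide.to_comp
  have h4 : Partrec fun _ : α => (Part.some () : Part Unit) := (Computable.const ()).partrec
  refine (Partrec.cond h3 h4 hp).of_eq fun a => ?_
  by_cases ha : a ∈ l
  · apply Part.ext; intro x; simp [ha]
  · apply Part.ext; intro x; simp [ha]

/-- No `h`-bounded c.e. trace traces `f`. -/
def NoTrace (f : ℕ →. ℕ) (h : ℕ → ℕ) : Prop :=
  ∀ T : ℕ → Finset ℕ, (∀ n, (T n).card ≤ h n) → REPred (fun p : ℕ × ℕ => p.2 ∈ T p.1) →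
    ∃ n v, v ∈ f n ∧ v ∉ T n

namespace Pre

variable {r : Pre} {ap : Approx E f} {h : ℕ → ℕ}

theorem S_val_finite (R : r.IsRun ap h) (k m : ℕ) :
    ∃ U : Finset ℕ, (∀ v, v ∈ U ↔ ∃ s, (k, m, v) ∈ r.S s) ∧ U.card ≤ h m := by
  classical
  have key : ∀ F : Finset ℕ, (∀ v ∈ F, ∃ s, (k, m, v) ∈ r.S s) → F.card ≤ h m := by
    intro F hF
    have h1 : ∃ s, ∀ v ∈ F, (k, m, v) ∈ r.S s := by
      induction F using Finset.induction_on with
      | empty => exact ⟨0, by simp⟩
      | insert x F hx ih =>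
        obtain ⟨s1, h1⟩ := ih fun v hv => hF v (Finset.mem_insert_of_mem hv)
        obtain ⟨s2, h2⟩ := hF x (Finset.mem_insert_self _ _)
        refine ⟨max s1 s2, fun v hv => ?_⟩
        rcases Finset.mem_insert.1 hv with hv | hv
        · rw [hv]; exact S_mono R (le_max_right _ _) h2
        · exact S_mono R (le_max_left _ _) (h1 v hv)
    obtain ⟨s, hs⟩ := h1
    refine le_trans ?_ (cnt_le R s k m)
    unfold cnt
    refine Finset.card_le_card_of_injOn (fun v => (k, m, v)) ?_ ?_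
    · intro v hv
      simp only [Finset.coe_filter, Set.mem_ofPred_eq, and_self, and_true]
      exact hs v hv
    · intro v _ v' _ hvv
      simpa using hvv
  have hfin : {v | ∃ s, (k, m, v) ∈ r.S s}.Finite := by
    by_contra hinf
    obtain ⟨F, hF, hcard⟩ := Set.Infinite.exists_subset_card_eq hinf (h m + 1)
    have := key F fun v hv => hF hv
    omega
  refine ⟨hfin.toFinset, fun v => by simp, key _ fun v hv => ?_⟩
  simpa using hv

theorem S_le (R : r.IsRun ap h) {s k m v : ℕ} (he : (k, m, v) ∈ r.S s) :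
    ∃ a t, a ∈ r.M t ∧ a.k = k ∧ a.m = m ∧ a.v = v := by
  obtain ⟨t, ht, w, a, ha, he⟩ := S_birth R he
  have h1 := (Prod.mk.inj he).1
  have h2 := (Prod.mk.inj (Prod.mk.inj he).2)
  exact ⟨a, t, M'_sub ha.2.1.1, h1.symm, h2.1.symm, h2.2.symm⟩

theorem exists_n0 (R : r.IsRun ap h) (hNT : NoTrace f h)
    (hS : ∀ k, REPred (fun p : ℕ × ℕ => ∃ s, (k, p.1, p.2) ∈ r.S s)) (hpos : ∀ n, 0 < h n)
    (k : ℕ) : ∃ n0 ≥ k, ∃ v0, v0 ∈ f n0 ∧ (∀ s, (k, n0, v0) ∉ r.S s) ∧
      ∀ m, k ≤ m → m < n0 → ∀ v ∈ f m, ∃ s, (k, m, v) ∈ r.S s := by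
  classical
  choose U hU hUcard using S_val_finite R k
  let G : ℕ → Finset ℕ := fun m => if hd : (f m).Dom then {(f m).get hd} else ∅
  have hG : ∀ m v, v ∈ G m ↔ v ∈ f m := by
    intro m v
    simp only [G]
    split_ifs with hd
    · rw [Finset.mem_singleton]
      constructor
      · intro hv; rw [hv]; exact Part.get_mem hd
      · intro hv; exact (Part.get_eq_of_mem hv hd).symm
    · constructor
      · intro hv; simp at hv
      · intro hv; exact absurd (Part.dom_iff_mem.2 ⟨v, hv⟩) hd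
  have hGc : ∀ m, (G m).card ≤ 1 := by
    intro m
    simp only [G]
    split_ifs with hd
    · simp
    · simp
  let T : ℕ → Finset ℕ := fun m => if k ≤ m then U m else G m
  have hT1 : ∀ n, (T n).card ≤ h n := by
    intro n
    simp only [T]
    split_ifs with hk
    · exact hUcard n
    · have := hGc n; have := hpos n; omega
  have hfin : {p : ℕ × ℕ | p.1 < k ∧ p.2 ∈ f p.1}.Finite := by
    have : {p : ℕ × ℕ | p.1 < k ∧ p.2 ∈ f p.1} ⊆
        ((Finset.range k).biUnion fun m => (G m).image fun v => (m, v) : Finset (ℕ × ℕ)) := by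
      rintro ⟨m, v⟩ ⟨h1, h2⟩
      simp only [Finset.coe_biUnion, Finset.coe_range, Set.mem_Iio, Finset.coe_image,
        Set.mem_iUnion, Set.mem_image, Finset.mem_coe, Prod.mk.injEq, exists_prop]
      exact ⟨m, h1, v, (hG m v).2 h2, rfl, rfl⟩
    exact Set.Finite.subset (Finset.finite_toSet _) this
  have hT2 : REPred fun p : ℕ × ℕ => p.2 ∈ T p.1 := by
    refine (REPred_or_list (hS k) hfin.toFinset.toList).of_eq ?_
    rintro ⟨m, v⟩
    simp only [Finset.mem_toList, Set.Finite.mem_toFinset, Set.mem_ofPred_eq, T]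
    split_ifs with hk
    · rw [hU]
      constructor
      · rintro (h1 | h1)
        · exact h1
        · omega
      · exact Or.inl
    · rw [hG]
      constructor
      · rintro (⟨s, h1⟩ | h1)
        · obtain ⟨a, t, ha, h1, h2, -⟩ := S_le R h1
          have := (M_le R ha).1
          omega
        · exact h1.2
      · intro h1; exact Or.inr ⟨by omega, h1⟩
  have hex : ∃ n, k ≤ n ∧ ∃ v, v ∈ f n ∧ ∀ s, (k, n, v) ∉ r.S s := by
    obtain ⟨n, v, h1, h2⟩ := hNT T hT1 hT2
    simp only [T] at h2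
    split_ifs at h2 with hk
    · refine ⟨n, hk, v, h1, fun s hs => h2 ((hU n v).2 ⟨s, hs⟩)⟩
    · exact absurd ((hG n v).2 h1) h2
  obtain ⟨hk, v, h1, h2⟩ := Nat.find_spec hex
  refine ⟨Nat.find hex, hk, v, h1, h2, fun m hkm hm v' hv' => ?_⟩
  have := Nat.find_min hex hm
  push Not at this
  exact this hkm v' hv'

/-- The arguments of the markers of a version are bounded. -/
theorem M_bound (R : r.IsRun ap h) (hNT : NoTrace f h)
    (hS : ∀ k, REPred (fun p : ℕ × ℕ => ∃ s, (k, p.1, p.2) ∈ r.S s)) (hpos : ∀ n, 0 < h n)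
    (k : ℕ) : ∃ N, ∀ s, ∀ a ∈ r.M s, a.k = k → a.m ≤ N := by
  obtain ⟨n0, hk, v0, hv0, hns, -⟩ := exists_n0 R hNT hS hpos k
  obtain ⟨s0, u0, hs0⟩ := ap.c_complete n0 v0 hv0
  refine ⟨max s0 n0, fun s a ha hak => ?_⟩
  have hb := (M_birth' R ha).2.1
  have h1 := hb.2.2.2.2.1
  by_contra hcon
  have h2 : max s0 n0 < a.m := not_le.1 hcon
  have h3 := hb.2.2.2.2.2.2.2.1 n0 (by omega) (by omega) v0 u0 (hs0 _ (by omega))
  rw [hak] at h3
  exact hns _ h3

/-- A version contributes only finitely many triples. -/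
theorem S_finite (R : r.IsRun ap h) (hNT : NoTrace f h)
    (hS : ∀ k, REPred (fun p : ℕ × ℕ => ∃ s, (k, p.1, p.2) ∈ r.S s)) (hpos : ∀ n, 0 < h n)
    (k : ℕ) : ∃ t0, ∀ s, ∀ m v, (k, m, v) ∈ r.S s → (k, m, v) ∈ r.S t0 := by
  classical
  obtain ⟨N, hN⟩ := M_bound R hNT hS hpos k
  choose U hU _ using S_val_finite R k
  let F : Finset (ℕ × ℕ) := (Finset.range (N + 1)).biUnion fun m => (U m).image fun v => (m, v)
  have hF : ∀ m v, (m, v) ∈ F → ∃ s, (k, m, v) ∈ r.S s := by
    intro m v hmv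
    simp only [F, Finset.mem_biUnion, Finset.mem_range, Finset.mem_image, Prod.mk.injEq] at hmv
    obtain ⟨m', -, v', hv', h1, h2⟩ := hmv
    rw [← h1, ← h2]
    exact (hU _ _).1 hv'
  have h1 : ∃ t0, ∀ m v, (m, v) ∈ F → (k, m, v) ∈ r.S t0 := by
    clear_value F
    induction F using Finset.induction_on with
    | empty => exact ⟨0, by simp⟩
    | insert x F hx ih =>
      obtain ⟨s1, h1⟩ := ih fun m v hv => hF m v (Finset.mem_insert_of_mem hv)
      obtain ⟨s2, h2⟩ := hF x.1 x.2 (Finset.mem_insert_self _ _)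
      refine ⟨max s1 s2, fun m v hv => ?_⟩
      rcases Finset.mem_insert.1 hv with hv | hv
      · rw [← hv] at h2
        exact S_mono R (le_max_right _ _) h2
      · exact S_mono R (le_max_left _ _) (h1 m v hv)
  obtain ⟨t0, ht0⟩ := h1
  refine ⟨t0, fun s m v hs => ht0 m v ?_⟩
  simp only [F, Finset.mem_biUnion, Finset.mem_range, Finset.mem_image, Prod.mk.injEq]
  obtain ⟨a, t, ha, hak, ham, -⟩ := S_le R hs
  have := hN t a ha hak
  exact ⟨m, by omega, v, (hU _ _).2 ⟨s, hs⟩, rfl, rfl⟩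

theorem ActA_new (R : r.IsRun ap h) {s : ℕ} {w : Ver} {a : Mkr} (ha : r.ActA ap h s w a) :
    (∃ b, r.ActA ap h s w b ∧ r.V (s + 1) = (r.V' ap s).filter (fun w' => w'.1 ≤ w.1) ∧
      r.M (s + 1) = (r.M' ap s).filter (fun b => b.k ≤ w.1) ∧
      (b.k, b.m, b.v) ∈ r.S (s + 1)) := by
  classical
  rcases R.step s with ⟨v, c, hc, hV, hM, hS⟩ | ⟨v, c, hc, hV, hM, hS⟩ | ⟨hI, hV, hM, hS⟩
  · have hvw : v.1 = w.1 := by
      rcases lt_trichotomy v.1 w.1 with h1 | h1 | h1
      · exact absurd hc.2.1 ((ha.2.2 v hc.1 h1).1 c)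
      · exact h1
      · exact absurd ha.2.1 ((hc.2.2 w ha.1 h1).1 a)
    have hvw' : v = w := by
      obtain ⟨v1, v2⟩ := v
      obtain ⟨w1, w2⟩ := w
      simp only at hvw
      subst hvw
      rw [level_unique R (V'_sub hc.1.1) (V'_sub ha.1.1)]
    subst hvw'
    exact ⟨c, hc, hV, hM, by rw [hS]; exact Finset.mem_insert_self _ _⟩
  · exfalso
    rcases lt_trichotomy v.1 w.1 with h1 | h1 | h1
    · exact (ha.2.2 v hc.1 h1).2 c hc.2.1
    · have ha' := ha.2.1
      exact hc.2.2.1 a ⟨ha'.1, ha'.2.1.trans h1.symm, ha'.2.2⟩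
    · exact absurd ha.2.1 ((hc.2.2.2 w ha.1 h1).1 a)
  · exact absurd ha.2.1 ((hI w ha.1).1 a)

/-- Eventual behaviour of a stable version. -/
theorem Stable.settled (R : r.IsRun ap h) (hE : E.Infinite) (hNT : NoTrace f h)
    (hS : ∀ k, REPred (fun p : ℕ × ℕ => ∃ s, (k, p.1, p.2) ∈ r.S s)) (hpos : ∀ n, 0 < h n)
    {w : Ver} (hw : Stable r ap w) :
    ∃ t0, (∀ s ≥ t0, ∀ a, ¬ r.ActA ap h s w a) ∧
      (∀ t ≥ t0, TrueStage ap t → ∀ a, ¬ r.ActB ap h t w a) ∧
      ∀ t, TrueStage ap t → ∀ a ∈ r.M' ap t, a.k = w.1 → a.d < t0 := by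
  classical
  obtain ⟨N, hN⟩ := M_bound R hNT hS hpos w.1
  obtain ⟨t1, ht1⟩ := S_finite R hNT hS hpos w.1
  have hfin := Stable.perm_finite R hw hE hN
  obtain ⟨t2, ht2⟩ := hfin.bddAbove
  have ht2' : ∀ t, TrueStage ap t → ∀ a ∈ r.M' ap t, a.k = w.1 → a.d ≤ t2 := by
    intro t ht a ha hk
    exact ht2 ⟨t, ht, a, ha, hk, rfl⟩
  refine ⟨max (t1 + 1) (t2 + 1), ?_, ?_, ?_⟩
  · intro s hs a ha
    obtain ⟨b, hb, -, -, hb'⟩ := ActA_new R ha
    have hbk : b.k = w.1 := hb.2.1.2.1
    have h1 := ht1 (s + 1) b.m b.v (by rw [← hbk]; exact hb')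
    apply hb.2.1.2.2.1
    rw [hbk]
    exact S_mono R (by omega) h1
  · intro t ht htt a ha
    -- the marker appointed at a true stage is permanent
    have hd : a.d = t := ha.2.1.1
    have hcomp := (TrueStage.comp htt ha.2.1.2.2.2.2.2.1)
    have hM : a ∈ r.M (t + 1) := by
      rcases R.step t with ⟨v, c, hc, hV, hM, hS⟩ | ⟨v, c, hc, hV, hM, hS⟩ | ⟨hI, hV, hM, hS⟩
      · exfalso
        rcases lt_trichotomy v.1 w.1 with h1 | h1 | h1
        · exact (ha.2.2.2 v hc.1 h1).1 c hc.2.1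
        · have hc' := hc.2.1
          exact ha.2.2.1 c ⟨hc'.1, hc'.2.1.trans h1, hc'.2.2⟩
        · exact (hc.2.2 w ha.1 h1).2 a ha.2.1
      · have hvw : v.1 = w.1 := by
          rcases lt_trichotomy v.1 w.1 with h1 | h1 | h1
          · exact absurd hc.2.1 ((ha.2.2.2 v hc.1 h1).2 c)
          · exact h1
          · exact absurd ha.2.1 ((hc.2.2.2 w ha.1 h1).2 a)
        have hvw' : v = w := by
          obtain ⟨v1, v2⟩ := v
          obtain ⟨w1, w2⟩ := w
          simp only at hvw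
          subst hvw
          rw [level_unique R (V'_sub hc.1.1) (V'_sub ha.1.1)]
        subst hvw'
        -- both are appointed for the same (least) argument
        obtain ⟨a1, a2, a3, a4, a5, a6, a7, a8, a9⟩ := ha.2.1
        obtain ⟨c1, c2, c3, c4, c5, c6, c7, c8, c9⟩ := hc.2.1
        have hm : a.m = c.m := by
          rcases lt_trichotomy a.m c.m with h1 | h1 | h1
          · exfalso
            have := c8 a.m h1 (by omega) a.v a.u a6
            rw [c2, ← a2] at this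
            exact a7 this
          · exact h1
          · exfalso
            have := a8 c.m h1 (by omega) c.v c.u c6
            rw [a2, ← c2] at this
            exact c7 this
        have hac : a = c := by
          rw [← hm, a6] at c6
          have hvu := Prod.mk.inj (Option.some.inj c6)
          obtain ⟨ad, ak, al, am, av, au⟩ := a
          obtain ⟨cd, ck, cl, cm, cv, cu⟩ := c
          simp only [Mkr.d, Mkr.k, Mkr.lev, Mkr.m, Mkr.v, Mkr.u] at a1 a2 a3 c1 c2 c3 hm hvu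
          rw [a1, a2, a3, c1, c2, c3, hm, hvu.1, hvu.2]
        rw [hM, hac]
        exact Finset.mem_insert_self _ _
      · exfalso
        exact (hI w ha.1).2 a ha.2.1
    -- it is never hit
    obtain ⟨x, hx, hlt⟩ := htt
    have hu : a.u ≤ x := (ap.c_use _ _ _ _ ha.2.1.2.2.2.2.2.1).2 x hx
    have hnh : ∀ s, t + 1 ≤ s → ¬ Hit ap s a := by
      rintro s hs ⟨y, hy, hyu⟩
      have := hlt s (by omega) y hy
      omega
    obtain ⟨t3, ht3, ht3'⟩ := exists_trueStage ap hE (t + 1)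
    have hk : a.k = w.1 := ha.2.1.2.1
    have hkt : w.1 < t := by
      have := V_lt R (V'_sub ha.1.1); exact this
    have h3 : a ∈ r.M' ap t3 := by
      refine M'_persist R hM ht3 (fun s h1 _ => hnh s h1) (l := w.2) ?_
      have : (a.k, w.2) = w := by rw [hk]
      rw [this]
      exact Stable.alive' R hw hE (by omega)
    have := ht2' t3 ht3' a h3 hk
    omega
  · intro t ht a ha hk
    have := ht2' t ht a ha hk
    omega

end Pre

end Pool.Agent.SJT
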