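import Pool.Agent.Lib.MP_377195_lc.Verify3

/-!
# Verification of the construction, part 4: there are stable versions of every level
-/

namespace Pool.Agent.SJT

variable {E : Set ℕ} {f : ℕ →. ℕ}

namespace Pre

variable {r : Pre} {ap : Approx E f} {h : ℕ → ℕ}

/-- For each `k`, from some stage on only a stable version with index `k` can be current. -/
theorem eventually_stable_one (R : r.IsRun ap h) (k : ℕ) :
    ∃ t0, ∀ s ≥ t0, ∀ l, r.Cur ap s (k, l) → Stable r ap (k, l) := by
  classical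
  by_cases hst : ∃ l, Stable r ap (k, l)
  · obtain ⟨l, hl⟩ := hst
    refine ⟨0, fun s _ l' hl' => ?_⟩
    by_cases hne : ∃ s' , (k, l) ∈ r.V s'
    · obtain ⟨s', hs'⟩ := hne
      rw [← level_unique R hs' (V'_sub hl'.1)]
      exact hl
    · -- then `(k, l)` is never current; vacuous truth of stability
      obtain ⟨t0, ht0⟩ := hl
      refine ⟨t0, fun t ht htt => ?_⟩
      exact absurd ⟨t, V'_sub (ht0 t ht htt).1⟩ hne
  · push Not at hst
    by_cases hne : ∃ l s, (k, l) ∈ r.V s
    · obtain ⟨l, s, hs⟩ := hne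
      have h1 := hst l
      unfold Stable at h1
      push Not at h1
      obtain ⟨t, ht, htt, htc⟩ := h1 (k + 1)
      refine ⟨t, fun s' hs' l' hl' => ?_⟩
      exfalso
      have hll : l' = l := level_unique R (V'_sub hl'.1) hs
      rw [hll] at hl'
      exact htc (Cur.back R hl' htt hs' (by simp only; omega))
    · push Not at hne
      exact ⟨0, fun s' _ l' hl' => absurd (V'_sub hl'.1) (hne l' s')⟩

theorem eventually_stable (R : r.IsRun ap h) (n : ℕ) :
    ∃ t0, ∀ s ≥ t0, ∀ w : Ver, w.1 < n → r.Cur ap s w → Stable r ap w := by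
  induction n with
  | zero => exact ⟨0, fun s _ w hw => absurd hw (Nat.not_lt_zero _)⟩
  | succ n ih =>
    obtain ⟨t0, h0⟩ := ih
    obtain ⟨t1, h1⟩ := eventually_stable_one R n
    refine ⟨max t0 t1, fun s hs w hw hc => ?_⟩
    rcases Nat.lt_succ_iff_lt_or_eq.1 hw with hw | hw
    · exact h0 s (by omega) w hw hc
    · obtain ⟨w1, w2⟩ := w
      simp only at hw
      subst hw
      exact h1 s (by omega) w2 hc

theorem stable_level_unique (R : r.IsRun ap h) (hE : E.Infinite) {k l l' : ℕ}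
    (h1 : Stable r ap (k, l)) (h2 : Stable r ap (k, l')) : l = l' :=
  level_unique R (Stable.alive R h1 hE (Nat.lt_succ_self _))
    (Stable.alive R h2 hE (Nat.lt_succ_self _))

theorem eventually_settled (R : r.IsRun ap h) (hE : E.Infinite) (hNT : NoTrace f h)
    (hS : ∀ k, REPred (fun p : ℕ × ℕ => ∃ s, (k, p.1, p.2) ∈ r.S s)) (hpos : ∀ n, 0 < h n)
    (n : ℕ) : ∃ t0, ∀ w : Ver, w.1 < n → Stable r ap w →
      (∀ s ≥ t0, ∀ a, ¬ r.ActA ap h s w a) ∧
      (∀ t ≥ t0, TrueStage ap t → ∀ a, ¬ r.ActB ap h t w a) ∧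
      ∀ t, TrueStage ap t → ∀ a ∈ r.M' ap t, a.k = w.1 → a.d < t0 := by
  classical
  induction n with
  | zero => exact ⟨0, fun w hw => absurd hw (Nat.not_lt_zero _)⟩
  | succ n ih =>
    obtain ⟨t0, h0⟩ := ih
    by_cases hst : ∃ l, Stable r ap (n, l)
    · obtain ⟨l, hl⟩ := hst
      obtain ⟨t1, h1, h2, h3⟩ := Stable.settled R hE hNT hS hpos hl
      refine ⟨max t0 t1, fun w hw hws => ?_⟩
      rcases Nat.lt_succ_iff_lt_or_eq.1 hw with hw | hw
      · obtain ⟨a1, a2, a3⟩ := h0 w hw hws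
        refine ⟨fun s hs => a1 s (by omega), fun t ht => a2 t (by omega), fun t ht a ha hk => ?_⟩
        have := a3 t ht a ha hk
        omega
      · obtain ⟨w1, w2⟩ := w
        simp only at hw
        subst hw
        have := stable_level_unique R hE hl hws
        subst this
        refine ⟨fun s hs => h1 s (by omega), fun t ht => h2 t (by omega), fun t ht a ha hk => ?_⟩
        have := h3 t ht a ha hk
        omega
    · refine ⟨t0, fun w hw hws => ?_⟩
      rcases Nat.lt_succ_iff_lt_or_eq.1 hw with hw | hw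
      · exact h0 w hw hws
      · obtain ⟨w1, w2⟩ := w
        simp only at hw
        subst hw
        exact absurd ⟨w2, hws⟩ hst

/-- The key lemma: a version current at a large true stage, above which nothing interferes, is
stable. -/
theorem stable_of_cur (R : r.IsRun ap h) {n t0 t : ℕ}
    (h1 : ∀ s ≥ t0, ∀ w : Ver, w.1 < n → r.Cur ap s w → Stable r ap w)
    (h2 : ∀ w : Ver, w.1 < n → Stable r ap w →
      (∀ s ≥ t0, ∀ a, ¬ r.ActA ap h s w a) ∧
      (∀ t ≥ t0, TrueStage ap t → ∀ a, ¬ r.ActB ap h t w a) ∧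
      ∀ t, TrueStage ap t → ∀ a ∈ r.M' ap t, a.k = w.1 → a.d < t0)
    (ht0 : t0 ≤ t) (ht : TrueStage ap t) {w : Ver}
    (hwt : w.1 ≤ t) (hw : w ∈ r.V (t + 1))
    (hmin : ∀ w' : Ver, n ≤ w'.1 → w'.1 < w.1 → ¬ r.Cur ap t w')
    (hcov : w.1 < t → r.Cur ap t w) : Stable r ap w := by
  classical
  have hmin' : ∀ s ≥ t, ∀ w' : Ver, n ≤ w'.1 → w'.1 < w.1 → ¬ r.Cur ap s w' := by
    intro s hs w' hn hlt hc
    exact hmin w' hn hlt (Cur.back R hc ht hs (by omega))
  -- the version stays alive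
  have halive : ∀ s, t + 1 ≤ s → w ∈ r.V s ∧ w ∈ r.V' ap s := by
    have hstep1 : ∀ s, t + 1 ≤ s → w ∈ r.V s → w ∈ r.V' ap s := by
      intro s hs hws
      rw [mem_V']
      refine ⟨hws, fun a ha hh => ?_⟩
      by_contra hcon
      have hlt : a.d < w.1 := not_le.1 hcon
      have h3 : a ∈ r.M' ap t := M'_back R ha (by omega) (by omega)
      exact TrueStage.not_hit ht (mem_M'.1 h3).2.1 (by omega) hh
    intro s hs
    induction s, hs using Nat.le_induction with
    | base => exact ⟨hw, hstep1 _ le_rfl hw⟩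
    | succ s hs ih =>
      have : w ∈ r.V (s + 1) := by
        rcases R.step s with ⟨v, c, hc, hV, hM, hS⟩ | ⟨v, c, hc, hV, hM, hS⟩ | ⟨hI, hV, hM, hS⟩
        · rw [hV, Finset.mem_filter]
          refine ⟨ih.2, ?_⟩
          by_contra hcon
          have hlt : v.1 < w.1 := not_le.1 hcon
          rcases Nat.lt_or_ge v.1 n with h3 | h3
          · exact (h2 v h3 (h1 s (by omega) v h3 hc.1)).1 s (by omega) c hc
          · exact hmin' s (by omega) v h3 hlt hc.1
        · rw [hV]; exact ih.2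
        · rw [hV]; exact Finset.mem_insert_of_mem ih.2
      exact ⟨this, hstep1 _ (by omega) this⟩
  refine ⟨t + 1, fun t' ht' htt' => ⟨(halive t' ht').2, fun a ha hac => ?_⟩⟩
  rcases Nat.lt_or_ge a.d t with h3 | h3
  · -- then `a` covers `w` already at stage `t`
    have h4 : a ∈ r.M' ap t := M'_back R (M'_sub ha) h3 (by omega)
    exact (hcov (by omega)).2 a h4 hac
  · have h4 := M_birth' R (M'_sub ha)
    have h5 : a.k < n := by
      by_contra hcon
      exact hmin' a.d h3 (a.k, a.lev) (not_lt.1 hcon) hac.1 h4.1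
    have h6 := h1 a.d (by omega) (a.k, a.lev) h5 h4.1
    have := (h2 _ h5 h6).2.2 t' htt' a ha rfl
    omega

/-- There are infinitely many stable versions. -/
theorem exists_stable_ge (R : r.IsRun ap h) (hE : E.Infinite) (hNT : NoTrace f h)
    (hS : ∀ k, REPred (fun p : ℕ × ℕ => ∃ s, (k, p.1, p.2) ∈ r.S s)) (hpos : ∀ n, 0 < h n)
    (n : ℕ) : ∃ w : Ver, n ≤ w.1 ∧ Stable r ap w := by
  classical
  obtain ⟨t1, h1⟩ := eventually_stable R n
  obtain ⟨t2, h2⟩ := eventually_settled R hE hNT hS hpos n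
  obtain ⟨t, ht, htt⟩ := exists_trueStage ap hE (max (max t1 t2) n)
  have h1' : ∀ s ≥ max (max t1 t2) n, ∀ w : Ver, w.1 < n → r.Cur ap s w → Stable r ap w :=
    fun s hs => h1 s (by omega)
  have h2' : ∀ w : Ver, w.1 < n → Stable r ap w →
      (∀ s ≥ max (max t1 t2) n, ∀ a, ¬ r.ActA ap h s w a) ∧
      (∀ t ≥ max (max t1 t2) n, TrueStage ap t → ∀ a, ¬ r.ActB ap h t w a) ∧
      ∀ t, TrueStage ap t → ∀ a ∈ r.M' ap t, a.k = w.1 → a.d < max (max t1 t2) n := by
    intro w hw hws
    obtain ⟨a1, a2, a3⟩ := h2 w hw hws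
    refine ⟨fun s hs => a1 s (by omega), fun t ht => a2 t (by omega), fun t ht a ha hk => ?_⟩
    have := a3 t ht a ha hk
    omega
  by_cases hex : ∃ k, n ≤ k ∧ ∃ l, r.Cur ap t (k, l)
  · -- the least current version above `n`
    obtain ⟨hkn, l, hl⟩ := Nat.find_spec hex
    have hkt := V_lt R (V'_sub hl.1)
    simp only at hkt
    have hmin : ∀ w' : Ver, n ≤ w'.1 → w'.1 < Nat.find hex → ¬ r.Cur ap t w' := by
      intro w' hn hlt hc
      exact Nat.find_min hex hlt ⟨hn, w'.2, hc⟩
    refine ⟨(Nat.find hex, l), hkn, ?_⟩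
    refine stable_of_cur R h1' h2' ht htt (by simp only; omega) ?_ hmin (fun _ => hl)
    rcases R.step t with ⟨v, c, hc, hV, hM, hS⟩ | ⟨v, c, hc, hV, hM, hS⟩ | ⟨hI, hV, hM, hS⟩
    · rw [hV, Finset.mem_filter]
      refine ⟨hl.1, ?_⟩
      simp only
      by_contra hcon
      have hlt : v.1 < Nat.find hex := not_le.1 hcon
      rcases Nat.lt_or_ge v.1 n with h3 | h3
      · exact (h2' v h3 (h1' t ht v h3 hc.1)).1 t ht c hc
      · exact hmin v h3 hlt hc.1
    · rw [hV]; exact hl.1
    · rw [hV]; exact Finset.mem_insert_of_mem hl.1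
  · -- nothing above `n` is current, so a version is born
    push Not at hex
    have hnc : ∀ w' : Ver, n ≤ w'.1 → ¬ r.Cur ap t w' := fun w' hn hc => hex w'.1 hn w'.2 hc
    rcases R.step t with ⟨v, c, hc, hV, hM, hS⟩ | ⟨v, c, hc, hV, hM, hS⟩ | ⟨hI, hV, hM, hS⟩
    · exfalso
      rcases Nat.lt_or_ge v.1 n with h3 | h3
      · exact (h2' v h3 (h1' t ht v h3 hc.1)).1 t ht c hc
      · exact hnc v h3 hc.1
    · exfalso
      rcases Nat.lt_or_ge v.1 n with h3 | h3
      · exact (h2' v h3 (h1' t ht v h3 hc.1)).2.1 t ht htt c hc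
      · exact hnc v h3 hc.1
    · refine ⟨(t, ((r.V' ap t).filter (fun w => r.Cur ap t w)).card), by simp only; omega, ?_⟩
      refine stable_of_cur R h1' h2' ht htt le_rfl ?_
        (fun w' hn _ => hnc w' hn) (fun hlt => absurd hlt (lt_irrefl _))
      rw [hV]
      exact Finset.mem_insert_self _ _

/-- At the birth of a stable version, the current versions are the stable ones below it. -/
theorem cur_at_birth (R : r.IsRun ap h) (hE : E.Infinite) {w : Ver} (hw : Stable r ap w)
    (v : Ver) : r.Cur ap w.1 v ↔ v.1 < w.1 ∧ Stable r ap v := by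
  classical
  have hwa : ∀ s, w.1 < s → w ∈ r.V s := fun s hs => Stable.alive R hw hE hs
  have hb := V_birth R (hwa (w.1 + 1) (Nat.lt_succ_self _))
  constructor
  · intro hv
    have hvw : v.1 < w.1 := V_lt R (V'_sub hv.1)
    refine ⟨hvw, ?_⟩
    obtain ⟨t0, ht0⟩ := hw
    refine ⟨max t0 (w.1 + 1), fun t ht htt => ?_⟩
    have hwt := ht0 t (by omega) htt
    have hvt : v ∈ r.V' ap t :=
      kill_down' R (hb.2.2.2 v hv.1) hvw.le (hwa _ (Nat.lt_succ_self _)) (by omega) hwt.1
    refine ⟨hvt, fun a ha hac => ?_⟩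
    rcases lt_trichotomy a.d w.1 with h1 | h1 | h1
    · exact hv.2 a (M'_back R (M'_sub ha) h1 (by omega)) hac
    · exact not_born_of_marker R (M'_sub ha) (hwa _ (Nat.lt_succ_self _)) h1.symm
    · exact hwt.2 a ha ⟨by omega, h1⟩
  · rintro ⟨hvw, hv⟩
    refine ⟨Stable.alive' R hv hE hvw, fun a ha hac => ?_⟩
    obtain ⟨t, ht, htt⟩ := exists_trueStage ap hE (w.1 + 1)
    have hvt := Stable.cur R hv hE htt (by omega)
    have haM : a ∈ r.M (w.1 + 1) := by
      have : r.M (w.1 + 1) = r.M' ap w.1 := hb.2.2.1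
      rw [this]; exact ha
    have had : a.d < w.1 := M_lt R (M'_sub ha)
    have := persist_below' R haM had (hwa _ (Nat.lt_succ_self _)) ht
      (Stable.alive' R hw hE (by omega))
    exact hvt.2 a this hac

/-- There is a stable version of every level. -/
theorem exists_stable_level (R : r.IsRun ap h) (hE : E.Infinite) (hNT : NoTrace f h)
    (hS : ∀ k, REPred (fun p : ℕ × ℕ => ∃ s, (k, p.1, p.2) ∈ r.S s)) (hpos : ∀ n, 0 < h n)
    (l : ℕ) : ∃ k, Stable r ap (k, l) := by
  classical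
  let P : ℕ → Prop := fun k => ∃ l, Stable r ap (k, l)
  have hinf : {k | P k}.Infinite := by
    intro hfin
    obtain ⟨b, hb⟩ := hfin.bddAbove
    obtain ⟨w, hw, hws⟩ := exists_stable_ge R hE hNT hS hpos (b + 1)
    have : w.1 ≤ b := hb ⟨w.2, hws⟩
    omega
  have h1 : P (Nat.nth P l) := Nat.nth_mem_of_infinite hinf l
  have h2 : Nat.count P (Nat.nth P l) = l := Nat.count_nth_of_infinite hinf l
  obtain ⟨l', hl'⟩ := h1
  refine ⟨Nat.nth P l, ?_⟩
  have hcard : l' = Nat.count P (Nat.nth P l) := by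
    obtain ⟨-, ⟨F, hF, hFc⟩, -⟩ := V_birth R (Stable.alive R hl' hE (Nat.lt_succ_self _))
    rw [hFc, Nat.count_eq_card_filter_range]
    refine Finset.card_bij' (fun w _ => w.1) (fun k hk => (k, if hk : P k then hk.choose else 0))
      ?_ ?_ ?_ ?_
    · intro w hw
      have h3 := (cur_at_birth R hE hl' w).1 ((hF w).1 hw)
      rw [Finset.mem_filter, Finset.mem_range]
      exact ⟨h3.1, ⟨w.2, h3.2⟩⟩
    · intro k hk
      rw [Finset.mem_filter, Finset.mem_range] at hk
      rw [hF]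
      refine (cur_at_birth R hE hl' _).2 ⟨hk.1, ?_⟩
      rw [dif_pos hk.2]
      exact hk.2.choose_spec
    · intro w hw
      have h3 := (cur_at_birth R hE hl' w).1 ((hF w).1 hw)
      have h4 : P w.1 := ⟨w.2, h3.2⟩
      obtain ⟨w1, w2⟩ := w
      simp only at h4 ⊢
      rw [dif_pos h4, stable_level_unique R hE h4.choose_spec h3.2]
    · intro k hk; rfl
  rw [h2] at hcard
  rw [hcard] at hl'
  exact hl'

end Pre

end Pool.Agent.SJT
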