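import Pool.Agent.Lib.MP_377195_lc.Verify4

/-!
# Verification of the construction, part 5: the requirements are met
-/

namespace Pool.Agent.SJT

open Encodable
open Nat.Partrec (Code)
open Nat.Partrec.Code

variable {E : Set ℕ} {f : ℕ →. ℕ}

namespace Pre

variable {r : Pre} {ap : Approx E f} {h : ℕ → ℕ}

/-- The final set on the side of the parity of `lev`. -/
def SameF (r : Pre) (lev : ℕ) : Set ℕ := {d | ∃ s l, (l, d) ∈ r.C s ∧ l % 2 = lev % 2}

/-- The final set on the other side. -/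
def OthF (r : Pre) (lev : ℕ) : Set ℕ := {d | ∃ s l, (l, d) ∈ r.C s ∧ l % 2 ≠ lev % 2}

/-- `d` is a marker appointed for the box `x`. -/
def IsMk (r : Pre) (d x : ℕ) : Prop := ∃ a ∈ r.M (d + 1), a.d = d ∧ Nat.pair a.k a.m = x

/-- The least marker appointed for `x` which is not in `X`. -/
def IsPsi (r : Pre) (X : Set ℕ) (x y : ℕ) : Prop :=
  r.IsMk y x ∧ y ∉ X ∧ ∀ z < y, r.IsMk z x → z ∈ X

theorem no_wish (R : r.IsRun ap h) (hE : E.Infinite) (hNT : NoTrace f h)
    (hS : ∀ k, REPred (fun p : ℕ × ℕ => ∃ s, (k, p.1, p.2) ∈ r.S s)) (hpos : ∀ n, 0 < h n)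
    (n : ℕ) : ∃ t0, ∀ t ≥ t0, TrueStage ap t → ∀ w : Ver, w.1 < n → r.Cur ap t w →
      (∀ a, ¬ r.WishA ap h t w a) ∧ ∀ a, ¬ r.WishB ap t w a := by
  classical
  obtain ⟨t1, h1⟩ := eventually_stable R n
  obtain ⟨t2, h2⟩ := eventually_settled R hE hNT hS hpos n
  refine ⟨max t1 t2, fun t ht htt => ?_⟩
  have key : ∀ k, k < n → ∀ l, r.Cur ap t (k, l) →
      (∀ a, ¬ r.WishA ap h t (k, l) a) ∧ ∀ a, ¬ r.WishB ap t (k, l) a := by
    intro k
    induction k using Nat.strong_induction_on with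
    | _ k ih =>
      intro hk l hc
      have hs := h1 t (by omega) (k, l) hk hc
      have hs2 := h2 (k, l) hk hs
      have hlow : ∀ w', r.Cur ap t w' → w'.1 < k →
          (∀ a, ¬ r.WishA ap h t w' a) ∧ ∀ a, ¬ r.WishB ap t w' a :=
        fun w' hw' hlt => ih w'.1 hlt (by omega) w'.2 hw'
      have hA : ∀ a, ¬ r.WishA ap h t (k, l) a := by
        intro a ha
        exact hs2.1 t (by omega) a ⟨hc, ha, hlow⟩
      refine ⟨hA, fun a ha => ?_⟩
      exact hs2.2.1 t (by omega) htt a ⟨hc, ha, hA, hlow⟩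
  exact fun w hw hc => key w.1 hw w.2 hc

/-- The restraint imposed by an action of a stable version is never injured. -/
theorem restraint (R : r.IsRun ap h) (hE : E.Infinite) {w : Ver} (hw : Stable r ap w)
    {s : ℕ} {a : Mkr} (ha : r.ActA ap h s w a) {y : ℕ} (hys : y < s) :
    y ∈ r.Oth s w.2 ↔ y ∈ r.OthF w.2 := by
  classical
  constructor
  · rintro ⟨l, h1, h2⟩
    exact ⟨s + 1, l, h1, h2⟩
  · rintro ⟨s', l', h1, h2⟩
    obtain ⟨t', ht', b, hb, hh, hbl, hbd⟩ := C_birth R h1
    rcases Nat.lt_or_ge s t' with h3 | h3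
    · exfalso
      have hb1 : b ∈ r.M' ap s := M'_back R hb (by omega) h3
      have hb2 : b ∈ r.M (s + 1) := M_back R hb (by omega) h3
      obtain ⟨c, hc, hV, hM, -⟩ := ActA_new R ha
      rw [hM, Finset.mem_filter] at hb2
      have hbk : b.k ≤ w.1 := hb2.2
      have hne : b.k ≠ w.1 := by
        intro heq
        have h4 := (M_owner R hb).1
        rw [heq] at h4
        have h5 : (w.1, w.2) ∈ r.V s := V'_sub ha.1.1
        have h6 := level_unique R h4 h5
        rw [hbl] at h6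
        exact h2 (by rw [h6])
      rcases lt_trichotomy b.d w.1 with h4 | h4 | h4
      · have hws : w.1 < s := V_lt R (V'_sub ha.1.1)
        have h5 := Stable.alive' R hw hE (s := t') (by omega)
        have h6 := (mem_V'.1 h5).2 b hb hh
        omega
      · exact not_born_of_marker R hb (V'_sub ha.1.1) h4.symm
      · exact ha.1.2 b hb1 ⟨by omega, h4⟩
    · exact ⟨l', C_mono R (Nat.succ_le_succ h3)
        ((R.C_succ _ _ _).2 (Or.inl ⟨b, hb, hh, hbl, hbd⟩)), h2⟩

theorem persist_or_hit (R : r.IsRun ap h) (hE : E.Infinite) {w : Ver} (hw : Stable r ap w)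
    {s : ℕ} {a : Mkr} (ha : a ∈ r.M s) (hk : a.k = w.1) {s' : ℕ} (hs : s ≤ s') :
    a ∈ r.M' ap s' ∨ ∃ u, a ∈ r.M u ∧ Hit ap u a := by
  classical
  by_cases hh : ∃ u, a ∈ r.M u ∧ Hit ap u a
  · exact Or.inr hh
  · left
    push Not at hh
    have hlt : w.1 < s := by
      have h1 := M_owner R ha
      have h2 := M_lt R ha
      omega
    have key : ∀ u, s ≤ u → a ∈ r.M u ∧ a ∈ r.M' ap u := by
      have step1 : ∀ u, s ≤ u → a ∈ r.M u → a ∈ r.M' ap u := by
        intro u hu hau
        refine mem_M'.2 ⟨hau, hh u hau, ?_⟩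
        have := (mem_V'.1 (Stable.alive' R hw hE (s := u) (by omega))).2
        rw [hk]; exact this
      intro u hu
      induction u, hu using Nat.le_induction with
      | base => exact ⟨ha, step1 _ le_rfl ha⟩
      | succ u hu ih =>
        have h3 : (a.k, w.2) ∈ r.V (u + 1) := by
          rw [hk]; exact Stable.alive R hw hE (by omega)
        have h4 := (M_persist_one R ih.1 (hh u ih.1) h3).2
        exact ⟨h4, step1 _ (by omega) h4⟩
    exact (key s' hs).2

/-- The requirement of a stable version is met. -/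
theorem requirement (R : r.IsRun ap h) (hE : E.Infinite) (hNT : NoTrace f h)
    (hS : ∀ k, REPred (fun p : ℕ × ℕ => ∃ s, (k, p.1, p.2) ∈ r.S s)) (hpos : ∀ n, 0 < h n)
    {w : Ver} (hw : Stable r ap w) :
    ∃ n0, w.1 ≤ n0 ∧
      ((∃ F : Finset ℕ, h n0 < F.card ∧ ∀ a ∈ F, ∃ l k,
        (evaln k (Denumerable.ofNat Code (w.2 / 2))
          (encode (pre (r.OthF w.2) l, Nat.pair (Nat.pair w.1 n0) a))).isSome = true) ∨
      (∃ a, r.IsPsi (r.SameF w.2) (Nat.pair w.1 n0) a ∧ ¬ ∃ l k,
        (evaln k (Denumerable.ofNat Code (w.2 / 2))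
          (encode (pre (r.OthF w.2) l, Nat.pair (Nat.pair w.1 n0) a))).isSome = true)) := by
  classical
  obtain ⟨n0, hkn, v0, hv0, hns, hlow⟩ := exists_n0 R hNT hS hpos w.1
  refine ⟨n0, hkn, ?_⟩
  obtain ⟨s0, u0, hs0⟩ := ap.c_complete n0 v0 hv0
  obtain ⟨t1, ht1⟩ := no_wish R hE hNT hS hpos (w.1 + 1)
  obtain ⟨t2, ht2⟩ := S_finite R hNT hS hpos w.1
  have hlow' : ∀ m, w.1 ≤ m → m < n0 → ∀ v ∈ f m, (w.1, m, v) ∈ r.S t2 := by
    intro m h1 h2 v hv
    obtain ⟨s, hs⟩ := hlow m h1 h2 v hv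
    exact ht2 s m v hs
  -- a marker for `(w.1, n0)` at large true stages
  have hmark : ∀ t, s0 ≤ t → t1 ≤ t → t2 ≤ t → n0 < t → w.1 < t → TrueStage ap t →
      ∃ b ∈ r.M' ap t, b.k = w.1 ∧ b.m = n0 := by
    intro t h1 h2 h3 h4 h5 htt
    have hc := Stable.cur R hw hE htt h5
    have hwish := (ht1 t h2 htt w (Nat.lt_succ_self _) hc).2 (t, w.1, w.2, n0, v0, u0)
    by_contra hcon
    push Not at hcon
    apply hwish
    refine ⟨rfl, rfl, rfl, hkn, h4, hs0 t h1, hns t, ?_, ?_⟩
    · intro m hm hkm v u hcm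
      exact S_mono R h3 (hlow' m hkm hm v (TrueStage.comp htt hcm).1)
    · intro b hb hbb
      exact hcon b hb hbb.1 hbb.2
  obtain ⟨t, ht, htt⟩ := exists_trueStage ap hE (max (max (max s0 t1) (max t2 n0)) w.1 + 1)
  obtain ⟨b, hb, hbk, hbm⟩ := hmark t (by omega) (by omega) (by omega) (by omega) (by omega) htt
  have hbv : b.v = v0 := by
    have h1 := M'_comp R hb
    rw [hbm, hs0 t (by omega)] at h1
    exact (Prod.mk.inj (Option.some.inj h1)).1.symm
  have hbnh : ∀ u, t ≤ u → ¬ Hit ap u b := fun u hu =>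
    TrueStage.not_hit htt (mem_M'.1 hb).2.1 hu
  have hbd : b.d < t := M_lt R (M'_sub hb)
  by_cases hTr : ∃ l k, (evaln k (Denumerable.ofNat Code (w.2 / 2))
      (encode (pre (r.OthF w.2) l, Nat.pair (Nat.pair w.1 n0) b.d))).isSome = true
  · -- the marker is traced; then the box is full
    left
    obtain ⟨l', k', hlk⟩ := hTr
    have hOth : ∃ s1, ∀ s ≥ s1, pre (r.Oth s w.2) l' = pre (r.OthF w.2) l' := by
      have : ∀ j ≤ l', ∃ s1, ∀ s ≥ s1, ∀ y < j, (y ∈ r.Oth s w.2 ↔ y ∈ r.OthF w.2) := by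
        intro j
        induction j with
        | zero => intro _; exact ⟨0, fun s _ y hy => absurd hy (Nat.not_lt_zero _)⟩
        | succ j ih =>
          intro hj
          obtain ⟨s1, h1⟩ := ih (by omega)
          by_cases hy : j ∈ r.OthF w.2
          · obtain ⟨s2, l2, h2, h3⟩ := hy
            refine ⟨max s1 s2, fun s hs y hy => ?_⟩
            rcases Nat.lt_succ_iff_lt_or_eq.1 hy with hy | hy
            · exact h1 s (by omega) y hy
            · subst hy
              refine ⟨fun _ => ⟨s2, l2, h2, h3⟩, fun _ => ⟨l2, C_mono R (by omega) h2, h3⟩⟩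
          · refine ⟨s1, fun s hs y hy' => ?_⟩
            rcases Nat.lt_succ_iff_lt_or_eq.1 hy' with hy' | hy'
            · exact h1 s (by omega) y hy'
            · subst hy'
              refine ⟨fun ⟨l2, h2, h3⟩ => ⟨s + 1, l2, h2, h3⟩, fun h2 => absurd h2 hy⟩
      obtain ⟨s1, h1⟩ := this l' le_rfl
      exact ⟨s1, fun s hs => pre_congr (h1 s hs)⟩
    obtain ⟨s1, hs1⟩ := hOth
    obtain ⟨t', ht', htt'⟩ := exists_trueStage ap hE (max (max t s1) (max l' k'))
    have hb' : b ∈ r.M' ap t' := Stable.perm R hw hE htt hb hbk (by omega)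
    have hc' := Stable.cur R hw hE htt' (t := t') (by omega)
    have hwA := (ht1 t' (by omega) htt' w (Nat.lt_succ_self _) hc').1 b
    have hblev : b.lev = w.2 := by
      have h1 := (M_owner R (M'_sub hb)).1
      rw [hbk] at h1
      exact level_unique R h1 (Stable.alive R hw hE (s := w.1 + 1) (by omega))
    have hTC : r.TC t' b := by
      refine ⟨l', by omega, ?_⟩
      rw [hblev, hs1 t' (by omega), hbk, hbm]
      obtain ⟨z, hz⟩ := Option.isSome_iff_exists.1 hlk
      exact Option.isSome_iff_exists.2 ⟨z, evaln_mono (by omega) hz⟩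
    have hcnt : h n0 ≤ r.cnt t' w.1 n0 := by
      by_contra hcon
      apply hwA
      refine ⟨hb', hbk, ?_, ?_, hTC⟩
      · rw [hbk, hbm, hbv]; exact hns t'
      · rw [hbk, hbm]; exact not_le.1 hcon
    -- the traced markers
    have hex : ∀ e ∈ (r.S t').filter (fun e => e.1 = w.1 ∧ e.2.1 = n0),
        ∃ a : Mkr, (∃ s, r.ActA ap h s w a) ∧ a.m = n0 ∧ a.v = e.2.2 := by
      intro e he
      rw [Finset.mem_filter] at he
      obtain ⟨s, hs, w', a, ha, hea⟩ := S_birth R he.1
      have h1 : w'.1 = w.1 := by rw [← ha.2.1.2.1, ← he.2.1, hea]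
      have h2 : w' = w := by
        obtain ⟨w1, w2⟩ := w'
        simp only at h1
        subst h1
        have h3 : (w.1, w2) ∈ r.V s := V'_sub ha.1.1
        have h4 := level_unique R h3 (Stable.alive R hw hE (s := w.1 + 1) (by omega))
        rw [h4]
      subst h2
      refine ⟨a, ⟨s, ha⟩, ?_, ?_⟩
      · rw [← he.2.2, hea]
      · rw [hea]
    choose! A hA using hex
    have hAM : ∀ e ∈ (r.S t').filter (fun e => e.1 = w.1 ∧ e.2.1 = n0), ∃ s, A e ∈ r.M s := by
      intro e he
      obtain ⟨⟨s, hs⟩, -⟩ := hA e he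
      exact ⟨s, M'_sub hs.2.1.1⟩
    have hinj : Set.InjOn (fun e => (A e).d)
        ((r.S t').filter (fun e => e.1 = w.1 ∧ e.2.1 = n0) : Finset (ℕ × ℕ × ℕ)) := by
      intro e he e' he' hee
      have he1 := Finset.mem_coe.1 he
      have he1' := Finset.mem_coe.1 he'
      obtain ⟨s, hs⟩ := hAM e he1
      obtain ⟨s', hs'⟩ := hAM e' he1'
      have h1 := M_eq_of_d R hs hs' hee
      have h2 := (hA e he1).2.2
      have h3 := (hA e' he1').2.2
      rw [Finset.mem_filter] at he1 he1'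
      obtain ⟨e1, e2, e3⟩ := e
      obtain ⟨e1', e2', e3'⟩ := e'
      simp only at he1 he1' h2 h3
      rw [he1.2.1, he1'.2.1, he1.2.2, he1'.2.2, ← h2, ← h3, h1]
    refine ⟨insert b.d (((r.S t').filter (fun e => e.1 = w.1 ∧ e.2.1 = n0)).image
      fun e => (A e).d), ?_, ?_⟩
    · rw [Finset.card_insert_of_notMem, Finset.card_image_of_injOn hinj]
      · unfold cnt at hcnt; omega
      · intro hmem
        rw [Finset.mem_image] at hmem
        obtain ⟨e, he, hed⟩ := hmem
        obtain ⟨s, hs⟩ := hAM e he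
        have h1 := M_eq_of_d R hs (M'_sub hb) hed
        have h2 := (hA e he).2.2
        rw [h1, hbv] at h2
        rw [Finset.mem_filter] at he
        apply hns t'
        have : (w.1, n0, v0) = e := by
          rw [h2, ← he.2.1, ← he.2.2]
        rw [this]; exact he.1
    · intro a ha
      rcases Finset.mem_insert.1 ha with ha | ha
      · rw [ha]; exact ⟨l', k', hlk⟩
      · rw [Finset.mem_image] at ha
        obtain ⟨e, he, hed⟩ := ha
        obtain ⟨⟨s, hs⟩, hm, -⟩ := hA e he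
        obtain ⟨l2, hl2, hTC2⟩ := hs.2.1.2.2.2.2
        have hkw : (A e).k = w.1 := hs.2.1.2.1
        have hlev : (A e).lev = w.2 := by
          have h1 := (M_owner R (M'_sub hs.2.1.1)).1
          rw [hkw] at h1
          exact level_unique R h1 (Stable.alive R hw hE (s := w.1 + 1) (by omega))
        refine ⟨l2, s, ?_⟩
        rw [hlev, hkw, hm, hed] at hTC2
        have : pre (r.Oth s w.2) l2 = pre (r.OthF w.2) l2 :=
          pre_congr fun y hy => restraint R hE hw hs (by omega)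
        rw [← this]
        exact hTC2
  · -- the marker is not traced
    right
    refine ⟨b.d, ⟨⟨b, ?_, rfl, by rw [hbk, hbm]⟩, ?_, ?_⟩, hTr⟩
    · exact M_back R (M'_sub hb) (Nat.lt_succ_self _) (by omega)
    · rintro ⟨s, l, h1, -⟩
      obtain ⟨t', ht', a, ha, hh, hal, had⟩ := C_birth R h1
      have hab := M_eq_of_d R ha (M'_sub hb) had
      subst hab
      rcases Nat.lt_or_ge t' t with h2 | h2
      · have h3 := M'_back R (M'_sub hb) (M_lt R ha) h2
        exact (mem_M'.1 h3).2.1 hh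
      · exact hbnh t' h2 hh
    · rintro z hz ⟨a, ha, had, hax⟩
      obtain ⟨h1, h2⟩ := Nat.pair_eq_pair.1 hax
      have hnot : a ∉ r.M' ap b.d := by
        intro hmem
        have := (M_birth' R (M'_sub hb)).2.1.2.2.2.2.2.2.2.2 a hmem
        exact this ⟨by rw [h1, hbk], by rw [h2, hbm]⟩
      rcases persist_or_hit R hE hw ha h1 (s' := b.d) (by omega) with h3 | ⟨u, hu, hh⟩
      · exact absurd h3 hnot
      · have hlev : a.lev = w.2 := by
          have h1' := (M_owner R ha).1
          rw [h1] at h1'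
          exact level_unique R h1' (Stable.alive R hw hE (s := w.1 + 1) (by omega))
        exact ⟨u + 1, a.lev, (R.C_succ _ _ _).2 (Or.inl ⟨a, hu, hh, rfl, had⟩), by rw [hlev]⟩

end Pre

end Pool.Agent.SJT
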